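import Pool.Agent.NH98.RS2.StmT
import Pool.Agent.Helper923.PNT

/-! The Tauberian theorem of Ingham and Karamata for slowly oscillating functions. -/

set_option autoImplicit false

namespace Pool.Agent.NH98.RS2.TB

open MeasureTheory Filter Topology Set
open Pool.Agent.Helper923.PNT (K K_nonneg K_le_one K_mul_sq_le K_le K_measurable K_integrable
  K_integral_pos fejer_complex)

noncomputable section

/-- the square of the Fejer kernel -/
def q (v : ℝ) : ℝ := K v ^ 2

lemma q_nonneg (v : ℝ) : 0 ≤ q v := sq_nonneg _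

lemma q_le (v : ℝ) : q v ≤ 25 * ((1 + v ^ 2)⁻¹ * (1 + v ^ 2)⁻¹) := by
  have h1 := K_le v
  have h0 := K_nonneg v
  unfold q
  calc K v ^ 2 ≤ (5 * (1 + v ^ 2)⁻¹) ^ 2 := pow_le_pow_left₀ h0 h1 2
    _ = _ := by ring

lemma q_measurable : Measurable q := K_measurable.pow_const 2

lemma q_bound (v : ℝ) : (1 + |v|) * q v ≤ 50 * (1 + v ^ 2)⁻¹ := by
  have h1 := q_le v
  have h3 : 0 < 1 + v ^ 2 := by positivity
  have h4 : 1 + |v| ≤ 2 * (1 + v ^ 2) := by
    have := sq_nonneg (|v| - 1)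
    have h5 : |v| ^ 2 = v ^ 2 := sq_abs v
    nlinarith [abs_nonneg v]
  calc (1 + |v|) * q v ≤ (2 * (1 + v ^ 2)) * (25 * ((1 + v ^ 2)⁻¹ * (1 + v ^ 2)⁻¹)) :=
        mul_le_mul h4 h1 (q_nonneg v) (by positivity)
    _ = 50 * (1 + v ^ 2)⁻¹ := by field_simp; ring

lemma q_integrable : Integrable q := by
  refine Integrable.mono' (integrable_inv_one_add_sq.const_mul 50)
    q_measurable.aestronglyMeasurable ?_
  refine Eventually.of_forall fun v => ?_
  rw [Real.norm_of_nonneg (q_nonneg v)]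
  have h1 := q_bound v
  have h2 := q_nonneg v
  have h3 := abs_nonneg v
  nlinarith [mul_nonneg h3 h2]

lemma vq_integrable : Integrable (fun v => |v| * q v) := by
  refine Integrable.mono' (integrable_inv_one_add_sq.const_mul 50)
    (measurable_norm.mul q_measurable).aestronglyMeasurable ?_
  refine Eventually.of_forall fun v => ?_
  rw [Real.norm_of_nonneg (mul_nonneg (abs_nonneg v) (q_nonneg v))]
  have h1 := q_bound v
  have h2 := q_nonneg v
  nlinarith

lemma q_integral_pos : 0 < ∫ v, q v := by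
  rw [integral_pos_iff_support_of_nonneg (fun v => q_nonneg v) q_integrable]
  have h1 : 0 < volume (Function.support K) := by
    have := K_integral_pos
    rwa [integral_pos_iff_support_of_nonneg (fun v => K_nonneg v) K_integrable] at this
  refine lt_of_lt_of_le h1 (measure_mono ?_)
  intro v hv
  simp only [Function.mem_support] at hv ⊢
  exact pow_ne_zero 2 hv

/-- the rescaled kernel -/
def ker (L u t : ℝ) : ℝ := (L * K (L * (u - t))) ^ 2

lemma ker_eq (L u t : ℝ) : ker L u t = L ^ 2 * q (L * (u - t)) := by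
  unfold ker q; ring

lemma ker_nonneg (L u t : ℝ) : 0 ≤ ker L u t := sq_nonneg _

lemma ker_measurable (L u : ℝ) : Measurable (ker L u) := by
  have := K_measurable
  unfold ker
  fun_prop

lemma ker_integrable (L u : ℝ) (hL : 0 < L) : Integrable (ker L u) := by
  have h1 : Integrable (fun v => q (L * v)) := q_integrable.comp_mul_left' hL.ne'
  have h2 := (h1.comp_sub_left u).const_mul (L ^ 2)
  exact h2.congr (Eventually.of_forall fun t => (ker_eq L u t).symm)

lemma vker_integrable (L u : ℝ) (hL : 0 < L) : Integrable (fun t => |u - t| * ker L u t) := by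
  have h1 : Integrable (fun v => |L * v| * q (L * v)) := vq_integrable.comp_mul_left' hL.ne'
  have h2 := (h1.comp_sub_left u).const_mul L
  refine h2.congr (Eventually.of_forall fun t => ?_)
  simp only [ker_eq, abs_mul, abs_of_pos hL]
  ring

lemma ker_integral (L u : ℝ) (hL : 0 < L) : ∫ t, ker L u t = L * ∫ v, q v := by
  calc ∫ t, ker L u t = ∫ t, (fun v => L ^ 2 * q (L * v)) (u - t) := by simp only [ker_eq]
    _ = ∫ v, L ^ 2 * q (L * v) :=
      integral_sub_left_eq_self (fun v => L ^ 2 * q (L * v)) volume u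
    _ = L ^ 2 * ∫ v, q (L * v) := integral_const_mul _ _
    _ = L ^ 2 * (|L⁻¹| • ∫ v, q v) := by rw [Measure.integral_comp_mul_left]
    _ = L * ∫ v, q v := by
      rw [abs_of_pos (inv_pos.mpr hL), smul_eq_mul]
      field_simp

lemma vker_integral (L u : ℝ) (hL : 0 < L) :
    ∫ t, |u - t| * ker L u t = ∫ v, |v| * q v := by
  calc ∫ t, |u - t| * ker L u t = ∫ t, (fun v => L * (|L * v| * q (L * v))) (u - t) := by
        refine integral_congr_ae (Eventually.of_forall fun t => ?_)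
        simp only [ker_eq, abs_mul, abs_of_pos hL]
        ring
    _ = ∫ v, L * (|L * v| * q (L * v)) :=
      integral_sub_left_eq_self (fun v => L * (|L * v| * q (L * v))) volume u
    _ = L * ∫ v, |L * v| * q (L * v) := integral_const_mul _ _
    _ = L * (|L⁻¹| • ∫ v, |v| * q v) := by
      rw [Measure.integral_comp_mul_left (fun v => |v| * q v)]
    _ = ∫ v, |v| * q v := by
      rw [abs_of_pos (inv_pos.mpr hL), smul_eq_mul]
      field_simp

/-- the tail of the kernel to the left -/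
lemma ker_tail (L u T t : ℝ) (hL : 0 < L) (ht : t ≤ T) (hu : T ≤ u) :
    ker L u t ≤ 25 * L ^ 2 * (1 + (L * (u - T)) ^ 2)⁻¹ * (1 + (L * (u - t)) ^ 2)⁻¹ := by
  rw [ker_eq]
  have h1 := q_le (L * (u - t))
  have h2 : (1 + (L * (u - t)) ^ 2)⁻¹ ≤ (1 + (L * (u - T)) ^ 2)⁻¹ := by
    apply inv_anti₀ (by positivity)
    have h3 : 0 ≤ L * (u - T) := mul_nonneg hL.le (by linarith)
    have h4 : L * (u - T) ≤ L * (u - t) := mul_le_mul_of_nonneg_left (by linarith) hL.le
    have := pow_le_pow_left₀ h3 h4 2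
    linarith
  have h5 : 0 ≤ (1 + (L * (u - t)) ^ 2)⁻¹ := by positivity
  calc L ^ 2 * q (L * (u - t))
      ≤ L ^ 2 * (25 * ((1 + (L * (u - t)) ^ 2)⁻¹ * (1 + (L * (u - t)) ^ 2)⁻¹)) :=
        mul_le_mul_of_nonneg_left h1 (sq_nonneg L)
    _ ≤ L ^ 2 * (25 * ((1 + (L * (u - T)) ^ 2)⁻¹ * (1 + (L * (u - t)) ^ 2)⁻¹)) := by
        have := mul_le_mul_of_nonneg_right h2 h5
        have hL2 : 0 ≤ L ^ 2 * 25 := by positivity
        nlinarith [mul_le_mul_of_nonneg_left this hL2]
    _ = _ := by ring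

lemma cauchy_integrable (L u : ℝ) (hL : 0 < L) :
    Integrable (fun t => (1 + (L * (u - t)) ^ 2)⁻¹) := by
  have h1 : Integrable (fun v : ℝ => (1 + (L * v) ^ 2)⁻¹) :=
    integrable_inv_one_add_sq.comp_mul_left' hL.ne'
  exact h1.comp_sub_left u

lemma cauchy_integral (L u : ℝ) (hL : 0 < L) :
    ∫ t, (1 + (L * (u - t)) ^ 2)⁻¹ = L⁻¹ * Real.pi := by
  calc ∫ t, (1 + (L * (u - t)) ^ 2)⁻¹ = ∫ t, (fun v => (1 + (L * v) ^ 2)⁻¹) (u - t) := rfl
    _ = ∫ v, (1 + (L * v) ^ 2)⁻¹ :=
      integral_sub_left_eq_self (fun v => (1 + (L * v) ^ 2)⁻¹) volume u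
    _ = |L⁻¹| • ∫ v : ℝ, (1 + v ^ 2)⁻¹ := by
      rw [Measure.integral_comp_mul_left (fun v : ℝ => (1 + v ^ 2)⁻¹)]
    _ = _ := by
      rw [integral_univ_inv_one_add_sq, abs_of_pos (inv_pos.mpr hL), smul_eq_mul]

/-- the weight of the Fejer kernel -/
def wt (L x : ℝ) : ℂ := ((1 - |x| / L : ℝ) : ℂ)

lemma wt_continuous (L : ℝ) : Continuous (wt L) := by
  unfold wt; fun_prop

lemma wt_norm {L x : ℝ} (hL : 0 < L) (hx : x ∈ Ioc (-L) L) : ‖wt L x‖ ≤ 1 := by
  have hy1 : |x| ≤ L := abs_le.mpr ⟨hx.1.le, hx.2⟩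
  have hy2 : |x| / L ≤ 1 := (div_le_one hL).mpr hy1
  have hy3 : 0 ≤ |x| / L := by positivity
  unfold wt
  rw [Complex.norm_real, Real.norm_eq_abs, abs_le]
  constructor <;> linarith

/-- the measure on the interval -/
abbrev nu (L : ℝ) : Measure ℝ := volume.restrict (Ioc (-L) L)

lemma two (L v : ℝ) (hL : 0 < L) :
    ∫ p : ℝ × ℝ, wt L p.1 * wt L p.2 * Complex.exp (Complex.I * ((v * (p.1 + p.2) : ℝ) : ℂ))
      ∂((nu L).prod (nu L)) = (((L * K (L * v)) ^ 2 : ℝ) : ℂ) := by
  have h := fejer_complex L v hL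
  rw [intervalIntegral.integral_of_le (by linarith)] at h
  have h2 := integral_prod_mul (μ := nu L) (ν := nu L)
    (fun y : ℝ => wt L y * Complex.exp (Complex.I * ((v * y : ℝ) : ℂ)))
    (fun y : ℝ => wt L y * Complex.exp (Complex.I * ((v * y : ℝ) : ℂ)))
  have h3 : ∫ y : ℝ, wt L y * Complex.exp (Complex.I * ((v * y : ℝ) : ℂ)) ∂(nu L)
      = ((L * K (L * v) : ℝ) : ℂ) := h
  rw [h3] at h2
  rw [pow_two, Complex.ofReal_mul, ← h2]
  refine integral_congr_ae (Eventually.of_forall fun p => ?_)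
  have e : Complex.exp (Complex.I * ((v * (p.1 + p.2) : ℝ) : ℂ)) =
      Complex.exp (Complex.I * ((v * p.1 : ℝ) : ℂ)) *
        Complex.exp (Complex.I * ((v * p.2 : ℝ) : ℂ)) := by
    rw [← Complex.exp_add]
    congr 1
    push_cast
    ring
  simp only [e]
  ring

section main

variable {S : ℝ → ℝ} {C : ℝ} {G : ℂ → ℂ}

lemma C_nonneg (hC : ∀ t, 0 ≤ t → |S t| ≤ C * (1 + t)) : 0 ≤ C := by
  have := hC 0 le_rfl
  have h2 := abs_nonneg (S 0)
  linarith

lemma lin_exp {σ t : ℝ} (hσ : 0 < σ) (ht : 0 ≤ t) :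
    (1 + t) * Real.exp (-σ * t) ≤ (1 + 2 / σ) * Real.exp (-(σ / 2) * t) := by
  have h1 : σ / 2 * t + 1 ≤ Real.exp (σ / 2 * t) := Real.add_one_le_exp _
  have h2 : 1 + t ≤ (1 + 2 / σ) * Real.exp (σ / 2 * t) := by
    have h3 : 1 ≤ Real.exp (σ / 2 * t) := Real.one_le_exp (by positivity)
    have h4 : t ≤ 2 / σ * Real.exp (σ / 2 * t) := by
      calc t = 2 / σ * (σ / 2 * t) := by field_simp
        _ ≤ 2 / σ * Real.exp (σ / 2 * t) := by
          apply mul_le_mul_of_nonneg_left _ (by positivity)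
          linarith
    linarith
  have e : Real.exp (-(σ / 2) * t) = Real.exp (σ / 2 * t) * Real.exp (-σ * t) := by
    rw [← Real.exp_add]; congr 1; ring
  rw [e, ← mul_assoc]
  exact mul_le_mul_of_nonneg_right h2 (Real.exp_pos _).le

/-- the first step: Fubini -/
lemma fub (hm : Measurable S) (hC : ∀ t, 0 ≤ t → |S t| ≤ C * (1 + t)) (L σ u : ℝ) (hL : 0 < L)
    (hσ : 0 < σ) :
    ∫ p : ℝ × ℝ, wt L p.1 * wt L p.2 * Complex.exp (Complex.I * ((u * (p.1 + p.2) : ℝ) : ℂ)) *
      (∫ t in Ioi (0 : ℝ), (S t : ℂ) *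
        Complex.exp (-(((σ : ℂ) + Complex.I * ((p.1 + p.2 : ℝ) : ℂ)) * t)))
      ∂((nu L).prod (nu L))
    = ((∫ t in Ioi (0 : ℝ), S t * Real.exp (-σ * t) * ker L u t : ℝ) : ℂ) := by
  have hC0 := C_nonneg hC
  set g : ℝ × ℝ → ℝ → ℂ := fun p t => wt L p.1 * wt L p.2 *
    Complex.exp (Complex.I * ((u * (p.1 + p.2) : ℝ) : ℂ)) * ((S t : ℂ) *
        Complex.exp (-(((σ : ℂ) + Complex.I * ((p.1 + p.2 : ℝ) : ℂ)) * t))) with hg
  have hgm : Measurable (Function.uncurry g) := by
    have h1 : Measurable (fun x : (ℝ × ℝ) × ℝ => S x.2) := hm.comp measurable_snd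
    have h2 : Measurable (fun x : (ℝ × ℝ) × ℝ => wt L x.1.1) :=
      (wt_continuous L).measurable.comp (measurable_fst.comp measurable_fst)
    have h3 : Measurable (fun x : (ℝ × ℝ) × ℝ => wt L x.1.2) :=
      (wt_continuous L).measurable.comp (measurable_snd.comp measurable_fst)
    have h4 : Function.uncurry g = fun x : (ℝ × ℝ) × ℝ => wt L x.1.1 * wt L x.1.2 *
      Complex.exp (Complex.I * ((u * (x.1.1 + x.1.2) : ℝ) : ℂ)) * ((S x.2 : ℂ) *
        Complex.exp (-(((σ : ℂ) + Complex.I * ((x.1.1 + x.1.2 : ℝ) : ℂ)) * x.2))) := by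
      ext x; rfl
    rw [h4]
    fun_prop
  have hnorm : ∀ p ∈ Ioc (-L) L ×ˢ Ioc (-L) L, ∀ t ∈ Ioi (0 : ℝ),
      ‖g p t‖ ≤ C * (1 + 2 / σ) * Real.exp (-(σ / 2) * t) := by
    intro p hp t ht
    have ht' : (0 : ℝ) ≤ t := le_of_lt ht
    simp only [hg, norm_mul, Complex.norm_exp, Complex.norm_real]
    have e1 : (Complex.I * ((u * (p.1 + p.2) : ℝ) : ℂ)).re = 0 := by simp
    have e2 : (-(((σ : ℂ) + Complex.I * ((p.1 + p.2 : ℝ) : ℂ)) * t)).re = -σ * t := by
      simp
    rw [e1, e2, Real.exp_zero, mul_one]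
    have h1 := wt_norm hL hp.1
    have h2 := wt_norm hL hp.2
    have h3 : ‖S t‖ ≤ C * (1 + t) := hC t ht'
    have h4 : ‖wt L p.1‖ * ‖wt L p.2‖ ≤ 1 * 1 :=
      mul_le_mul h1 h2 (norm_nonneg _) zero_le_one
    have h5 := lin_exp hσ ht'
    have h6 := Real.exp_pos (-σ * t)
    calc ‖wt L p.1‖ * ‖wt L p.2‖ * (‖S t‖ * Real.exp (-σ * t))
        ≤ (1 * 1) * (C * (1 + t) * Real.exp (-σ * t)) := by
          apply mul_le_mul h4 _ (by positivity) (by norm_num)
          exact mul_le_mul_of_nonneg_right h3 h6.le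
      _ = C * ((1 + t) * Real.exp (-σ * t)) := by ring
      _ ≤ C * ((1 + 2 / σ) * Real.exp (-(σ / 2) * t)) := mul_le_mul_of_nonneg_left h5 hC0
      _ = _ := by ring
  have hexp : IntegrableOn (fun t => Real.exp (-(σ / 2) * t)) (Ioi 0) :=
    integrableOn_exp_mul_Ioi (by linarith) 0
  have hint : Integrable (Function.uncurry g)
      (((nu L).prod (nu L)).prod (volume.restrict (Ioi (0 : ℝ)))) := by
    have hb : Integrable (fun x : (ℝ × ℝ) × ℝ =>
        (1 : ℝ) * (C * (1 + 2 / σ) * Real.exp (-(σ / 2) * x.2)))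
        (((nu L).prod (nu L)).prod (volume.restrict (Ioi (0 : ℝ)))) := by
      apply Integrable.mul_prod (f := fun _ : ℝ × ℝ => (1 : ℝ))
        (g := fun t => C * (1 + 2 / σ) * Real.exp (-(σ / 2) * t))
      · exact integrable_const _
      · exact hexp.const_mul _
    refine Integrable.mono' hb hgm.aestronglyMeasurable ?_
    rw [nu, Measure.prod_restrict, Measure.prod_restrict]
    refine (ae_restrict_mem ((measurableSet_Ioc.prod measurableSet_Ioc).prod
      measurableSet_Ioi)).mono ?_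
    intro x hx
    rw [one_mul]
    exact hnorm x.1 hx.1 x.2 hx.2
  have step1 : ∫ p : ℝ × ℝ, wt L p.1 * wt L p.2 *
      Complex.exp (Complex.I * ((u * (p.1 + p.2) : ℝ) : ℂ)) *
      (∫ t in Ioi (0 : ℝ), (S t : ℂ) *
        Complex.exp (-(((σ : ℂ) + Complex.I * ((p.1 + p.2 : ℝ) : ℂ)) * t)))
      ∂((nu L).prod (nu L))
      = ∫ p : ℝ × ℝ, (∫ t in Ioi (0 : ℝ), g p t) ∂((nu L).prod (nu L)) := by
    refine integral_congr_ae (Eventually.of_forall fun p => ?_)
    simp only [hg]
    rw [integral_const_mul]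
  rw [step1, integral_integral_swap hint, ← integral_complex_ofReal]
  refine integral_congr_ae (Eventually.of_forall fun t => ?_)
  simp only [hg]
  have htwo := two L (u - t) hL
  have h9 : ∀ p : ℝ × ℝ, wt L p.1 * wt L p.2 *
      Complex.exp (Complex.I * ((u * (p.1 + p.2) : ℝ) : ℂ)) *
      ((S t : ℂ) * Complex.exp (-(((σ : ℂ) + Complex.I * ((p.1 + p.2 : ℝ) : ℂ)) * t)))
      = ((S t * Real.exp (-σ * t) : ℝ) : ℂ) *
        (wt L p.1 * wt L p.2 *
          Complex.exp (Complex.I * (((u - t) * (p.1 + p.2) : ℝ) : ℂ))) := by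
    intro p
    have e : Complex.exp (Complex.I * ((u * (p.1 + p.2) : ℝ) : ℂ)) *
        Complex.exp (-(((σ : ℂ) + Complex.I * ((p.1 + p.2 : ℝ) : ℂ)) * t))
      = ((Real.exp (-σ * t) : ℝ) : ℂ) *
        Complex.exp (Complex.I * (((u - t) * (p.1 + p.2) : ℝ) : ℂ)) := by
      rw [← Complex.exp_add, Complex.ofReal_exp, ← Complex.exp_add]
      congr 1
      push_cast
      ring
    have e3 : ((S t * Real.exp (-σ * t) : ℝ) : ℂ) = (S t : ℂ) * ((Real.exp (-σ * t) : ℝ) : ℂ) :=
      Complex.ofReal_mul _ _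
    rw [e3]
    linear_combination (wt L p.1 * wt L p.2 * (S t : ℂ)) * e
  simp_rw [h9]
  rw [integral_const_mul, htwo]
  unfold ker
  push_cast
  ring

lemma S_ker_integrable (hm : Measurable S) (hC : ∀ t, 0 ≤ t → |S t| ≤ C * (1 + t)) (L u : ℝ)
    (hL : 0 < L) : IntegrableOn (fun t => S t * ker L u t) (Ioi 0) := by
  have hC0 := C_nonneg hC
  have h1 : Integrable (fun t => C * (1 + |u|) * ker L u t + C * (|u - t| * ker L u t)) :=
    ((ker_integrable L u hL).const_mul _).add ((vker_integrable L u hL).const_mul _)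
  refine Integrable.mono' h1.integrableOn
    ((hm.mul (ker_measurable L u)).aestronglyMeasurable) ?_
  refine (ae_restrict_mem measurableSet_Ioi).mono fun t ht => ?_
  have ht' : (0 : ℝ) ≤ t := le_of_lt ht
  have h2 := ker_nonneg L u t
  rw [norm_mul, Real.norm_of_nonneg h2]
  have h3 : ‖S t‖ ≤ C * (1 + t) := hC t ht'
  have h4 : t ≤ |u| + |u - t| := by
    have h5 := le_abs_self u
    have h6 := neg_abs_le (u - t)
    linarith
  have h7 : C * (1 + t) ≤ C * (1 + |u| + |u - t|) :=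
    mul_le_mul_of_nonneg_left (by linarith) hC0
  calc ‖S t‖ * ker L u t ≤ C * (1 + |u| + |u - t|) * ker L u t :=
        mul_le_mul_of_nonneg_right (h3.trans h7) h2
    _ = _ := by ring

/-- the limit `σ → 0+` -/
lemma lim (hm : Measurable S) (hC : ∀ t, 0 ≤ t → |S t| ≤ C * (1 + t))
    (hG : ContinuousOn G {z | 0 ≤ z.re})
    (hE : ∀ z : ℂ, 0 < z.re → ∫ t in Ioi (0 : ℝ), (S t : ℂ) * Complex.exp (-(z * t)) = G z)
    (L u : ℝ) (hL : 0 < L) :
    ∫ p : ℝ × ℝ, wt L p.1 * wt L p.2 * Complex.exp (Complex.I * ((u * (p.1 + p.2) : ℝ) : ℂ)) *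
      G (Complex.I * ((p.1 + p.2 : ℝ) : ℂ)) ∂((nu L).prod (nu L))
    = ((∫ t in Ioi (0 : ℝ), S t * ker L u t : ℝ) : ℂ) := by
  have hC0 := C_nonneg hC
  have hl : Tendsto (fun σ : ℝ => ∫ p : ℝ × ℝ, wt L p.1 * wt L p.2 *
      Complex.exp (Complex.I * ((u * (p.1 + p.2) : ℝ) : ℂ)) *
      G (σ + Complex.I * ((p.1 + p.2 : ℝ) : ℂ)) ∂((nu L).prod (nu L))) (𝓝[>] 0)
      (𝓝 (∫ p : ℝ × ℝ, wt L p.1 * wt L p.2 *
      Complex.exp (Complex.I * ((u * (p.1 + p.2) : ℝ) : ℂ)) *
      G (Complex.I * ((p.1 + p.2 : ℝ) : ℂ)) ∂((nu L).prod (nu L)))) := by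
    have hcont : ContinuousOn (fun p : ℝ × (ℝ × ℝ) =>
        G ((p.1 : ℂ) + Complex.I * ((p.2.1 + p.2.2 : ℝ) : ℂ)))
        (Icc 0 1 ×ˢ (Icc (-L) L ×ˢ Icc (-L) L)) := by
      refine hG.comp (by fun_prop) ?_
      intro p hp
      simp only [mem_ofPred_eq, Complex.add_re, Complex.ofReal_re, Complex.mul_re, Complex.I_re,
        zero_mul, Complex.I_im, Complex.ofReal_im, mul_zero, sub_zero, add_zero]
      exact hp.1.1
    obtain ⟨M, hM⟩ := (isCompact_Icc.prod
      (isCompact_Icc.prod isCompact_Icc)).exists_bound_of_continuousOn hcont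
    refine tendsto_integral_filter_of_dominated_convergence (fun _ => M) ?_ ?_ ?_ ?_
    · filter_upwards [self_mem_nhdsWithin] with σ hσ
      have hσ' : (0 : ℝ) ≤ σ := le_of_lt hσ
      refine Continuous.aestronglyMeasurable ?_
      have hw := wt_continuous L
      refine Continuous.mul (by fun_prop) ?_
      refine hG.comp_continuous (by fun_prop) ?_
      intro p
      simpa using hσ'
    · have h1 : ∀ᶠ σ : ℝ in 𝓝[>] 0, σ < 1 := nhdsWithin_le_nhds (Iio_mem_nhds one_pos)
      filter_upwards [self_mem_nhdsWithin, h1] with σ hσ hσ1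
      have hσ' : (0 : ℝ) ≤ σ := le_of_lt hσ
      rw [nu, Measure.prod_restrict]
      refine (ae_restrict_mem (measurableSet_Ioc.prod measurableSet_Ioc)).mono fun p hp => ?_
      have hb := hM (σ, p) ⟨⟨hσ', hσ1.le⟩, ⟨hp.1.1.le, hp.1.2⟩, ⟨hp.2.1.le, hp.2.2⟩⟩
      rw [norm_mul, norm_mul, norm_mul, Complex.norm_exp]
      have e1 : (Complex.I * ((u * (p.1 + p.2) : ℝ) : ℂ)).re = 0 := by simp
      rw [e1, Real.exp_zero, mul_one]
      have h1 := wt_norm hL hp.1
      have h2 := wt_norm hL hp.2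
      have h4 : ‖wt L p.1‖ * ‖wt L p.2‖ ≤ 1 * 1 :=
        mul_le_mul h1 h2 (norm_nonneg _) zero_le_one
      calc ‖wt L p.1‖ * ‖wt L p.2‖ * ‖G (σ + Complex.I * ((p.1 + p.2 : ℝ) : ℂ))‖
          ≤ (1 * 1) * M := mul_le_mul h4 hb (norm_nonneg _) (by norm_num)
        _ = M := by ring
    · exact integrable_const _
    · refine Eventually.of_forall fun p => ?_
      refine Tendsto.const_mul _ ?_
      have hc := hG (Complex.I * ((p.1 + p.2 : ℝ) : ℂ)) (by simp)
      have h3 : Tendsto (fun σ : ℝ => (σ : ℂ) + Complex.I * ((p.1 + p.2 : ℝ) : ℂ)) (𝓝[>] 0)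
          (𝓝[{z | 0 ≤ z.re}] (Complex.I * ((p.1 + p.2 : ℝ) : ℂ))) := by
        refine tendsto_nhdsWithin_iff.mpr ⟨?_, ?_⟩
        · have h0 : Continuous (fun σ : ℝ => (σ : ℂ) + Complex.I * ((p.1 + p.2 : ℝ) : ℂ)) := by
            fun_prop
          have := h0.tendsto 0
          simp only [Complex.ofReal_zero, zero_add] at this
          exact this.mono_left nhdsWithin_le_nhds
        · filter_upwards [self_mem_nhdsWithin] with σ hσ
          have hσ' : (0 : ℝ) ≤ σ := le_of_lt hσ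
          simpa using hσ'
      exact Tendsto.comp hc h3
  have hr : Tendsto (fun σ : ℝ => ∫ t in Ioi (0 : ℝ), S t * Real.exp (-σ * t) * ker L u t)
      (𝓝[>] 0) (𝓝 (∫ t in Ioi (0 : ℝ), S t * ker L u t)) := by
    refine tendsto_integral_filter_of_dominated_convergence
      (fun t => ‖S t * ker L u t‖) ?_ ?_ ?_ ?_
    · refine Eventually.of_forall fun σ => ?_
      refine Measurable.aestronglyMeasurable ?_
      have := ker_measurable L u
      fun_prop
    · filter_upwards [self_mem_nhdsWithin] with σ hσ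
      have hσ' : (0 : ℝ) < σ := hσ
      refine (ae_restrict_mem measurableSet_Ioi).mono fun t ht => ?_
      have ht' : (0 : ℝ) ≤ t := le_of_lt ht
      rw [norm_mul, norm_mul, norm_mul, Real.norm_of_nonneg (Real.exp_pos _).le]
      refine mul_le_mul_of_nonneg_right ?_ (norm_nonneg _)
      have h3 : Real.exp (-σ * t) ≤ 1 := by
        rw [Real.exp_le_one_iff]
        have := mul_nonneg hσ'.le ht'
        linarith
      calc ‖S t‖ * Real.exp (-σ * t) ≤ ‖S t‖ * 1 :=
            mul_le_mul_of_nonneg_left h3 (norm_nonneg _)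
        _ = _ := mul_one _
    · exact (S_ker_integrable hm hC L u hL).norm
    · refine Eventually.of_forall fun t => ?_
      have h0 : Continuous (fun σ : ℝ => S t * Real.exp (-σ * t) * ker L u t) := by fun_prop
      have := h0.tendsto 0
      simp only [neg_zero, zero_mul, Real.exp_zero, mul_one] at this
      exact this.mono_left nhdsWithin_le_nhds
  have hr' := (Complex.continuous_ofReal.tendsto _).comp hr
  refine tendsto_nhds_unique hl (hr'.congr' ?_)
  filter_upwards [self_mem_nhdsWithin] with σ hσ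
  have hσ' : (0 : ℝ) < σ := hσ
  simp only [Function.comp]
  rw [← fub hm hC L σ u hL hσ']
  refine integral_congr_ae (Eventually.of_forall fun p => ?_)
  simp only
  rw [hE ((σ : ℂ) + Complex.I * ((p.1 + p.2 : ℝ) : ℂ)) (by simpa using hσ')]

/-- the Riemann-Lebesgue step -/
lemma rl (hm : Measurable S) (hC : ∀ t, 0 ≤ t → |S t| ≤ C * (1 + t))
    (hG : ContinuousOn G {z | 0 ≤ z.re})
    (hE : ∀ z : ℂ, 0 < z.re → ∫ t in Ioi (0 : ℝ), (S t : ℂ) * Complex.exp (-(z * t)) = G z)
    (L : ℝ) (hL : 0 < L) :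
    Tendsto (fun u : ℝ => ∫ t in Ioi (0 : ℝ), S t * ker L u t) atTop (𝓝 0) := by
  have hLL : -L ≤ L := by linarith
  have hGc : Continuous (fun p : ℝ × ℝ => G (Complex.I * ((p.1 + p.2 : ℝ) : ℂ))) := by
    refine hG.comp_continuous (by fun_prop) ?_
    intro p
    simp
  obtain ⟨M, hM⟩ := (isCompact_Icc.prod isCompact_Icc : IsCompact
    (Icc (-L) L ×ˢ Icc (-L) L)).exists_bound_of_continuousOn hGc.continuousOn
  have hw := wt_continuous L
  have hM0 : 0 ≤ M := by
    have := hM (0, 0) ⟨⟨by linarith, hL.le⟩, ⟨by linarith, hL.le⟩⟩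
    exact (norm_nonneg _).trans this
  -- inner integral
  set F : ℝ → ℝ → ℂ := fun u y => ∫ x, wt L x * wt L y *
    Complex.exp (Complex.I * ((u * (x + y) : ℝ) : ℂ)) * G (Complex.I * ((x + y : ℝ) : ℂ)) ∂(nu L)
    with hF
  have hint : ∀ u : ℝ, Integrable (fun p : ℝ × ℝ => wt L p.1 * wt L p.2 *
      Complex.exp (Complex.I * ((u * (p.1 + p.2) : ℝ) : ℂ)) *
      G (Complex.I * ((p.1 + p.2 : ℝ) : ℂ))) ((nu L).prod (nu L)) := by
    intro u
    refine Integrable.mono' (integrable_const M) ?_ ?_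
    · refine Continuous.aestronglyMeasurable ?_
      refine Continuous.mul (by fun_prop) hGc
    · rw [nu, Measure.prod_restrict]
      refine (ae_restrict_mem (measurableSet_Ioc.prod measurableSet_Ioc)).mono fun p hp => ?_
      have hb := hM p ⟨⟨hp.1.1.le, hp.1.2⟩, ⟨hp.2.1.le, hp.2.2⟩⟩
      rw [norm_mul, norm_mul, norm_mul, Complex.norm_exp]
      have e1 : (Complex.I * ((u * (p.1 + p.2) : ℝ) : ℂ)).re = 0 := by simp
      rw [e1, Real.exp_zero, mul_one]
      have h1 := wt_norm hL hp.1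
      have h2 := wt_norm hL hp.2
      have h4 : ‖wt L p.1‖ * ‖wt L p.2‖ ≤ 1 * 1 :=
        mul_le_mul h1 h2 (norm_nonneg _) zero_le_one
      calc ‖wt L p.1‖ * ‖wt L p.2‖ * ‖G (Complex.I * ((p.1 + p.2 : ℝ) : ℂ))‖
          ≤ (1 * 1) * M := mul_le_mul h4 hb (norm_nonneg _) (by norm_num)
        _ = M := by ring
  have hinner : ∀ y : ℝ, Tendsto (fun u => F u y) atTop (𝓝 0) := by
    intro y
    set f : ℝ → ℂ := (Ioc (-L) L).indicator
      (fun x => wt L x * wt L y * G (Complex.I * ((x + y : ℝ) : ℂ))) with hf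
    have hrl := Real.tendsto_integral_exp_smul_cocompact f
    have hmap : Tendsto (fun u : ℝ => -u / (2 * Real.pi)) atTop (cocompact ℝ) := by
      refine Tendsto.mono_right ?_ atBot_le_cocompact
      have hpi : 0 < 2 * Real.pi := by positivity
      exact (tendsto_neg_atTop_atBot).atBot_div_const hpi
    have h1 := (hrl.comp hmap).norm
    rw [norm_zero] at h1
    rw [tendsto_zero_iff_norm_tendsto_zero]
    refine h1.congr fun u => ?_
    have h2 : F u y = Complex.exp (Complex.I * ((u * y : ℝ) : ℂ)) *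
        ∫ v : ℝ, Real.fourierChar (-(v * (-u / (2 * Real.pi)))) • f v := by
      rw [← integral_const_mul]
      simp only [hF, nu]
      rw [← integral_indicator measurableSet_Ioc]
      refine integral_congr_ae (Eventually.of_forall fun x => ?_)
      simp only [hf]
      by_cases hx : x ∈ Ioc (-L) L
      · rw [indicator_of_mem hx, indicator_of_mem hx, Circle.smul_def, Real.fourierChar_apply,
          smul_eq_mul]
        have e : Complex.exp (2 * Real.pi * (-(x * (-u / (2 * Real.pi))) : ℝ) * Complex.I)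
          = Complex.exp (Complex.I * ((u * x : ℝ) : ℂ)) := by
          congr 1
          have hpi : (Real.pi : ℂ) ≠ 0 := by exact_mod_cast Real.pi_ne_zero
          push_cast
          field_simp
        have e2 : Complex.exp (Complex.I * ((u * (x + y) : ℝ) : ℂ)) =
            Complex.exp (Complex.I * ((u * y : ℝ) : ℂ)) *
              Complex.exp (Complex.I * ((u * x : ℝ) : ℂ)) := by
          rw [← Complex.exp_add]
          congr 1
          push_cast
          ring
        push_cast at e e2 ⊢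
        rw [e, e2]
        ring
      · rw [indicator_of_notMem hx, indicator_of_notMem hx, smul_zero, mul_zero]
    have h3 : ‖Complex.exp (Complex.I * ((u * y : ℝ) : ℂ))‖ = 1 := by
      rw [Complex.norm_exp]
      simp
    simp only [Function.comp]
    rw [h2, norm_mul, h3, one_mul]
  have houter : Tendsto (fun u => ∫ y, F u y ∂(nu L)) atTop (𝓝 0) := by
    have h0 : (0 : ℂ) = ∫ y : ℝ, (0 : ℂ) ∂(nu L) := by simp
    rw [h0]
    refine tendsto_integral_filter_of_dominated_convergence (fun _ => M * (2 * L)) ?_ ?_ ?_ ?_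
    · refine Eventually.of_forall fun u => ?_
      exact (hint u).integral_prod_right.aestronglyMeasurable
    · refine Eventually.of_forall fun u => ?_
      refine (ae_restrict_mem measurableSet_Ioc).mono fun y hy => ?_
      simp only [hF]
      have h1 : ∀ x ∈ Ioc (-L) L, ‖wt L x * wt L y *
          Complex.exp (Complex.I * ((u * (x + y) : ℝ) : ℂ)) *
          G (Complex.I * ((x + y : ℝ) : ℂ))‖ ≤ M := by
        intro x hx
        have hb := hM (x, y) ⟨⟨hx.1.le, hx.2⟩, ⟨hy.1.le, hy.2⟩⟩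
        rw [norm_mul, norm_mul, norm_mul, Complex.norm_exp]
        have e1 : (Complex.I * ((u * (x + y) : ℝ) : ℂ)).re = 0 := by simp
        rw [e1, Real.exp_zero, mul_one]
        have h1 := wt_norm hL hx
        have h2 := wt_norm hL hy
        have h4 : ‖wt L x‖ * ‖wt L y‖ ≤ 1 * 1 :=
          mul_le_mul h1 h2 (norm_nonneg _) zero_le_one
        calc ‖wt L x‖ * ‖wt L y‖ * ‖G (Complex.I * ((x + y : ℝ) : ℂ))‖
            ≤ (1 * 1) * M := mul_le_mul h4 hb (norm_nonneg _) (by norm_num)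
          _ = M := by ring
      have h2 := norm_setIntegral_le_of_norm_le_const (μ := volume) (s := Ioc (-L) L)
        (f := fun x => wt L x * wt L y *
          Complex.exp (Complex.I * ((u * (x + y) : ℝ) : ℂ)) *
          G (Complex.I * ((x + y : ℝ) : ℂ))) (C := M) (by simp) h1
      refine h2.trans (le_of_eq ?_)
      rw [Real.volume_real_Ioc_of_le hLL]
      ring
    · exact integrable_const _
    · exact Eventually.of_forall fun y => hinner y
  have h4 : (fun u : ℝ => ∫ y, F u y ∂(nu L)) =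
      fun u : ℝ => ((∫ t in Ioi (0 : ℝ), S t * ker L u t : ℝ) : ℂ) := by
    ext u
    rw [← lim hm hC hG hE L u hL, integral_prod_symm _ (hint u)]
  rw [h4] at houter
  have h5 := (Complex.continuous_re.tendsto _).comp houter
  simpa only [Function.comp_def, Complex.ofReal_re, Complex.zero_re] using h5

/-- slow oscillation over long distances -/
lemma slow {ε δ T : ℝ} (hε : 0 < ε) (hδ : 0 < δ)
    (h : ∀ t u, T ≤ t → 0 ≤ u → u ≤ δ → |S (t + u) - S t| ≤ ε) {t u : ℝ} (ht : T ≤ t)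
    (hu : T ≤ u) : |S u - S t| ≤ ε * (1 + |u - t| / δ) := by
  have key : ∀ s r : ℝ, T ≤ s → s ≤ r → |S r - S s| ≤ ε * (1 + (r - s) / δ) := by
    intro s r hs hsr
    have hn : ∀ n : ℕ, |S (s + n * δ) - S s| ≤ n * ε := by
      intro n
      induction n with
      | zero => simp
      | succ n ih =>
        have h1 := h (s + n * δ) δ (by nlinarith [(Nat.cast_nonneg n : (0 : ℝ) ≤ n)]) hδ.le le_rfl
        have h2 : s + ((n + 1 : ℕ) : ℝ) * δ = s + n * δ + δ := by push_cast; ring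
        rw [h2]
        have h3 := abs_add_le (S (s + n * δ + δ) - S (s + n * δ)) (S (s + n * δ) - S s)
        have h4 : S (s + n * δ + δ) - S (s + n * δ) + (S (s + n * δ) - S s) =
          S (s + n * δ + δ) - S s := by ring
        rw [h4] at h3
        push_cast
        linarith
    set n : ℕ := ⌊(r - s) / δ⌋₊ with hnn
    have h0 : 0 ≤ (r - s) / δ := div_nonneg (by linarith) hδ.le
    have h1 : (n : ℝ) ≤ (r - s) / δ := Nat.floor_le h0
    have h2 : (r - s) / δ < n + 1 := Nat.lt_floor_add_one _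
    have h3 : n * δ ≤ r - s := by rwa [le_div_iff₀ hδ] at h1
    have h4 : r - s < (n + 1) * δ := by rwa [div_lt_iff₀ hδ] at h2
    have h5 := h (s + n * δ) (r - s - n * δ)
      (by nlinarith [(Nat.cast_nonneg n : (0 : ℝ) ≤ n)]) (by linarith) (by linarith)
    have h6 : s + n * δ + (r - s - n * δ) = r := by ring
    rw [h6] at h5
    have h7 := abs_add_le (S r - S (s + n * δ)) (S (s + n * δ) - S s)
    have h8 : S r - S (s + n * δ) + (S (s + n * δ) - S s) = S r - S s := by ring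
    rw [h8] at h7
    have h9 := hn n
    have h10 : n * ε ≤ (r - s) / δ * ε := mul_le_mul_of_nonneg_right h1 hε.le
    linarith
  rcases le_total t u with h1 | h1
  · rw [abs_of_nonneg (by linarith : 0 ≤ u - t)]
    exact key t u ht h1
  · rw [abs_sub_comm (S u) (S t), abs_sub_comm u t, abs_of_nonneg (by linarith : 0 ≤ t - u)]
    exact key u t hu h1

/-- comparison -/
lemma compare (hm : Measurable S) (hC : ∀ t, 0 ≤ t → |S t| ≤ C * (1 + t)) {ε δ T : ℝ}
    (hε : 0 < ε) (hδ : 0 < δ) (hT : 0 ≤ T)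
    (h : ∀ t u, T ≤ t → 0 ≤ u → u ≤ δ → |S (t + u) - S t| ≤ ε) (L u : ℝ) (hL : 0 < L)
    (hu : T ≤ u) :
    |L * (∫ v, q v) * S u - ∫ t in Ioi (0 : ℝ), S t * ker L u t| ≤
      ε * (L * (∫ v, q v) + (∫ v, |v| * q v) / δ) +
      C * (2 + u + T) * (25 * L ^ 2 * (1 + (L * (u - T)) ^ 2)⁻¹) * (L⁻¹ * Real.pi) := by
  have hC0 := C_nonneg hC
  have hSi : Integrable ((Ioi (0 : ℝ)).indicator (fun t => S t * ker L u t)) :=
    (S_ker_integrable hm hC L u hL).integrable_indicator measurableSet_Ioi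
  have hki := ker_integrable L u hL
  have h1 : L * (∫ v, q v) * S u - ∫ t in Ioi (0 : ℝ), S t * ker L u t
      = ∫ t, (S u * ker L u t - (Ioi (0 : ℝ)).indicator (fun t => S t * ker L u t) t) := by
    rw [integral_sub (hki.const_mul _) hSi, integral_const_mul, ker_integral L u hL,
      integral_indicator measurableSet_Ioi]
    ring
  have i1 : Integrable (fun t => ε * ker L u t) := hki.const_mul _
  have i2 : Integrable (fun t => ε / δ * (|u - t| * ker L u t)) :=
    (vker_integrable L u hL).const_mul _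
  have i3 : Integrable (fun t => C * (2 + u + T) * (25 * L ^ 2 * (1 + (L * (u - T)) ^ 2)⁻¹) *
      (1 + (L * (u - t)) ^ 2)⁻¹) := (cauchy_integrable L u hL).const_mul _
  have i4 : Integrable (fun t => ε * ker L u t + ε / δ * (|u - t| * ker L u t)) := i1.add i2
  have i5 : Integrable (fun t => (ε * ker L u t + ε / δ * (|u - t| * ker L u t)) +
      C * (2 + u + T) * (25 * L ^ 2 * (1 + (L * (u - T)) ^ 2)⁻¹) *
      (1 + (L * (u - t)) ^ 2)⁻¹) := i4.add i3
  have h2 : ε * (L * (∫ v, q v) + (∫ v, |v| * q v) / δ) +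
      C * (2 + u + T) * (25 * L ^ 2 * (1 + (L * (u - T)) ^ 2)⁻¹) * (L⁻¹ * Real.pi) =
      ∫ t, ((ε * ker L u t + ε / δ * (|u - t| * ker L u t)) +
        C * (2 + u + T) * (25 * L ^ 2 * (1 + (L * (u - T)) ^ 2)⁻¹) *
          (1 + (L * (u - t)) ^ 2)⁻¹) := by
    rw [integral_add i4 i3, integral_add i1 i2, integral_const_mul, integral_const_mul, integral_const_mul, ker_integral L u hL,
      vker_integral L u hL, cauchy_integral L u hL]
    ring
  rw [h1, h2, ← Real.norm_eq_abs]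
  refine norm_integral_le_of_norm_le i5 ?_
  refine Eventually.of_forall fun t => ?_
  have hk := ker_nonneg L u t
  have hu0 : 0 ≤ u := hT.trans hu
  have hcp : 0 ≤ C * (2 + u + T) * (25 * L ^ 2 * (1 + (L * (u - T)) ^ 2)⁻¹) *
          (1 + (L * (u - t)) ^ 2)⁻¹ := by positivity
  have hcq : 0 ≤ ε * ker L u t + ε / δ * (|u - t| * ker L u t) := by positivity
  by_cases htT : T < t
  · have ht0 : t ∈ Ioi (0 : ℝ) := lt_of_le_of_lt hT htT
    rw [indicator_of_mem ht0]
    have h3 := slow hε hδ h htT.le hu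
    have h4 : S u * ker L u t - S t * ker L u t = (S u - S t) * ker L u t := by ring
    rw [h4, norm_mul, Real.norm_of_nonneg hk]
    have h5 : ‖S u - S t‖ * ker L u t ≤ ε * (1 + |u - t| / δ) * ker L u t :=
      mul_le_mul_of_nonneg_right h3 hk
    have h6 : ε * (1 + |u - t| / δ) * ker L u t =
      ε * ker L u t + ε / δ * (|u - t| * ker L u t) := by ring
    linarith
  · push Not at htT
    have h3 := ker_tail L u T t hL htT hu
    have h4 : ‖S u * ker L u t - (Ioi (0 : ℝ)).indicator (fun t => S t * ker L u t) t‖ ≤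
        C * (2 + u + T) * ker L u t := by
      have h5 : ‖S u * ker L u t‖ ≤ C * (1 + u) * ker L u t := by
        rw [norm_mul, Real.norm_of_nonneg hk]
        exact mul_le_mul_of_nonneg_right (hC u hu0) hk
      have h6 : ‖(Ioi (0 : ℝ)).indicator (fun t => S t * ker L u t) t‖ ≤
          C * (1 + T) * ker L u t := by
        by_cases ht0 : t ∈ Ioi (0 : ℝ)
        · rw [indicator_of_mem ht0, norm_mul, Real.norm_of_nonneg hk]
          refine mul_le_mul_of_nonneg_right ((hC t (le_of_lt ht0)).trans ?_) hk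
          exact mul_le_mul_of_nonneg_left (by linarith) hC0
        · rw [indicator_of_notMem ht0, norm_zero]
          positivity
      have h7 := norm_sub_le (S u * ker L u t)
        ((Ioi (0 : ℝ)).indicator (fun t => S t * ker L u t) t)
      have h8 : C * (2 + u + T) * ker L u t =
        C * (1 + u) * ker L u t + C * (1 + T) * ker L u t := by ring
      linarith
    have h9 : C * (2 + u + T) * ker L u t ≤ C * (2 + u + T) *
        (25 * L ^ 2 * (1 + (L * (u - T)) ^ 2)⁻¹ * (1 + (L * (u - t)) ^ 2)⁻¹) :=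
      mul_le_mul_of_nonneg_left h3 (by positivity)
    have h10 : C * (2 + u + T) *
        (25 * L ^ 2 * (1 + (L * (u - T)) ^ 2)⁻¹ * (1 + (L * (u - t)) ^ 2)⁻¹) =
        C * (2 + u + T) * (25 * L ^ 2 * (1 + (L * (u - T)) ^ 2)⁻¹) *
          (1 + (L * (u - t)) ^ 2)⁻¹ := by ring
    linarith

/-- the error term of the comparison tends to zero -/
lemma err_tendsto (C T L : ℝ) (hL : 0 < L) :
    Tendsto (fun u : ℝ => C * (2 + u + T) * (25 * L ^ 2 * (1 + (L * (u - T)) ^ 2)⁻¹) *
      (L⁻¹ * Real.pi)) atTop (𝓝 0) := by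
  -- substitute `w = u - T`
  have h1 : Tendsto (fun w : ℝ => (2 + 2 * T + w) * (1 + (L * w) ^ 2)⁻¹) atTop (𝓝 0) := by
    have h2 : Tendsto (fun w : ℝ => |2 + 2 * T| * (L ^ 2)⁻¹ * (w⁻¹ * w⁻¹) +
        (L ^ 2)⁻¹ * w⁻¹) atTop (𝓝 (|2 + 2 * T| * (L ^ 2)⁻¹ * (0 * 0) + (L ^ 2)⁻¹ * 0)) := by
      have h3 := tendsto_inv_atTop_zero (𝕜 := ℝ)
      exact ((h3.mul h3).const_mul _).add (h3.const_mul _)
    have h4 : |2 + 2 * T| * (L ^ 2)⁻¹ * (0 * 0) + (L ^ 2)⁻¹ * 0 = (0 : ℝ) := by ring
    rw [h4] at h2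
    refine squeeze_zero_norm' ?_ h2
    filter_upwards [eventually_gt_atTop 0] with w hw
    rw [norm_mul, Real.norm_of_nonneg (by positivity : (0 : ℝ) ≤ (1 + (L * w) ^ 2)⁻¹)]
    have h5 : ‖2 + 2 * T + w‖ ≤ |2 + 2 * T| + w := by
      refine (norm_add_le _ _).trans ?_
      rw [Real.norm_eq_abs, Real.norm_of_nonneg hw.le]
    have h6 : (1 + (L * w) ^ 2)⁻¹ ≤ ((L * w) ^ 2)⁻¹ :=
      inv_anti₀ (by positivity) (by linarith)
    calc ‖2 + 2 * T + w‖ * (1 + (L * w) ^ 2)⁻¹ ≤ (|2 + 2 * T| + w) * ((L * w) ^ 2)⁻¹ :=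
          mul_le_mul h5 h6 (by positivity) (by positivity)
      _ = _ := by field_simp
  have h2 : Tendsto (fun u : ℝ => u - T) atTop atTop := tendsto_atTop_add_const_right _ _ tendsto_id
  have h3 := (h1.comp h2).const_mul (C * (25 * L ^ 2) * (L⁻¹ * Real.pi))
  rw [mul_zero] at h3
  refine h3.congr fun u => ?_
  simp only [Function.comp]
  ring

end main

end

end Pool.Agent.NH98.RS2.TB

namespace Pool.Agent.NH98.RS2

open MeasureTheory Filter Topology Set TB

/-- the Tauberian theorem of Ingham and Karamata -/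
theorem t_taub : S_taub := by
  intro S C G hm hC hslow hG hE
  have hκ := q_integral_pos
  have hc1 : 0 ≤ ∫ v, |v| * q v :=
    integral_nonneg fun v => mul_nonneg (abs_nonneg v) (q_nonneg v)
  rw [Metric.tendsto_atTop]
  intro η hη
  obtain ⟨δ, hδ, T0, hT0⟩ := hslow (η / 4) (by positivity)
  set T := max T0 0 with hT
  have hTT : 0 ≤ T := le_max_right _ _
  have hsl : ∀ t u, T ≤ t → 0 ≤ u → u ≤ δ → |S (t + u) - S t| ≤ η / 4 :=
    fun t u ht => hT0 t u ((le_max_left _ _).trans ht)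
  set κ := ∫ v, q v with hκd
  set c1 := ∫ v, |v| * q v with hc1d
  set L : ℝ := 1 + c1 / (δ * κ) with hLd
  have hL : 0 < L := by positivity
  have hLc : c1 / δ ≤ L * κ := by
    have h1 : c1 / (δ * κ) ≤ L := by rw [hLd]; linarith
    calc c1 / δ = c1 / (δ * κ) * κ := by field_simp
      _ ≤ L * κ := mul_le_mul_of_nonneg_right h1 hκ.le
  have hLκ : 0 < L * κ := mul_pos hL hκ
  have hB := rl hm hC hG hE L hL
  have hEr := err_tendsto C T L hL
  rw [Metric.tendsto_atTop] at hB hEr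
  obtain ⟨U1, hU1⟩ := hB (L * κ * (η / 8)) (by positivity)
  obtain ⟨U2, hU2⟩ := hEr (L * κ * (η / 8)) (by positivity)
  refine ⟨max T (max U1 U2), fun u hu => ?_⟩
  have hu1 : T ≤ u := (le_max_left _ _).trans hu
  have hu2 : U1 ≤ u := ((le_max_left _ _).trans (le_max_right _ _)).trans hu
  have hu3 : U2 ≤ u := ((le_max_right _ _).trans (le_max_right _ _)).trans hu
  have h1 := hU1 u hu2
  have h2 := hU2 u hu3
  have h3 := compare hm hC (by positivity : 0 < η / 4) hδ hTT hsl L u hL hu1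
  rw [Real.dist_eq, sub_zero] at h1 h2
  rw [Real.dist_eq, sub_zero]
  have h4 := lt_of_abs_lt h2
  have h5 : |L * κ * S u| ≤ |L * κ * S u - ∫ t in Ioi (0 : ℝ), S t * ker L u t| +
      |∫ t in Ioi (0 : ℝ), S t * ker L u t| := by
    have := abs_add_le (L * κ * S u - ∫ t in Ioi (0 : ℝ), S t * ker L u t)
      (∫ t in Ioi (0 : ℝ), S t * ker L u t)
    simpa using this
  have h6 : η / 4 * (L * κ + c1 / δ) ≤ η / 4 * (L * κ + L * κ) :=
    mul_le_mul_of_nonneg_left (by linarith) (by positivity)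
  have h7 : |L * κ * S u| < L * κ * η := by
    calc |L * κ * S u| < η / 4 * (L * κ + L * κ) + L * κ * (η / 8) + L * κ * (η / 8) := by
          linarith
      _ ≤ L * κ * η := by nlinarith
  rw [abs_mul, abs_of_pos hLκ] at h7
  exact lt_of_mul_lt_mul_left h7 hLκ.le

end Pool.Agent.NH98.RS2
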