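import Mathlib

/-! Statements of project RS2, analytic part. -/

set_option autoImplicit false

namespace Pool.Agent.NH98.RS2

open MeasureTheory Filter Topology

/-- integrals which depend analytically on a parameter -/
def S_par : Prop := ∀ (α : Type) [MeasurableSpace α] (μ : Measure α) (U : Set ℂ) (F : ℂ → α → ℂ),
  IsOpen U → (∀ x, DifferentiableOn ℂ (fun s => F s x) U) →
  (∀ s ∈ U, AEStronglyMeasurable (F s) μ) →
  (∀ s ∈ U, ∃ r > 0, ∃ g : α → ℝ, Integrable g μ ∧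
    ∀ z ∈ U, dist z s < r → ∀ x, ‖F z x‖ ≤ g x) →
  DifferentiableOn ℂ (fun s => ∫ x, F s x ∂μ) U

/-- the Tauberian theorem of Ingham and Karamata for slowly oscillating functions -/
def S_taub : Prop := ∀ (S : ℝ → ℝ) (C : ℝ) (G : ℂ → ℂ), Measurable S →
  (∀ t, 0 ≤ t → |S t| ≤ C * (1 + t)) →
  (∀ ε > 0, ∃ δ > 0, ∃ T, ∀ t u, T ≤ t → 0 ≤ u → u ≤ δ → |S (t + u) - S t| ≤ ε) →
  ContinuousOn G {z | 0 ≤ z.re} →
  (∀ z : ℂ, 0 < z.re → ∫ t in Set.Ioi (0 : ℝ), (S t : ℂ) * Complex.exp (-(z * t)) = G z) →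
  Tendsto S atTop (𝓝 0)

/-- from the Dirichlet series to the sum over the primes, with convergence -/
def S_mert : Prop := ∀ (a : ℕ → ℝ) (A : ℂ → ℂ), (∀ p, 0 ≤ a p) → (∀ p, a p ≤ 4) →
  (∀ z : ℂ, 1 ≤ z.re → AnalyticAt ℂ A z) →
  (∀ s : ℂ, 1 < s.re → ∑' p : Nat.Primes, ((a p * Real.log p : ℝ) : ℂ) * (p : ℂ) ^ (-s) =
    1 / (s - 1) + A s) →
  ∃ c : ℝ, Tendsto (fun x : ℝ => ∑ p ∈ (Finset.range (⌊x⌋₊ + 1)).filter Nat.Prime,
    a p * Real.log p / p - Real.log x) atTop (𝓝 c)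

/-- the sum over the primes between `√x` and `x` -/
def S_half : Prop := ∀ (a : ℕ → ℝ) (c : ℝ),
  Tendsto (fun x : ℝ => ∑ p ∈ (Finset.range (⌊x⌋₊ + 1)).filter Nat.Prime,
    a p * Real.log p / p - Real.log x) atTop (𝓝 c) →
  Tendsto (fun x : ℝ => Real.log x * (∑ p ∈ (Finset.range (⌊x⌋₊ + 1)).filter
    (fun p : ℕ => p.Prime ∧ √x < (p : ℝ)), a p / p - Real.log 2)) atTop (𝓝 0)

/-- the logarithmic derivative of the zeta function over the primes -/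
def S_zeta : Prop := ∃ A : ℂ → ℂ, (∀ z : ℂ, 1 ≤ z.re → AnalyticAt ℂ A z) ∧
  ∀ s : ℂ, 1 < s.re → ∑' p : Nat.Primes, ((1 * Real.log p : ℝ) : ℂ) * (p : ℂ) ^ (-s) =
    1 / (s - 1) + A s

end Pool.Agent.NH98.RS2
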