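import Pool.Agent.NH98.RS2.Stm
import Pool.Agent.NH98.RS2.StmT
import Pool.Agent.TH941.RS

/-! Continuation of the Rankin-Selberg series to `Re s > 1/2`, from the lattice sums. -/

set_option autoImplicit false

namespace Pool.Agent.NH98.RS2

open MeasureTheory Filter Topology UpperHalfPlane
open Pool.Agent.W165.RS (EE ac FF GG phi)
open Pool.Agent.Y722.RS (S2 Sm)
open Pool.Agent.TH941 (gg)
open Pool.Agent.Y149.CR (zc LC Ga SC)

namespace Cont

variable {N : ℕ} [NeZero N]

theorem gg_zero (f : S2 N) : gg f 0 = 0 := by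
  unfold gg
  simp

theorem gg_nonneg' (f : S2 N) (n : ℕ) : 0 ≤ gg f n := by
  unfold gg
  positivity

theorem SC_diff (f : S2 N) (hS : ∀ s : ℝ, 1 < s → Summable fun n : ℕ => gg f n * (n : ℝ) ^ (-s)) :
    DifferentiableOn ℂ (SC f) {s : ℂ | 1 < s.re} := by
  intro s0 hs0
  have hs0' : 1 < s0.re := hs0
  set t : ℝ := (1 + s0.re) / 2 with ht
  have ht1 : 1 < t := by rw [ht]; linarith
  have ht2 : t < s0.re := by rw [ht]; linarith
  have hV : IsOpen {s : ℂ | t < s.re} := isOpen_lt continuous_const Complex.continuous_re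
  have hd : DifferentiableOn ℂ (fun s : ℂ => ∑' n : ℕ, (gg f n : ℂ) * (n : ℂ) ^ (-s))
      {s : ℂ | t < s.re} := by
    refine Complex.differentiableOn_tsum_of_summable_norm (hS t ht1) (fun n => ?_) hV
      (fun n w hw => ?_)
    · rcases Nat.eq_zero_or_pos n with rfl | hn
      · rw [gg_zero]
        simp only [Complex.ofReal_zero, zero_mul]
        exact differentiableOn_const _
      · have hn0 : (n : ℂ) ≠ 0 := by exact_mod_cast hn.ne'
        intro w _
        apply DifferentiableAt.differentiableWithinAt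
        apply DifferentiableAt.const_mul
        exact (differentiableAt_id.neg).const_cpow (Or.inl hn0)
    · have hw' : t < w.re := hw
      rcases Nat.eq_zero_or_pos n with rfl | hn
      · rw [gg_zero]
        simp
      · rw [norm_mul, Complex.norm_real, Real.norm_eq_abs, abs_of_nonneg (gg_nonneg' f n)]
        refine mul_le_mul_of_nonneg_left ?_ (gg_nonneg' f n)
        rw [Complex.norm_natCast_cpow_of_pos hn]
        apply Real.rpow_le_rpow_of_exponent_le
        · exact_mod_cast hn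
        · rw [Complex.neg_re]; linarith
  exact ((hd s0 ht2).differentiableAt (hV.mem_nhds ht2)).differentiableWithinAt

theorem SC_real (f : S2 N) (s : ℝ) :
    SC f (s : ℂ) = ((∑' n : ℕ, gg f n * (n : ℝ) ^ (-s) : ℝ) : ℂ) := by
  unfold SC
  rw [Complex.ofReal_tsum]
  refine tsum_congr fun n => ?_
  rw [Complex.ofReal_mul, Complex.ofReal_cpow (Nat.cast_nonneg n)]
  push_cast
  rfl

end Cont

open Cont in
theorem t_cont (h1 : S_par) (h2 : S_lat) (h3 : S_wt) (h4 : S_unf) (h5 : S_fac) : S_cont := by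
  intro N _ f hf
  obtain ⟨hSm, c, hc, hlim⟩ := Pool.Agent.TH941.rs_form f hf
  obtain ⟨Zt, hZ1, hZ2, hZ3, hZ4⟩ := h2 N
  obtain ⟨hL1, hL2, hG1, hG2⟩ := h5 N
  set U : Set ℂ := {s : ℂ | 1 / 2 < s.re ∧ s.re < 2} with hU
  have hUo : IsOpen U := (isOpen_lt continuous_const Complex.continuous_re).inter
    (isOpen_lt Complex.continuous_re continuous_const)
  -- the integrals
  have hint : ∀ ab : ZMod N × ZMod N, DifferentiableOn ℂ
      (fun s => ∫ z : ℍ, ((wt f ab z : ℝ) : ℂ) * Zt ab.1 ab.2 z s) U := by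
    intro ab
    obtain ⟨hw1, hw2, hw3, -⟩ := h3 N f ab
    have hw0 : ∀ z, 0 ≤ wt f ab z := fun z => ENNReal.toReal_nonneg
    refine h1 ℍ volume U (fun s z => ((wt f ab z : ℝ) : ℂ) * Zt ab.1 ab.2 z s) hUo ?_ ?_ ?_
    · intro x
      exact (hZ1 ab.1 ab.2 x).const_mul _
    · intro s hs
      exact ((Complex.measurable_ofReal.comp hw1).mul
        (hZ2 ab.1 ab.2 s hs.1 hs.2)).aestronglyMeasurable
    · intro s hs
      obtain ⟨r, hr, C, hC⟩ := hZ4 s hs.1 hs.2
      refine ⟨r, hr, fun z => |C| * (wt f ab z * z.im ^ 2), hw2.const_mul _, ?_⟩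
      intro z hz hdist x
      have hpos : 0 ≤ |C| * (wt f ab x * x.im ^ 2) :=
        mul_nonneg (abs_nonneg _) (mul_nonneg (hw0 x) (by positivity))
      by_cases hx : x.im < 1 / 2
      · simp only [hw3 x hx, Complex.ofReal_zero, zero_mul, norm_zero, mul_zero, le_refl]
      · rw [norm_mul, Complex.norm_real, Real.norm_eq_abs, abs_of_nonneg (hw0 x)]
        have h6 := hC ab.1 ab.2 x z (not_lt.mp hx) hz.1 hz.2 hdist
        have h7 : C * x.im ^ 2 ≤ |C| * x.im ^ 2 :=
          mul_le_mul_of_nonneg_right (le_abs_self C) (by positivity)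
        calc wt f ab x * ‖Zt ab.1 ab.2 x z‖ ≤ wt f ab x * (|C| * x.im ^ 2) :=
              mul_le_mul_of_nonneg_left (h6.trans h7) (hw0 x)
          _ = |C| * (wt f ab x * x.im ^ 2) := by ring
  set E0 : ℂ → ℂ := fun s => ∑ ab : ZMod N × ZMod N,
    ∫ z : ℍ, ((wt f ab z : ℝ) : ℂ) * Zt ab.1 ab.2 z s with hE0
  have hE0d : DifferentiableOn ℂ E0 U := by
    rw [hE0]
    exact DifferentiableOn.fun_sum fun ab _ => hint ab
  have hE0v : ∀ s : ℂ, 1 < s.re → s.re < 2 → E0 s = (s - 1) * (LC N s * (Ga s * SC f s)) := by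
    intro s hs1 hs2
    rw [h4 N f hSm s hs1 hs2, Finset.mul_sum, hE0]
    refine Finset.sum_congr rfl fun ab _ => ?_
    rw [← integral_const_mul]
    refine integral_congr_ae (Eventually.of_forall fun z => ?_)
    simp only []
    rw [hZ3 ab.1 ab.2 z s hs1 hs2]
    ring
  set E1 : ℂ → ℂ := fun s => E0 s / (LC N s * Ga s) with hE1
  have hsub : U ⊆ {s : ℂ | 1 / 2 < s.re} := fun s hs => hs.1
  have hE1d : DifferentiableOn ℂ E1 U := by
    rw [hE1]
    refine hE0d.div ((hL1.mono hsub).mul (hG1.mono hsub)) fun s hs => ?_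
    exact mul_ne_zero (hL2 s hs.1) (hG2 s hs.1)
  have hE1v : ∀ s : ℂ, 1 < s.re → s.re < 2 → E1 s = (s - 1) * SC f s := by
    intro s hs1 hs2
    have a1 := hL2 s (by linarith)
    have a2 := hG2 s (by linarith)
    rw [hE1]
    simp only []
    rw [hE0v s hs1 hs2, div_eq_iff (mul_ne_zero a1 a2)]
    ring
  have hSd : DifferentiableOn ℂ (fun s => (s - 1) * SC f s) {s : ℂ | 1 < s.re} :=
    ((differentiableOn_id.sub_const 1)).mul (SC_diff f hSm)
  have hEv : ∀ s : ℂ, 1 < s.re →
      (if s.re < 3 / 2 then E1 s else (s - 1) * SC f s) = (s - 1) * SC f s := by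
    intro s hs
    split_ifs with h
    · exact hE1v s hs (by linarith)
    · rfl
  have hop : IsOpen {s : ℂ | 1 < s.re} := isOpen_lt continuous_const Complex.continuous_re
  have hop2 : IsOpen {s : ℂ | s.re < 3 / 2} := isOpen_lt Complex.continuous_re continuous_const
  have hdiffE : DifferentiableOn ℂ (fun s : ℂ => if s.re < 3 / 2 then E1 s else (s - 1) * SC f s)
      {s : ℂ | 1 / 2 < s.re} := by
    intro s hs
    have hs' : 1 / 2 < s.re := hs
    apply DifferentiableAt.differentiableWithinAt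
    by_cases h : s.re < 3 / 2
    · have hd : DifferentiableAt ℂ E1 s :=
        (hE1d s ⟨hs', by linarith⟩).differentiableAt (hUo.mem_nhds ⟨hs', by linarith⟩)
      refine hd.congr_of_eventuallyEq ?_
      filter_upwards [hop2.mem_nhds h] with t ht
      exact if_pos ht
    · have h1s : 1 < s.re := by linarith [not_lt.mp h]
      have hd : DifferentiableAt ℂ (fun s => (s - 1) * SC f s) s :=
        (hSd s h1s).differentiableAt (hop.mem_nhds h1s)
      refine hd.congr_of_eventuallyEq ?_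
      filter_upwards [hop.mem_nhds h1s] with t ht
      exact hEv t ht
  refine ⟨_, hdiffE, hEv, ?_⟩
  -- the value at one
  have hopE : IsOpen {s : ℂ | 1 / 2 < s.re} := isOpen_lt continuous_const Complex.continuous_re
  have h1mem : (1 : ℂ) ∈ {s : ℂ | 1 / 2 < s.re} := by
    show (1 : ℝ) / 2 < (1 : ℂ).re
    norm_num
  have hcont : ContinuousAt (fun s : ℂ => if s.re < 3 / 2 then E1 s else (s - 1) * SC f s) 1 :=
    ((hdiffE 1 h1mem).differentiableAt (hopE.mem_nhds h1mem)).continuousAt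
  have hof : Tendsto (fun s : ℝ => (s : ℂ)) (𝓝[>] (1 : ℝ)) (𝓝 (1 : ℂ)) := by
    have h := (Complex.continuous_ofReal.tendsto (1 : ℝ)).mono_left
      (nhdsWithin_le_nhds (s := Set.Ioi (1 : ℝ)))
    rwa [Complex.ofReal_one] at h
  have ha := hcont.tendsto.comp hof
  have hb : Tendsto (fun s : ℝ => (((s - 1) * ∑' n : ℕ, gg f n * (n : ℝ) ^ (-s) : ℝ) : ℂ))
      (𝓝[>] (1 : ℝ)) (𝓝 ((c : ℝ) : ℂ)) := (Complex.continuous_ofReal.tendsto c).comp hlim
  have hab : (fun s : ℝ => (((s - 1) * ∑' n : ℕ, gg f n * (n : ℝ) ^ (-s) : ℝ) : ℂ)) =ᶠ[𝓝[>] (1 : ℝ)]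
      ((fun s : ℂ => if s.re < 3 / 2 then E1 s else (s - 1) * SC f s) ∘ fun s : ℝ => (s : ℂ)) := by
    filter_upwards [self_mem_nhdsWithin] with s hs
    have hs' : 1 < ((s : ℝ) : ℂ).re := by rw [Complex.ofReal_re]; exact hs
    rw [Function.comp_apply, hEv _ hs', SC_real]
    push_cast
    ring
  have hfin := tendsto_nhds_unique ha (hb.congr' hab)
  intro h0
  have : ((c : ℝ) : ℂ) = 0 := by rw [← hfin]; exact h0
  exact hc.ne' (by exact_mod_cast this)

end Pool.Agent.NH98.RS2
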