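import Pool.Agent.NH98.RS2.Stm
import Pool.Agent.Y149.CR.Eul

/-! Project RS2, piece 9: the Euler product of the Rankin-Selberg series as an exponential. -/

set_option autoImplicit false

namespace Pool.Agent.NH98.RS2.ExpAux

open Filter Topology

/-- the logarithm of the local factor without its linear term -/
noncomputable def ll (α β : ℂ) (x : ℂ) : ℂ :=
  Complex.log (1 + α * β * x) - Complex.log (1 - α * β * x) - Complex.log (1 - α ^ 2 * x) -
    Complex.log (1 - β ^ 2 * x) - (α + β) ^ 2 * x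

section
variable {α β x : ℂ}

theorem log_bound {u : ℂ} {y r : ℝ} (hr : r < 1) (h1 : ‖u‖ ≤ y) (h2 : y ≤ r) :
    ‖Complex.log (1 + u) - u‖ ≤ y ^ 2 * (1 - r)⁻¹ / 2 := by
  have hu : ‖u‖ < 1 := lt_of_le_of_lt (h1.trans h2) hr
  refine (Complex.norm_log_one_add_sub_self_le hu).trans ?_
  have h3 : (1 - ‖u‖)⁻¹ ≤ (1 - r)⁻¹ := inv_anti₀ (by linarith) (by linarith)
  have h4 : ‖u‖ ^ 2 ≤ y ^ 2 := pow_le_pow_left₀ (norm_nonneg _) h1 2
  have h5 : 0 ≤ (1 - ‖u‖)⁻¹ := inv_nonneg.2 (by linarith)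
  have h6 := mul_le_mul h4 h3 h5 (sq_nonneg _)
  linarith

theorem norm_le₁ (hα : ‖α‖ ≤ 1) (hβ : ‖β‖ ≤ 1) : ‖α * β * x‖ ≤ ‖x‖ := by
  rw [norm_mul, norm_mul]
  have := mul_le_mul hα hβ (norm_nonneg _) zero_le_one
  have h2 := mul_le_mul_of_nonneg_right this (norm_nonneg x)
  simpa using h2

theorem norm_le₂ (hα : ‖α‖ ≤ 1) : ‖α ^ 2 * x‖ ≤ ‖x‖ := by
  rw [pow_two]
  exact norm_le₁ hα hα

theorem ll_bound (hα : ‖α‖ ≤ 1) (hβ : ‖β‖ ≤ 1) {r : ℝ} (hr : r < 1) (hx : ‖x‖ ≤ r) :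
    ‖ll α β x‖ ≤ 2 * (1 - r)⁻¹ * ‖x‖ ^ 2 := by
  have b1 := log_bound hr (norm_le₁ (x := x) hα hβ) hx
  have b2 := log_bound (u := -(α * β * x)) hr (by rw [norm_neg]; exact norm_le₁ hα hβ) hx
  have b3 := log_bound (u := -(α ^ 2 * x)) hr (by rw [norm_neg]; exact norm_le₂ hα) hx
  have b4 := log_bound (u := -(β ^ 2 * x)) hr (by rw [norm_neg]; exact norm_le₂ hβ) hx
  have e : ll α β x = (Complex.log (1 + α * β * x) - α * β * x) -
      (Complex.log (1 + -(α * β * x)) - -(α * β * x)) -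
      (Complex.log (1 + -(α ^ 2 * x)) - -(α ^ 2 * x)) -
      (Complex.log (1 + -(β ^ 2 * x)) - -(β ^ 2 * x)) := by
    unfold ll
    simp only [← sub_eq_add_neg]
    ring
  rw [e]
  refine (norm_sub_le _ _).trans ?_
  have c1 := norm_sub_le (Complex.log (1 + α * β * x) - α * β * x)
    (Complex.log (1 + -(α * β * x)) - -(α * β * x))
  have c2 := norm_sub_le ((Complex.log (1 + α * β * x) - α * β * x) -
    (Complex.log (1 + -(α * β * x)) - -(α * β * x)))
    (Complex.log (1 + -(α ^ 2 * x)) - -(α ^ 2 * x))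
  linarith

theorem slit {u : ℂ} (hu : ‖u‖ < 1) : 1 + u ∈ Complex.slitPlane := by
  left
  have := (abs_le.1 (Complex.abs_re_le_norm u)).1
  simp only [Complex.add_re, Complex.one_re]
  linarith

theorem slit' {u : ℂ} (hu : ‖u‖ < 1) : 1 - u ∈ Complex.slitPlane := by
  rw [sub_eq_add_neg]
  exact slit (by rwa [norm_neg])

theorem ll_diff (hα : ‖α‖ ≤ 1) (hβ : ‖β‖ ≤ 1) (hx : ‖x‖ < 1) : DifferentiableAt ℂ (ll α β) x := by
  have h1 := slit (lt_of_le_of_lt (norm_le₁ (x := x) hα hβ) hx)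
  have h2 := slit' (lt_of_le_of_lt (norm_le₁ (x := x) hα hβ) hx)
  have h3 := slit' (lt_of_le_of_lt (norm_le₂ (x := x) hα) hx)
  have h4 := slit' (lt_of_le_of_lt (norm_le₂ (x := x) hβ) hx)
  have d1 : DifferentiableAt ℂ (fun x => Complex.log (1 + α * β * x)) x :=
    DifferentiableAt.clog (by fun_prop) h1
  have d2 : DifferentiableAt ℂ (fun x => Complex.log (1 - α * β * x)) x :=
    DifferentiableAt.clog (by fun_prop) h2
  have d3 : DifferentiableAt ℂ (fun x => Complex.log (1 - α ^ 2 * x)) x :=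
    DifferentiableAt.clog (by fun_prop) h3
  have d4 : DifferentiableAt ℂ (fun x => Complex.log (1 - β ^ 2 * x)) x :=
    DifferentiableAt.clog (by fun_prop) h4
  have d5 : DifferentiableAt ℂ (fun x => (α + β) ^ 2 * x) x := by fun_prop
  exact (((d1.sub d2).sub d3).sub d4).sub d5

theorem ll_exp (hα : ‖α‖ ≤ 1) (hβ : ‖β‖ ≤ 1) (hx : ‖x‖ < 1) {S t e : ℂ} (ht : α + β = t)
    (he : α * β = e) (hS : (1 - t * t * x + (e * t ^ 2 + e * t ^ 2 - 2 * e * e) * x ^ 2 -
      e * e * t * t * x ^ 3 + e ^ 2 * e ^ 2 * x ^ 4) * S = 1 - e * e * x ^ 2) :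
    Complex.exp (t ^ 2 * x + ll α β x) = S := by
  have h1 := Complex.slitPlane_ne_zero (slit (lt_of_le_of_lt (norm_le₁ (x := x) hα hβ) hx))
  have h2 := Complex.slitPlane_ne_zero (slit' (lt_of_le_of_lt (norm_le₁ (x := x) hα hβ) hx))
  have h3 := Complex.slitPlane_ne_zero (slit' (lt_of_le_of_lt (norm_le₂ (x := x) hα) hx))
  have h4 := Complex.slitPlane_ne_zero (slit' (lt_of_le_of_lt (norm_le₂ (x := x) hβ) hx))
  have e1 : t ^ 2 * x + ll α β x = Complex.log (1 + α * β * x) - Complex.log (1 - α * β * x) -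
      Complex.log (1 - α ^ 2 * x) - Complex.log (1 - β ^ 2 * x) := by
    unfold ll
    rw [← ht]
    ring
  rw [e1, Complex.exp_sub, Complex.exp_sub, Complex.exp_sub, Complex.exp_log h1,
    Complex.exp_log h2, Complex.exp_log h3, Complex.exp_log h4, div_div, div_div,
    div_eq_iff (mul_ne_zero h2 (mul_ne_zero h3 h4))]
  subst ht he
  have h5 : (1 - α * β * x) * (S * ((1 - α * β * x) * (1 - α ^ 2 * x) * (1 - β ^ 2 * x)) -
      (1 + α * β * x)) = 0 := by
    linear_combination hS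
  rcases mul_eq_zero.1 h5 with h6 | h6
  · exact absurd h6 h2
  · linear_combination -h6

end


open UpperHalfPlane CongruenceSubgroup
open scoped MatrixGroups ModularForm
open Pool.Agent.W165.RS (ac)
open Pool.Agent.TH941 (gg Hecke exists_roots' rpow_half)
open Pool.Agent.Y722.RS (S2 rc rc_eq loc_of tt tt_le Loc gg_eq)
open Pool.Agent.Y149.CR (SC CC LF S S_closed hasProd_CC norm_p)

section
variable {N : ℕ} [NeZero N] {f : S2 N}

/-- the parameters of the local factor -/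
theorem data (hf : Hecke f) (p : Nat.Primes) : ∃ (α β : ℂ) (e : ℝ), ‖α‖ ≤ 1 ∧ ‖β‖ ≤ 1 ∧
    α + β = (tt f p : ℂ) ∧ α * β = (e : ℂ) ∧
    Loc (fun k => rc f ((p : ℕ) ^ k) / Real.sqrt (p : ℕ) ^ k) (tt f p) e := by
  have L := loc_of hf p.2
  have hp0 : (0 : ℝ) < (p : ℕ) := by exact_mod_cast p.2.pos
  by_cases h : (p : ℕ) ∣ N
  · simp only [if_pos h] at L
    refine ⟨(tt f p : ℂ), 0, 0, ?_, by simp, by simp, by simp, L⟩
    rw [Complex.norm_real, Real.norm_eq_abs]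
    unfold tt
    have h1 : |rc f p| ≤ 1 := by
      have h2 : |rc f p| = ‖ac f p‖ := by
        rw [rc_eq hf.real, Complex.norm_real, Real.norm_eq_abs]
      rw [h2]
      exact hf.bad p p.2 h
    have h3 : (1 : ℝ) ≤ Real.sqrt (p : ℕ) := Real.one_le_sqrt.2 (by exact_mod_cast p.2.one_le)
    rw [abs_div, abs_of_pos (by linarith : 0 < Real.sqrt (p : ℕ)), div_le_one (by linarith)]
    linarith
  · simp only [if_neg h] at L
    have h1 := tt_le hf p.2
    obtain ⟨α, β, h2, h3, h4, h5⟩ := exists_roots' (a := tt f p) (q := 1) one_pos (by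
      rw [Real.sqrt_one, mul_one]; exact h1)
    rw [Real.sqrt_one] at h2 h3
    exact ⟨α, β, 1, h2.le, h3.le, h4, h5, L⟩

theorem gg_tt (hf : Hecke f) (p : Nat.Primes) : gg f p = tt f p ^ 2 := by
  rw [gg_eq hf.real, tt, div_pow, Real.sq_sqrt (Nat.cast_nonneg _)]

end

theorem half_bound {σ : ℝ} (hσ : 1 / 2 ≤ σ) (p : Nat.Primes) :
    ((p : ℕ) : ℝ) ^ (-σ) ≤ (2 : ℝ) ^ (-(1 / 2) : ℝ) := by
  have hp2 : (2 : ℝ) ≤ (p : ℕ) := by exact_mod_cast p.2.two_le
  calc ((p : ℕ) : ℝ) ^ (-σ) ≤ ((p : ℕ) : ℝ) ^ (-(1 / 2) : ℝ) :=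
        Real.rpow_le_rpow_of_exponent_le (by linarith) (by linarith)
    _ ≤ (2 : ℝ) ^ (-(1 / 2) : ℝ) :=
        Real.rpow_le_rpow_of_nonpos (by norm_num) hp2 (by norm_num)

theorem two_lt : (2 : ℝ) ^ (-(1 / 2) : ℝ) < 1 :=
  Real.rpow_lt_one_of_one_lt_of_neg (by norm_num) (by norm_num)

theorem term_bound {σ₀ : ℝ} (h0 : 1 / 2 < σ₀) {α β : ℂ} (hα : ‖α‖ ≤ 1) (hβ : ‖β‖ ≤ 1)
    (p : Nat.Primes) {s : ℂ} (hs : σ₀ < s.re) :
    ‖ll α β (((p : ℕ) : ℂ) ^ (-s))‖ ≤
      2 * (1 - (2 : ℝ) ^ (-(1 / 2) : ℝ))⁻¹ * ((p : ℕ) : ℝ) ^ (-(2 * σ₀)) := by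
  have h1 : ‖((p : ℕ) : ℂ) ^ (-s)‖ ≤ (2 : ℝ) ^ (-(1 / 2) : ℝ) := by
    rw [norm_p]
    exact half_bound (by linarith) p
  refine (ll_bound hα hβ two_lt h1).trans ?_
  have h2 : 0 ≤ 2 * (1 - (2 : ℝ) ^ (-(1 / 2) : ℝ))⁻¹ := by
    have := two_lt
    have h3 : 0 ≤ (1 - (2 : ℝ) ^ (-(1 / 2) : ℝ))⁻¹ := inv_nonneg.2 (by linarith)
    linarith
  refine mul_le_mul_of_nonneg_left ?_ h2
  have hp1 : (1 : ℝ) ≤ (p : ℕ) := by exact_mod_cast p.2.one_le
  rw [norm_p, ← Real.rpow_natCast, ← Real.rpow_mul (by linarith)]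
  exact Real.rpow_le_rpow_of_exponent_le hp1 (by push_cast; linarith)

end Pool.Agent.NH98.RS2.ExpAux

namespace Pool.Agent.NH98.RS2

open Filter Topology
open Pool.Agent.TH941 (gg Hecke rpow_half)
open Pool.Agent.Y722.RS (S2 rc tt tt_le gg_eq Loc)
open Pool.Agent.Y149.CR (SC CC LF S S_closed hasProd_CC norm_p)
open ExpAux

/-- **The Euler product as an exponential.** -/
theorem t_exp : S_exp := by
  intro N _ f hf
  choose α β e hα hβ hab he hL using data hf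
  refine ⟨fun s => ∑' p : Nat.Primes, ll (α p) (β p) (((p : ℕ) : ℂ) ^ (-s)), ?_, ?_⟩
  · intro s hs
    have hs' : 1 / 2 < s.re := hs
    obtain ⟨σ₀, h1, h2⟩ := exists_between hs'
    have hopen : IsOpen {z : ℂ | σ₀ < z.re} := isOpen_lt continuous_const Complex.continuous_re
    have hsum : Summable fun p : Nat.Primes =>
        2 * (1 - (2 : ℝ) ^ (-(1 / 2) : ℝ))⁻¹ * ((p : ℕ) : ℝ) ^ (-(2 * σ₀)) :=
      (Nat.Primes.summable_rpow.2 (by linarith)).mul_left _
    have hd := Complex.differentiableOn_tsum_of_summable_norm (F := fun (p : Nat.Primes) (z : ℂ) =>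
      ll (α p) (β p) (((p : ℕ) : ℂ) ^ (-z))) hsum (fun p z hz => by
        have hz' : σ₀ < z.re := hz
        have hx : ‖((p : ℕ) : ℂ) ^ (-z)‖ < 1 := by
          rw [norm_p]
          exact lt_of_le_of_lt (half_bound (by linarith) p) two_lt
        have h3 : DifferentiableAt ℂ (fun z : ℂ => ((p : ℕ) : ℂ) ^ (-z)) z :=
          DifferentiableAt.const_cpow (by fun_prop) (Or.inl (by exact_mod_cast p.2.ne_zero))
        exact (DifferentiableAt.comp z (ll_diff (hα p) (hβ p) hx) h3).differentiableWithinAt)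
      hopen (fun p z hz => term_bound h1 (hα p) (hβ p) p hz)
    exact ((hd s h2).differentiableAt (hopen.mem_nhds h2)).differentiableWithinAt
  · intro s hs
    have hgg : ∀ p : Nat.Primes, (gg f p : ℂ) = (tt f p : ℂ) ^ 2 := fun p => by
      rw [gg_tt hf p]
      push_cast
      rfl
    have hs1 : Summable fun p : Nat.Primes => (gg f p : ℂ) * (p : ℂ) ^ (-s) := by
      refine Summable.of_norm_bounded (g := fun p : Nat.Primes => 4 * ((p : ℕ) : ℝ) ^ (-s.re))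
        ((Nat.Primes.summable_rpow.2 (by linarith)).mul_left 4) fun p => ?_
      rw [norm_mul, norm_p, gg_tt hf p, Complex.norm_real, Real.norm_eq_abs, abs_pow]
      refine mul_le_mul_of_nonneg_right ?_ (by positivity)
      have := tt_le hf p.2
      have h0 := abs_nonneg (tt f p)
      nlinarith
    have hs2 : Summable fun p : Nat.Primes => ll (α p) (β p) (((p : ℕ) : ℂ) ^ (-s)) := by
      refine Summable.of_norm_bounded (g := fun p : Nat.Primes =>
        2 * (1 - (2 : ℝ) ^ (-(1 / 2) : ℝ))⁻¹ * ((p : ℕ) : ℝ) ^ (-(2 * (1 : ℝ))))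
        ((Nat.Primes.summable_rpow.2 (by norm_num)).mul_left _) fun p => ?_
      exact term_bound (by norm_num) (hα p) (hβ p) p hs
    have h1 := (hs1.add hs2).hasSum.cexp
    rw [hs1.tsum_add hs2] at h1
    have h2 := hasProd_CC hf hf hs
    have h3 : SC f s = CC (rc f) (rc f) s := by
      unfold SC CC
      refine tsum_congr fun n => ?_
      rw [gg_eq hf.real n, pow_two]
    rw [h3]
    refine h2.unique (h1.congr_fun fun p => ?_)
    obtain ⟨_, h4, _⟩ := rpow_half p.2 hs.le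
    have hx : ‖((p : ℕ) : ℂ) ^ (-s)‖ ≤ 1 / 2 := by rw [norm_p]; exact h4
    have h5 := S_closed (hL p) (hL p) hx
    have h6 := ll_exp (hα p) (hβ p) (lt_of_le_of_lt hx (by norm_num)) (hab p) (he p) h5
    simp only [Function.comp]
    rw [hgg p]
    exact h6.symm

end Pool.Agent.NH98.RS2
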