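import Pool.Agent.NH98.RS2.Stm
import Mathlib.NumberTheory.LSeries.Nonvanishing

/-! # The factors of the Rankin-Selberg identity -/

set_option autoImplicit false

namespace Pool.Agent.NH98.RS2.Fac

open Pool.Agent.W165.RS (EE)
open Pool.Agent.Y149.CR (LC Ga)

theorem LC_eq (N : ℕ) [NeZero N] (s : ℂ) :
    LC N s = LSeries (fun n => (1 : DirichletCharacter ℂ N) n) (2 * s) := by
  unfold LC LSeries
  have h := tsum_subtype (f := fun n : ℕ => (n : ℂ) ^ (-(2 * s))) {e : ℕ | 0 < e ∧ e.Coprime N}
  refine Eq.trans h (tsum_congr fun n => ?_)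
  rcases Nat.eq_zero_or_pos n with hn | hn
  · subst hn
    rw [LSeries.term_zero, Set.indicator_of_notMem (by simp)]
  · rw [LSeries.term_of_ne_zero hn.ne']
    by_cases hc : n.Coprime N
    · rw [Set.indicator_of_mem (show n ∈ {e : ℕ | 0 < e ∧ e.Coprime N} from ⟨hn, hc⟩),
        MulChar.one_apply ((ZMod.isUnit_iff_coprime n N).2 hc), Complex.cpow_neg, one_div]
    · rw [Set.indicator_of_notMem (fun h : n ∈ {e : ℕ | 0 < e ∧ e.Coprime N} => hc h.2),
        MulChar.map_nonunit _ (fun h => hc ((ZMod.isUnit_iff_coprime n N).1 h)), zero_div]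

theorem re2 {s : ℂ} (hs : 1 / 2 < s.re) : 1 < (2 * s).re := by
  simp
  linarith

theorem LC_L (N : ℕ) [NeZero N] {s : ℂ} (hs : 1 / 2 < s.re) :
    LC N s = DirichletCharacter.LFunction (1 : DirichletCharacter ℂ N) (2 * s) := by
  rw [LC_eq, DirichletCharacter.LFunction_eq_LSeries _ (re2 hs)]

end Pool.Agent.NH98.RS2.Fac

namespace Pool.Agent.NH98.RS2

open Pool.Agent.Y149.CR (LC Ga)

theorem t_fac : S_fac := by
  intro N _
  have ho : IsOpen {s : ℂ | 1 / 2 < s.re} := isOpen_lt continuous_const Complex.continuous_re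
  refine ⟨?_, ?_, ?_, ?_⟩
  · have h : DifferentiableOn ℂ (fun s => DirichletCharacter.LFunction (1 : DirichletCharacter ℂ N) (2 * s))
        {s : ℂ | 1 / 2 < s.re} := by
      intro s hs
      have h1 : DifferentiableAt ℂ (DirichletCharacter.LFunction (1 : DirichletCharacter ℂ N)) (2 * s) := by
        refine DirichletCharacter.differentiableAt_LFunction _ _ (Or.inl fun h => ?_)
        have := Fac.re2 hs
        rw [h] at this
        simp at this
      exact (h1.comp s ((differentiableAt_id).const_mul 2)).differentiableWithinAt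
    exact h.congr fun s hs => Fac.LC_L N hs
  · intro s hs
    rw [Fac.LC_eq]
    exact DirichletCharacter.LSeries_ne_zero_of_one_lt_re _ (Fac.re2 hs)
  · intro s hs
    have hs' : (1 : ℝ) / 2 < s.re := hs
    have hpi : (((4 * Real.pi : ℝ)) : ℂ) ≠ 0 := by
      exact_mod_cast (by positivity : (4 * Real.pi : ℝ) ≠ 0)
    have h1 : DifferentiableAt ℂ (fun s : ℂ => (((4 * Real.pi : ℝ)) : ℂ) ^ (-(s + 1))) s :=
      ((differentiableAt_id.add_const 1).neg).const_cpow (Or.inl hpi)
    have h2 : DifferentiableAt ℂ (fun s : ℂ => Complex.Gamma (s + 1)) s := by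
      refine DifferentiableAt.comp s (Complex.differentiableAt_Gamma _ fun m h => ?_)
        (differentiableAt_id.add_const 1)
      have := congrArg Complex.re h
      simp at this
      have hm : (0 : ℝ) ≤ m := Nat.cast_nonneg m
      linarith
    exact (h1.mul h2).differentiableWithinAt
  · intro s hs
    unfold Ga
    refine mul_ne_zero ?_ (Complex.Gamma_ne_zero_of_re_pos (by simp; linarith))
    rw [Complex.cpow_def_of_ne_zero (by exact_mod_cast (by positivity : (4 * Real.pi : ℝ) ≠ 0))]
    exact Complex.exp_ne_zero _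

end Pool.Agent.NH98.RS2
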