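import Pool.Agent.NH98.RS2.StmT

/-!
Project RS2, job RS2-13 (helper17): the sum over the primes between `√x` and `x`.
-/

set_option autoImplicit false

namespace Pool.Agent.NH98.RS2

open MeasureTheory Filter Topology

namespace Half

/-- the derivative of `1 / log` -/
noncomputable def dl (t : ℝ) : ℝ := -(t⁻¹) / (Real.log t)^2

theorem dl_deriv {t : ℝ} (ht : 1 < t) : HasDerivAt (fun u => (Real.log u)⁻¹) (dl t) t := by
  have h0 : t ≠ 0 := by linarith
  have h1 : Real.log t ≠ 0 := (Real.log_pos ht).ne'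
  exact (Real.hasDerivAt_log h0).inv h1

theorem dl_cont {y x : ℝ} (hy : 1 < y) : ContinuousOn dl (Set.Icc y x) := by
  intro t ht
  have h1 : 1 < t := lt_of_lt_of_le hy ht.1
  have h0 : t ≠ 0 := by linarith
  have h2 : Real.log t ≠ 0 := (Real.log_pos h1).ne'
  refine ContinuousAt.continuousWithinAt ?_
  unfold dl
  exact ((continuousAt_id.inv₀ h0).neg).div ((Real.continuousAt_log h0).pow 2) (pow_ne_zero _ h2)

theorem main_deriv {t : ℝ} (ht : 1 < t) (c : ℝ) :
    HasDerivAt (fun u => -Real.log (Real.log u) + c * (Real.log u)⁻¹) (dl t * (Real.log t + c)) t := by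
  have h0 : t ≠ 0 := by linarith
  have h1 : Real.log t ≠ 0 := (Real.log_pos ht).ne'
  have h2 := ((Real.hasDerivAt_log h0).log h1).neg.add ((dl_deriv ht).const_mul c)
  have e : -(t⁻¹ / Real.log t) + c * dl t = dl t * (Real.log t + c) := by
    unfold dl
    field_simp
    ring
  rw [e] at h2
  exact h2

theorem core (b : ℕ → ℝ) (c ε x : ℝ) (hx : 4 ≤ x)
    (hW : ∀ t, √x ≤ t → |∑ k ∈ Finset.Icc 0 ⌊t⌋₊, b k - Real.log t - c| ≤ ε) :
    |Real.log x * (∑ k ∈ Finset.Ioc ⌊√x⌋₊ ⌊x⌋₊, (Real.log k)⁻¹ * b k - Real.log 2)| ≤ 4 * ε := by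
  set y := √x with hy
  have hyy : y * y = x := Real.mul_self_sqrt (by linarith)
  have hy2 : 2 ≤ y := by
    rw [hy]
    exact Real.le_sqrt_of_sq_le (by linarith)
  have hy0 : 0 ≤ y := by linarith
  have hy1 : 1 < y := by linarith
  have hyx : y ≤ x := by nlinarith
  have hx1 : 1 < x := by linarith
  set V : ℝ → ℝ := fun t => ∑ k ∈ Finset.Icc 0 ⌊t⌋₊, b k with hV
  have hd : ∀ t ∈ Set.Icc y x, HasDerivAt (fun u => (Real.log u)⁻¹) (dl t) t := fun t ht =>
    dl_deriv (lt_of_lt_of_le hy1 ht.1)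
  have hdint : IntegrableOn (deriv (fun u => (Real.log u)⁻¹)) (Set.Icc y x) :=
    ((dl_cont hy1).congr (fun t ht => (hd t ht).deriv)).integrableOn_Icc
  have hdl : IntegrableOn dl (Set.Icc y x) := (dl_cont hy1).integrableOn_Icc
  have hA := sum_mul_eq_sub_sub_integral_mul b hy0 hyx (fun t ht => (hd t ht).differentiableAt) hdint
  -- the integral
  have hI : ∫ t in Set.Ioc y x, deriv (fun u => (Real.log u)⁻¹) t * ∑ k ∈ Finset.Icc 0 ⌊t⌋₊, b k =
      ∫ t in Set.Ioc y x, dl t * V t := by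
    refine setIntegral_congr_fun measurableSet_Ioc fun t ht => ?_
    show _ * _ = _ * _
    rw [(hd t ⟨ht.1.le, ht.2⟩).deriv]
  have hVint : IntegrableOn (fun t => dl t * V t) (Set.Icc y x) :=
    integrableOn_mul_sum_Icc b hy0 hdl
  have hMcont : ContinuousOn (fun t => dl t * (Real.log t + c)) (Set.Icc y x) := by
    refine (dl_cont hy1).mul (ContinuousOn.add ?_ continuousOn_const)
    exact Real.continuousOn_log.mono fun t ht => by
      have : 1 < t := lt_of_lt_of_le hy1 ht.1
      exact (by linarith : t ≠ 0)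
  have hMint : IntegrableOn (fun t => dl t * (Real.log t + c)) (Set.Icc y x) :=
    hMcont.integrableOn_Icc
  have hWint : IntegrableOn (fun t => dl t * (V t - Real.log t - c)) (Set.Icc y x) := by
    have h := hVint.sub hMint
    refine h.congr_fun (fun t _ => ?_) measurableSet_Icc
    show dl t * V t - dl t * (Real.log t + c) = _
    ring
  have hI2 : ∫ t in Set.Ioc y x, dl t * V t = (∫ t in y..x, dl t * (Real.log t + c)) +
      ∫ t in y..x, dl t * (V t - Real.log t - c) := by
    rw [intervalIntegral.integral_of_le hyx, intervalIntegral.integral_of_le hyx,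
      ← integral_add (hMint.mono_set Set.Ioc_subset_Icc_self) (hWint.mono_set Set.Ioc_subset_Icc_self)]
    refine setIntegral_congr_fun measurableSet_Ioc fun t _ => ?_
    show dl t * V t = _
    ring
  have hI3 : ∫ t in y..x, dl t * (Real.log t + c) =
      (-Real.log (Real.log x) + c * (Real.log x)⁻¹) - (-Real.log (Real.log y) + c * (Real.log y)⁻¹) := by
    refine intervalIntegral.integral_eq_sub_of_hasDerivAt
      (f := fun u => -Real.log (Real.log u) + c * (Real.log u)⁻¹)
      (f' := fun t => dl t * (Real.log t + c)) (fun t ht => ?_) ?_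
    · rw [Set.uIcc_of_le hyx] at ht
      exact main_deriv (lt_of_lt_of_le hy1 ht.1) c
    · rw [intervalIntegrable_iff_integrableOn_Icc_of_le hyx]
      exact hMint
  have hI4 : ∫ t in y..x, -ε * dl t = -ε * ((Real.log x)⁻¹ - (Real.log y)⁻¹) := by
    rw [intervalIntegral.integral_const_mul]
    congr 1
    refine intervalIntegral.integral_eq_sub_of_hasDerivAt (f := fun u => (Real.log u)⁻¹)
      (f' := dl) (fun t ht => ?_) ?_
    · rw [Set.uIcc_of_le hyx] at ht
      exact hd t ht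
    · rw [intervalIntegrable_iff_integrableOn_Icc_of_le hyx]
      exact hdl
  have hI5 : |∫ t in y..x, dl t * (V t - Real.log t - c)| ≤ -ε * ((Real.log x)⁻¹ - (Real.log y)⁻¹) := by
    rw [← hI4, ← Real.norm_eq_abs]
    refine intervalIntegral.norm_integral_le_of_norm_le hyx (Filter.Eventually.of_forall fun t ht => ?_) ?_
    · have h1 : 1 < t := lt_of_lt_of_le hy1 ht.1.le
      have h2 : dl t ≤ 0 := by
        unfold dl
        refine div_nonpos_of_nonpos_of_nonneg ?_ (sq_nonneg _)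
        have : 0 < t⁻¹ := inv_pos.mpr (by linarith)
        linarith
      rw [norm_mul, Real.norm_eq_abs, Real.norm_eq_abs, abs_of_nonpos h2]
      have h3 := hW t ht.1.le
      have h4 : |V t - Real.log t - c| ≤ ε := h3
      nlinarith
    · rw [intervalIntegrable_iff_integrableOn_Icc_of_le hyx]
      exact hdl.const_mul (-ε)
  -- logarithms
  have hLx : 0 < Real.log x := Real.log_pos hx1
  have hLy : Real.log x = 2 * Real.log y := by
    rw [← hyy, Real.log_mul (by linarith) (by linarith)]; ring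
  have hLy0 : 0 < Real.log y := Real.log_pos hy1
  have hLL : Real.log (Real.log x) = Real.log 2 + Real.log (Real.log y) := by
    rw [hLy, Real.log_mul (by norm_num) hLy0.ne']
  have hWx := hW x hyx
  have hWy := hW y le_rfl
  set I2 := ∫ t in y..x, dl t * (V t - Real.log t - c) with hI2def
  set Wx := ∑ k ∈ Finset.Icc 0 ⌊x⌋₊, b k - Real.log x - c with hWxdef
  set Wy := ∑ k ∈ Finset.Icc 0 ⌊y⌋₊, b k - Real.log y - c with hWydef
  rw [hI, hI2, hI3] at hA
  have hVx : ∑ k ∈ Finset.Icc 0 ⌊x⌋₊, b k = Real.log x + c + Wx := by rw [hWxdef]; ring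
  have hVy : ∑ k ∈ Finset.Icc 0 ⌊y⌋₊, b k = Real.log y + c + Wy := by rw [hWydef]; ring
  rw [hVx, hVy] at hA
  rw [hA]
  have key : Real.log x * ((Real.log x)⁻¹ * (Real.log x + c + Wx) -
      (Real.log y)⁻¹ * (Real.log y + c + Wy) -
      (-Real.log (Real.log x) + c * (Real.log x)⁻¹ - (-Real.log (Real.log y) + c * (Real.log y)⁻¹) + I2) -
      Real.log 2) = Wx - 2 * Wy - Real.log x * I2 := by
    rw [hLL, hLy]
    field_simp
    ring
  rw [key]
  have h5 : |Real.log x * I2| ≤ ε := by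
    rw [abs_mul, abs_of_pos hLx]
    calc Real.log x * |I2| ≤ Real.log x * (-ε * ((Real.log x)⁻¹ - (Real.log y)⁻¹)) :=
          mul_le_mul_of_nonneg_left hI5 hLx.le
      _ = ε := by
          rw [hLy]
          field_simp
          ring
  have h6 := abs_le.mp hWx
  have h7 := abs_le.mp hWy
  have h8 := abs_le.mp h5
  rw [abs_le]
  constructor <;> linarith [h6.1, h6.2, h7.1, h7.2, h8.1, h8.2]

theorem sum_eq (a : ℕ → ℝ) (t : ℝ) :
    ∑ k ∈ Finset.Icc 0 ⌊t⌋₊, (if k.Prime then a k * Real.log k / k else 0) =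
      ∑ p ∈ (Finset.range (⌊t⌋₊ + 1)).filter Nat.Prime, a p * Real.log p / p := by
  rw [Finset.sum_filter, Nat.range_succ_eq_Icc_zero]

theorem sum_eq2 (a : ℕ → ℝ) (x : ℝ) :
    ∑ k ∈ Finset.Ioc ⌊√x⌋₊ ⌊x⌋₊, (Real.log k)⁻¹ * (if k.Prime then a k * Real.log k / k else 0) =
      ∑ p ∈ (Finset.range (⌊x⌋₊ + 1)).filter (fun p : ℕ => p.Prime ∧ √x < (p : ℝ)), a p / p := by
  have h1 : (Finset.range (⌊x⌋₊ + 1)).filter (fun p : ℕ => p.Prime ∧ √x < (p : ℝ)) =
      (Finset.Ioc ⌊√x⌋₊ ⌊x⌋₊).filter Nat.Prime := by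
    ext p
    simp only [Finset.mem_filter, Finset.mem_range, Finset.mem_Ioc]
    rw [Nat.floor_lt (Real.sqrt_nonneg x)]
    constructor
    · rintro ⟨h1, h2, h3⟩
      exact ⟨⟨h3, by omega⟩, h2⟩
    · rintro ⟨⟨h1, h2⟩, h3⟩
      exact ⟨by omega, h3, h1⟩
  rw [h1, Finset.sum_filter]
  refine Finset.sum_congr rfl fun k _ => ?_
  split_ifs with hk
  · have h2 : Real.log k ≠ 0 := (Real.log_pos (by exact_mod_cast hk.one_lt)).ne'
    have h3 : (k:ℝ) ≠ 0 := by exact_mod_cast hk.ne_zero
    field_simp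
  · rw [mul_zero]

end Half

theorem t_half : S_half := by
  intro a c h
  rw [Metric.tendsto_atTop] at h ⊢
  intro ε hε
  obtain ⟨N, hN⟩ := h (ε / 8) (by linarith)
  refine ⟨max 4 ((max N 0)^2), fun x hx => ?_⟩
  have hx4 : 4 ≤ x := (le_max_left _ _).trans hx
  have hxN : (max N 0)^2 ≤ x := (le_max_right _ _).trans hx
  have hsq : N ≤ √x := by
    have h1 : max N 0 ≤ √x := Real.le_sqrt_of_sq_le hxN
    exact (le_max_left _ _).trans h1
  have hcore := Half.core (fun k => if k.Prime then a k * Real.log k / k else 0) c (ε/8) x hx4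
    (fun t ht => by
      have h1 := hN t (hsq.trans ht)
      rw [Real.dist_eq] at h1
      rw [Half.sum_eq]
      exact h1.le)
  rw [Half.sum_eq2] at hcore
  rw [Real.dist_eq, sub_zero]
  linarith

end Pool.Agent.NH98.RS2
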