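import Pool.Agent.NH98.RS2.Stm

/-! Continuation of the lattice sums. -/

set_option autoImplicit false

namespace Pool.Agent.NH98.RS2

namespace LatC

open MeasureTheory Filter Topology UpperHalfPlane CongruenceSubgroup
open scoped ENNReal MatrixGroups Modular ModularForm
open Pool.Agent.W165.RS (EE ac ac_zero FF GG phi qf qf_eq)
open Pool.Agent.Y722.RS (S2 Sm)
open Pool.Agent.TH941 (gg Hecke)
open Pool.Agent.Y149.CR (gc BC zc kk am ind LC Ga SC summable_zc hasSum_am inner_ne inner_eq qf_pos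
  div_cpow_real norm_cpow_real)

noncomputable section

variable {N : ℕ} [NeZero N]

/-- `(z - 1) L(z)`, continued to `z = 1` -/
def Gz (a : ZMod N) : ℂ → ℂ :=
  Function.update (fun z => (z - 1) * ZMod.LFunction (ind a) z) 1 (∑ j, ind a j / N)

theorem Gz_of_ne (a : ZMod N) {z : ℂ} (hz : z ≠ 1) :
    Gz a z = (z - 1) * ZMod.LFunction (ind a) z := by
  unfold Gz
  rw [Function.update_of_ne hz]

theorem differentiable_Gz (a : ZMod N) : Differentiable ℂ (Gz a) := by
  have hev : ∀ z : ℂ, z ≠ 1 → DifferentiableAt ℂ (Gz a) z := by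
    intro z hz
    have h1 : DifferentiableAt ℂ (fun z => (z - 1) * ZMod.LFunction (ind a) z) z :=
      ((differentiableAt_id.sub_const 1)).mul (ZMod.differentiableAt_LFunction (ind a) z (Or.inl hz))
    refine h1.congr_of_eventuallyEq ?_
    filter_upwards [isOpen_ne.mem_nhds hz] with w hw
    exact Gz_of_ne a hw
  intro z
  by_cases hz : z = 1
  · subst hz
    refine (Complex.analyticAt_of_differentiable_on_punctured_nhds_of_continuousAt ?_ ?_).differentiableAt
    · filter_upwards [self_mem_nhdsWithin] with w hw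
      exact hev w hw
    · unfold Gz
      rw [continuousAt_update_same]
      exact ZMod.LFunction_residue_one (ind a)
  · exact hev z hz

/-- `(s - 1) L(2s - 1)` -/
def HL (a : ZMod N) (s : ℂ) : ℂ := Gz a (2 * s - 1) / 2

theorem differentiable_HL (a : ZMod N) : Differentiable ℂ (HL a) := by
  unfold HL
  exact (((differentiable_Gz a).comp ((differentiable_id.const_mul 2).sub_const 1))).div_const 2

theorem HL_eq (a : ZMod N) {s : ℂ} (hs : 1 < s.re) :
    HL a s = (s - 1) * LSeries (fun n : ℕ => ind a (n : ZMod N)) (2 * s - 1) := by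
  have hre : 1 < (2 * s - 1).re := by simp; linarith
  have hne : 2 * s - 1 ≠ 1 := by
    intro h
    rw [h] at hre
    simp at hre
  unfold HL
  rw [Gz_of_ne a hne, ZMod.LFunction_eq_LSeries _ hre]
  ring

/-- the sum over a class -/
def z0 (b : ZMod N) (s : ℂ) : ℂ :=
  ZMod.LFunction (ind b) (2 * s) + ZMod.LFunction (ind (-b)) (2 * s)

theorem z0_diff (b : ZMod N) {s : ℂ} (hs : 1 / 2 < s.re) : DifferentiableAt ℂ (z0 b) s := by
  have hne : 2 * s ≠ 1 := by
    intro h
    have := congrArg Complex.re h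
    simp at this
    linarith
  have h2 : DifferentiableAt ℂ (fun s : ℂ => 2 * s) s := differentiableAt_id.const_mul 2
  unfold z0
  exact ((ZMod.differentiableAt_LFunction (ind b) (2 * s) (Or.inl hne)).comp s h2).add
    ((ZMod.differentiableAt_LFunction (ind (-b)) (2 * s) (Or.inl hne)).comp s h2)

theorem hasSum_z0 (b : ZMod N) {s : ℂ} (hs : 1 / 2 < s.re) :
    HasSum (am b (s + 1 / 2)) (z0 b s) := by
  have h1 : 1 < (s + 1 / 2).re := by
    simp
    linarith
  have h2 := hasSum_am b h1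
  have e : 2 * (s + 1 / 2) - 1 = 2 * s := by ring
  rw [e] at h2
  have hre : 1 < (2 * s).re := by simp; linarith
  unfold z0
  rwa [ZMod.LFunction_eq_LSeries _ hre, ZMod.LFunction_eq_LSeries _ hre]

/-- the term `m = 0` -/
def Z0 (a b : ZMod N) (w : ℍ) (s : ℂ) : ℂ := if a = 0 then (w.im : ℂ) ^ s * z0 b s else 0

theorem inner_Z0 (a b : ZMod N) (w : ℍ) {s : ℂ} (hs : 1 < s.re) :
    ∑' n : ℤ, zc a b w s (0, n) = Z0 a b w s := by
  have hy := w.im_pos
  unfold Z0
  by_cases ha : a = 0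
  · rw [if_pos ha, ← (hasSum_z0 b (s := s) (by linarith)).tsum_eq, ← tsum_mul_left]
    refine tsum_congr fun n => ?_
    unfold zc am
    by_cases h : n ≠ 0 ∧ (n : ZMod N) = b
    · have hp : ((0, n) : ℤ × ℤ) ≠ (0, 0) := by
        intro h'
        exact h.1 (congrArg Prod.snd h')
      rw [if_pos h, if_pos ⟨hp, by rw [ha]; simp, h.2⟩]
      have hq := qf_pos w hp
      simp only
      rw [div_cpow_real hy hq]
      congr 1
      have e1 : qf w 0 n = |(n:ℝ)| ^ 2 := by
        rw [qf_eq]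
        simp
      have hn : (0:ℝ) < |(n:ℝ)| := by
        have := h.1
        positivity
      rw [e1, Pool.Agent.Y149.CR.cpow_exp (by positivity), Pool.Agent.Y149.CR.cpow_exp hn,
        Real.log_pow]
      congr 1
      push_cast
      ring
    · rw [if_neg h, if_neg, mul_zero]
      rintro ⟨h1, -, h3⟩
      refine h ⟨?_, h3⟩
      rintro rfl
      exact h1 rfl
  · rw [if_neg ha]
    refine inner_ne a b w s ?_
    intro h
    apply ha
    rw [← h]
    simp

/-- the continuation -/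
def Zt (a b : ZMod N) (w : ℍ) (s : ℂ) : ℂ :=
  (s - 1) * (Z0 a b w s + ∑' m, Rm a b w s m) + kk N w s * (HL a s + HL (-a) s)

theorem Zt_eq (h2 : S_rem) (a b : ZMod N) (w : ℍ) {s : ℂ} (h1 : 1 < s.re) (h12 : s.re < 2) :
    Zt a b w s = (s - 1) * ∑' p, zc a b w s p := by
  have hs := (summable_zc a b w h1 h12.le).of_norm
  have hsi := hs.prod
  have ham := (hasSum_am a h1)
  have e : ∑' p, zc a b w s p = (∑' m, (∑' n, zc a b w s (m, n) - kk N w s * am a s m)) +
      kk N w s * ∑' m, am a s m := by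
    rw [hs.tsum_prod, hsi.tsum_sub (ham.summable.mul_left (kk N w s)), tsum_mul_left]
    ring
  have hR : Summable fun m => Rm a b w s m := ((h2 N a b).1 w s (by linarith)).of_norm
  have e2 : ∀ m : ℤ, ∑' n, zc a b w s (m, n) - kk N w s * am a s m =
      (if m = 0 then Z0 a b w s else 0) + Rm a b w s m := by
    intro m
    by_cases hm : m = 0
    · subst hm
      have e3 : am a s 0 = 0 := by unfold am; rw [if_neg (by tauto)]
      have e4 : Rm a b w s 0 = 0 := by unfold Rm; rw [if_neg (by tauto)]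
      rw [e3, e4, if_pos rfl, inner_Z0 a b w h1]
      ring
    · rw [if_neg hm, zero_add]
      by_cases hma : (m : ZMod N) = a
      · unfold Rm
        rw [if_pos ⟨hm, hma⟩, inner_eq a b w s hm hma]
      · have e3 : am a s m = 0 := by unfold am; rw [if_neg (by tauto)]
        have e4 : Rm a b w s m = 0 := by unfold Rm; rw [if_neg (by tauto)]
        rw [e3, e4, inner_ne a b w s hma]
        ring
  have e5 : ∑' m, (∑' n, zc a b w s (m, n) - kk N w s * am a s m) =
      Z0 a b w s + ∑' m, Rm a b w s m := by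
    simp_rw [e2]
    exact ((hasSum_ite_eq 0 (Z0 a b w s)).add hR.hasSum).tsum_eq
  rw [e, e5, ham.tsum_eq]
  unfold Zt
  rw [HL_eq a h1, HL_eq (-a) h1]
  ring

theorem diff_cpow (w : ℍ) : Differentiable ℂ fun s : ℂ => (w.im : ℂ) ^ s := by
  intro s
  have hne : (w.im : ℂ) ≠ 0 := by exact_mod_cast w.im_pos.ne'
  exact differentiableAt_id.const_cpow (Or.inl hne)

theorem diff_Z0 (a b : ZMod N) (w : ℍ) {s : ℂ} (hs : 1 / 2 < s.re) :
    DifferentiableAt ℂ (Z0 a b w) s := by
  unfold Z0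
  by_cases ha : a = 0
  · simp only [ha, if_true]
    exact (diff_cpow w s).mul (z0_diff b hs)
  · simp only [ha, if_false]
    exact differentiableAt_const _

omit [NeZero N] in
theorem diff_kk (h1 : S_line) (w : ℍ) {s : ℂ} (hs : 1 / 2 < s.re) :
    DifferentiableAt ℂ (kk N w) s := by
  have hne : (w.im : ℂ) ≠ 0 := by exact_mod_cast w.im_pos.ne'
  have hB : DifferentiableAt ℂ BC s :=
    (h1.1 s hs).differentiableAt ((isOpen_lt continuous_const Complex.continuous_re).mem_nhds hs)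
  have h3 : DifferentiableAt ℂ (fun s : ℂ => (w.im : ℂ) ^ (1 - 2 * s)) s :=
    ((differentiableAt_id.const_mul 2).const_sub 1).const_cpow (Or.inl hne)
  unfold kk
  exact (((diff_cpow w s).mul_const _).mul h3).mul hB

theorem meas_im (s : ℂ) : Measurable fun w : ℍ => (w.im : ℂ) ^ s := by
  have h : Measurable fun w : ℍ => w.im := UpperHalfPlane.continuous_im.measurable
  exact (Complex.measurable_ofReal.comp h).pow_const s

/-- powers of `y ≥ 1/2` -/
theorem rpow_le_sq' {y e : ℝ} (hy : 1 / 2 ≤ y) (h1 : -2 ≤ e) (h2 : e ≤ 2) :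
    y ^ e ≤ 16 * y ^ 2 := by
  have hy0 : 0 < y := by linarith
  rcases le_total 1 y with h | h
  · calc y ^ e ≤ y ^ (2:ℝ) := Real.rpow_le_rpow_of_exponent_le h h2
      _ = y ^ 2 := by norm_cast
      _ ≤ 16 * y ^ 2 := by nlinarith [sq_nonneg y]
  · calc y ^ e ≤ y ^ (-2:ℝ) := Real.rpow_le_rpow_of_exponent_ge hy0 h h1
      _ = (y ^ 2)⁻¹ := by
          rw [Real.rpow_neg hy0.le]
          norm_cast
      _ ≤ 16 * y ^ 2 := by
          rw [inv_le_iff_one_le_mul₀ (by positivity)]
          have h3 : (1/2 : ℝ) ^ 2 ≤ y ^ 2 := by gcongr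
          nlinarith

end

end LatC

open LatC in
open Filter Topology UpperHalfPlane in
open Pool.Agent.Y149.CR (BC zc kk) in
/-- **RS2-4.** -/
theorem t_lat (h1 : S_line) (h2 : S_rem) : S_lat := by
  intro N _
  refine ⟨Zt, ?_, ?_, ?_, ?_⟩
  · intro a b w s hs
    have hR : DifferentiableAt ℂ (fun s => ∑' m, Rm a b w s m) s :=
      ((h2 N a b).2.1 w s hs.1).differentiableAt
        ((isOpen_lt continuous_const Complex.continuous_re).mem_nhds hs.1)
    refine DifferentiableAt.differentiableWithinAt ?_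
    unfold Zt
    exact ((differentiableAt_id.sub_const 1).mul ((diff_Z0 a b w hs.1).add hR)).add
      ((diff_kk h1 w hs.1).mul ((differentiable_HL a s).add (differentiable_HL (-a) s)))
  · intro a b s hs hs2
    unfold Zt
    have hR := (h2 N a b).2.2.1 s hs
    have hZ : Measurable fun w : ℍ => Z0 a b w s := by
      unfold Z0
      by_cases ha : a = 0
      · simp only [ha, if_true]
        exact (meas_im s).mul_const _
      · simp only [ha, if_false]
        exact measurable_const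
    have hk : Measurable fun w : ℍ => kk N w s := by
      unfold kk
      exact (((meas_im s).mul_const _).mul (meas_im (1 - 2 * s))).mul_const _
    exact ((hZ.add hR).const_mul _).add (hk.mul_const _)
  · intro a b w s hs hs2
    exact Zt_eq h2 a b w hs hs2
  · intro s₀ hs₀ hs₀2
    have hb : ∀ {f : ℂ → ℂ}, ContinuousAt f s₀ → ∀ᶠ s in 𝓝 s₀, ‖f s‖ ≤ ‖f s₀‖ + 1 := by
      intro f hf
      filter_upwards [hf.norm.eventually_lt continuousAt_const (lt_add_one ‖f s₀‖)] with s hs
        using hs.le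
    have hBC : ContinuousAt BC s₀ :=
      ((h1.1 s₀ hs₀).differentiableAt
        ((isOpen_lt continuous_const Complex.continuous_re).mem_nhds hs₀)).continuousAt
    have hev1 := hb hBC
    have hev2 : ∀ᶠ s in 𝓝 s₀, ∀ b : ZMod N, ‖z0 b s‖ ≤ ‖z0 b s₀‖ + 1 := by
      rw [eventually_all]
      exact fun b => hb (z0_diff b hs₀).continuousAt
    have hev3 : ∀ᶠ s in 𝓝 s₀, ∀ a : ZMod N, ‖HL a s‖ ≤ ‖HL a s₀‖ + 1 := by
      rw [eventually_all]
      exact fun a => hb (differentiable_HL a s₀).continuousAt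
    have hev4 : ∀ᶠ s in 𝓝 s₀, ‖s - 1‖ ≤ ‖s₀ - 1‖ + 1 :=
      hb (f := fun s => s - 1) (by fun_prop)
    have hrem : ∀ a b : ZMod N, ∃ C : ℝ, ∀ᶠ s in 𝓝 s₀, ∀ w : ℍ,
        ‖∑' m, Rm a b w s m‖ ≤ C * w.im ^ (-s.re) := by
      intro a b
      obtain ⟨r, hr, C, hC⟩ := (h2 N a b).2.2.2 s₀ hs₀
      refine ⟨C, ?_⟩
      filter_upwards [Metric.ball_mem_nhds s₀ hr] with s hs w
      exact hC w s hs
    choose C hC using hrem
    have hev5 : ∀ᶠ s in 𝓝 s₀, ∀ a b : ZMod N, ∀ w : ℍ,
        ‖∑' m, Rm a b w s m‖ ≤ C a b * w.im ^ (-s.re) := by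
      rw [eventually_all]
      intro a
      rw [eventually_all]
      exact fun b => hC a b
    set B1 : ℝ := ∑ b : ZMod N, (‖z0 b s₀‖ + 1) with hB1
    set B2 : ℝ := ∑ a : ZMod N, (‖HL a s₀‖ + 1) with hB2
    set B3 : ℝ := ∑ a : ZMod N, ∑ b : ZMod N, |C a b| with hB3
    have hB1' : ∀ b : ZMod N, ‖z0 b s₀‖ + 1 ≤ B1 := fun b =>
      Finset.single_le_sum (f := fun b : ZMod N => ‖z0 b s₀‖ + 1) (fun _ _ => by positivity)
        (Finset.mem_univ b)
    have hB2' : ∀ a : ZMod N, ‖HL a s₀‖ + 1 ≤ B2 := fun a =>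
      Finset.single_le_sum (f := fun a : ZMod N => ‖HL a s₀‖ + 1) (fun _ _ => by positivity)
        (Finset.mem_univ a)
    have hB3' : ∀ a b : ZMod N, C a b ≤ B3 := fun a b =>
      (le_abs_self _).trans ((Finset.single_le_sum (f := fun b : ZMod N => |C a b|)
        (fun _ _ => abs_nonneg _) (Finset.mem_univ b)).trans
        (Finset.single_le_sum (f := fun a : ZMod N => ∑ b : ZMod N, |C a b|)
          (fun _ _ => Finset.sum_nonneg fun _ _ => abs_nonneg _) (Finset.mem_univ a)))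
    have hB10 : 0 ≤ B1 := Finset.sum_nonneg fun _ _ => by positivity
    have hB20 : 0 ≤ B2 := Finset.sum_nonneg fun _ _ => by positivity
    have hB30 : 0 ≤ B3 := Finset.sum_nonneg fun _ _ => Finset.sum_nonneg fun _ _ => abs_nonneg _
    have hall := (((hev1.and hev2).and hev3).and hev4).and hev5
    obtain ⟨r, hr, hball⟩ := Metric.eventually_nhds_iff.1 hall
    refine ⟨r, hr, (‖s₀ - 1‖ + 1) * (16 * B1 + 16 * B3) + 16 * (‖BC s₀‖ + 1) * (2 * B2), ?_⟩
    intro a b w s hw hs1 hs2 hd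
    obtain ⟨⟨⟨⟨c1, c2⟩, c3⟩, c4⟩, c5⟩ := hball hd
    have hy := w.im_pos
    have hN1 : (1:ℝ) ≤ N := by exact_mod_cast Nat.pos_of_ne_zero (NeZero.ne N)
    have hNi : (N : ℝ)⁻¹ ≤ 1 := inv_le_one_of_one_le₀ hN1
    have q1 : w.im ^ s.re ≤ 16 * w.im ^ 2 := rpow_le_sq' hw (by linarith) (by linarith)
    have q2 : w.im ^ (-s.re) ≤ 16 * w.im ^ 2 := rpow_le_sq' hw (by linarith) (by linarith)
    have q3 : w.im ^ (1 - s.re) ≤ 16 * w.im ^ 2 := rpow_le_sq' hw (by linarith) (by linarith)
    have hZ : ‖Z0 a b w s‖ ≤ 16 * w.im ^ 2 * B1 := by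
      unfold Z0
      split_ifs with ha
      · rw [norm_mul, Pool.Agent.Y149.CR.norm_cpow_real hy]
        exact mul_le_mul q1 ((c2 b).trans (hB1' b)) (norm_nonneg _) (by positivity)
      · rw [norm_zero]; positivity
    have hR : ‖∑' m, Rm a b w s m‖ ≤ 16 * w.im ^ 2 * B3 := by
      refine (c5 a b w).trans ?_
      calc C a b * w.im ^ (-s.re) ≤ B3 * (16 * w.im ^ 2) :=
            mul_le_mul (hB3' a b) q2 (by positivity) hB30
        _ = _ := by ring
    have hk : ‖kk N w s‖ ≤ 16 * w.im ^ 2 * (‖BC s₀‖ + 1) := by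
      unfold kk
      rw [norm_mul, norm_mul, norm_mul, Pool.Agent.Y149.CR.norm_cpow_real hy,
        Pool.Agent.Y149.CR.norm_cpow_real hy, Complex.norm_real,
        Real.norm_of_nonneg (by positivity : 0 ≤ (N : ℝ)⁻¹)]
      have e : (1 - 2 * s).re = 1 - 2 * s.re := by simp
      rw [e]
      have e2 : w.im ^ s.re * w.im ^ (1 - 2 * s.re) = w.im ^ (1 - s.re) := by
        rw [← Real.rpow_add hy]; congr 1; ring
      calc w.im ^ s.re * (N : ℝ)⁻¹ * w.im ^ (1 - 2 * s.re) * ‖BC s‖
          ≤ w.im ^ s.re * 1 * w.im ^ (1 - 2 * s.re) * (‖BC s₀‖ + 1) := by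
            gcongr
        _ = w.im ^ (1 - s.re) * (‖BC s₀‖ + 1) := by rw [mul_one, e2]
        _ ≤ _ := by gcongr
    have hH : ‖HL a s + HL (-a) s‖ ≤ 2 * B2 := by
      refine (norm_add_le _ _).trans ?_
      have := (c3 a).trans (hB2' a)
      have := (c3 (-a)).trans (hB2' (-a))
      linarith
    unfold Zt
    refine (norm_add_le _ _).trans ?_
    rw [norm_mul, norm_mul]
    calc ‖s - 1‖ * ‖Z0 a b w s + ∑' m, Rm a b w s m‖ + ‖kk N w s‖ * ‖HL a s + HL (-a) s‖
        ≤ (‖s₀ - 1‖ + 1) * (16 * w.im ^ 2 * B1 + 16 * w.im ^ 2 * B3) +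
          (16 * w.im ^ 2 * (‖BC s₀‖ + 1)) * (2 * B2) := by
          gcongr
          exact (norm_add_le _ _).trans (add_le_add hZ hR)
      _ = _ := by ring

end Pool.Agent.NH98.RS2
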