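import Pool.Agent.NH98.RS2.Stm
import Pool.Agent.NH98.RS2.StmT

/-! Project RS2: the one-dimensional sums for `Re s > 1/2`. -/

set_option autoImplicit false

namespace Pool.Agent.NH98.RS2

open MeasureTheory Filter Topology
open Pool.Agent.Y149.CR (gc gc' BC EM2 hasDerivAt_gc continuous_gc continuous_gc' one_add_sq_pos)

namespace LineAux

theorem integrable_base {σ : ℝ} (h : 1 / 2 < σ) :
    Integrable (fun t : ℝ => (1 + t ^ 2) ^ (-σ)) := by
  have h1 := integrable_rpow_neg_one_add_norm_sq (E := ℝ) (μ := volume) (r := 2 * σ) (by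
    rw [Module.finrank_self]; push_cast; linarith)
  refine h1.congr (Eventually.of_forall fun t => ?_)
  simp only [Real.norm_eq_abs, sq_abs]
  congr 1
  ring

theorem norm_gc_eq (s : ℂ) (t : ℝ) : ‖gc s t‖ = (1 + t ^ 2) ^ (-s.re) := by
  unfold gc
  rw [Complex.norm_cpow_eq_rpow_re_of_pos (one_add_sq_pos t), Complex.neg_re]

theorem norm_gc'_eq (s : ℂ) (t : ℝ) : ‖gc' s t‖ = ‖s‖ * (2 * |t| * (1 + t ^ 2) ^ (-s.re - 1)) := by
  unfold gc'
  have h0 := one_add_sq_pos t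
  rw [norm_mul, norm_mul, norm_neg, Complex.norm_cpow_eq_rpow_re_of_pos h0, Complex.norm_real,
    Real.norm_eq_abs, abs_mul, abs_of_pos (by norm_num : (0 : ℝ) < 2)]
  simp only [Complex.sub_re, Complex.neg_re, Complex.one_re]
  ring

theorem integrable_gc {s : ℂ} (hs : 1 / 2 < s.re) : Integrable (gc s) := by
  refine (integrable_base hs).mono' (continuous_gc s).aestronglyMeasurable ?_
  exact Eventually.of_forall fun t => (norm_gc_eq s t).le

theorem abs_le_rpow (t : ℝ) : |t| ≤ (1 + t ^ 2) ^ (1 / 2 : ℝ) := by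
  rw [← Real.sqrt_eq_rpow]
  refine Real.le_sqrt_of_sq_le ?_
  rw [sq_abs]
  linarith

theorem integrable_half {σ : ℝ} (h : 0 < σ) :
    Integrable (fun t : ℝ => 2 * |t| * (1 + t ^ 2) ^ (-σ - 1)) := by
  refine ((integrable_base (σ := σ + 1 / 2) (by linarith)).const_mul 2).mono'
    (Continuous.aestronglyMeasurable ?_) (Eventually.of_forall fun t => ?_)
  · refine Continuous.mul (by fun_prop) ?_
    exact Continuous.rpow_const (by fun_prop) fun t => Or.inl (one_add_sq_pos t).ne'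
  · have h0 := one_add_sq_pos t
    rw [Real.norm_eq_abs, abs_of_nonneg (by positivity)]
    calc 2 * |t| * (1 + t ^ 2) ^ (-σ - 1) ≤
        2 * (1 + t ^ 2) ^ (1 / 2 : ℝ) * (1 + t ^ 2) ^ (-σ - 1) := by
          gcongr
          exact abs_le_rpow t
      _ = 2 * (1 + t ^ 2) ^ (-(σ + 1 / 2)) := by
          rw [mul_assoc, ← Real.rpow_add h0]
          congr 2
          ring

theorem hasDerivAt_prim {σ : ℝ} (h : 0 < σ) (t : ℝ) :
    HasDerivAt (fun t : ℝ => -(1 + t ^ 2) ^ (-σ) / σ) (2 * t * (1 + t ^ 2) ^ (-σ - 1)) t := by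
  have h0 := one_add_sq_pos t
  have h1 : HasDerivAt (fun t : ℝ => 1 + t ^ 2) (2 * t) t := by
    simpa using ((hasDerivAt_pow 2 t).const_add 1)
  have h2 := ((h1.rpow_const (p := -σ) (Or.inl h0.ne')).neg).div_const σ
  refine h2.congr_deriv ?_
  field_simp

theorem tendsto_prim {σ : ℝ} (h : 0 < σ) :
    Tendsto (fun t : ℝ => -(1 + t ^ 2) ^ (-σ) / σ) atTop (𝓝 0) := by
  have h1 : Tendsto (fun t : ℝ => 1 + t ^ 2) atTop atTop :=
    tendsto_atTop_add_const_left _ _ (tendsto_pow_atTop (by norm_num))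
  have h2 := ((tendsto_rpow_neg_atTop h).comp h1).neg.div_const σ
  simpa [Function.comp_def] using h2

theorem integral_half {σ : ℝ} (h : 0 < σ) :
    ∫ t : ℝ, 2 * |t| * (1 + t ^ 2) ^ (-σ - 1) = 2 / σ := by
  have h1 := integral_comp_abs (f := fun t : ℝ => 2 * t * (1 + t ^ 2) ^ (-σ - 1))
  simp only [sq_abs] at h1
  rw [h1]
  have h2 : ∫ t in Set.Ioi (0:ℝ), 2 * t * (1 + t ^ 2) ^ (-σ - 1) = 0 - (-(1 + (0:ℝ) ^ 2) ^ (-σ) / σ) := by
    refine integral_Ioi_of_hasDerivAt_of_tendsto' (fun t _ => hasDerivAt_prim h t) ?_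
      (tendsto_prim h)
    refine (integrable_half h).integrableOn.congr_fun (fun t ht => ?_) measurableSet_Ioi
    simp only [abs_of_pos (Set.mem_Ioi.1 ht)]
  rw [h2]
  simp only [ne_eq, OfNat.ofNat_ne_zero, not_false_eq_true, zero_pow, add_zero, Real.one_rpow]
  ring

theorem integrable_gc' {s : ℂ} (hs : 1 / 2 < s.re) : Integrable (gc' s) := by
  refine ((integrable_half (σ := s.re) (by linarith)).const_mul ‖s‖).mono'
    (continuous_gc' s).aestronglyMeasurable ?_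
  exact Eventually.of_forall fun t => (norm_gc'_eq s t).le

theorem int_gc' {s : ℂ} (hs : 1 / 2 < s.re) : ∫ t, ‖gc' s t‖ = 2 * ‖s‖ / s.re := by
  simp_rw [norm_gc'_eq]
  rw [integral_const_mul, integral_half (by linarith)]
  ring

/-- **The one-dimensional sum.** -/
theorem sum_line {s : ℂ} (hs : 1 / 2 < s.re) {N α : ℝ} (hN : 0 < N) (hα : 0 < α) (θ : ℝ) :
    Summable (fun j : ℤ => (((θ + N * j) ^ 2 + α ^ 2 : ℝ) : ℂ) ^ (-s)) ∧
    ‖∑' j : ℤ, (((θ + N * j) ^ 2 + α ^ 2 : ℝ) : ℂ) ^ (-s) -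
      ((N⁻¹ : ℝ) : ℂ) * (α : ℂ) ^ (1 - 2 * s) * BC s‖
      ≤ 2 * ‖s‖ / s.re * α ^ (-(2 * s.re)) := by
  have hβ : 0 < N / α := by positivity
  obtain ⟨h1, h2⟩ := EM2 (hasDerivAt_gc s) (integrable_gc hs) (integrable_gc' hs) hβ (θ / α)
  have hαc : (α : ℂ) ≠ 0 := by exact_mod_cast hα.ne'
  have e : ∀ j : ℤ, (((θ + N * j) ^ 2 + α ^ 2 : ℝ) : ℂ) ^ (-s) =
      (α : ℂ) ^ (-(2 * s)) * gc s (N / α * j + θ / α) := by
    intro j
    unfold gc
    have e1 : (θ + N * j) ^ 2 + α ^ 2 = α * α * (1 + (N / α * j + θ / α) ^ 2) := by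
      field_simp
      ring
    rw [e1, Complex.ofReal_mul, Complex.mul_cpow_ofReal_nonneg (by positivity) (by positivity),
      Complex.ofReal_mul, Complex.mul_cpow_ofReal_nonneg hα.le hα.le, ← Complex.cpow_add _ _ hαc]
    congr 2
    ring
  simp_rw [e]
  refine ⟨h1.mul_left _, ?_⟩
  rw [tsum_mul_left]
  have e2 : ((N⁻¹ : ℝ) : ℂ) * (α : ℂ) ^ (1 - 2 * s) * BC s =
      (α : ℂ) ^ (-(2 * s)) * ((((N / α)⁻¹ : ℝ) : ℂ) * ∫ x, gc s x) := by
    rw [show (1 - 2 * s) = -(2 * s) + 1 by ring, Complex.cpow_add _ _ hαc, Complex.cpow_one]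
    unfold BC
    have hNc : (N : ℂ) ≠ 0 := by exact_mod_cast hN.ne'
    push_cast
    field_simp
  rw [e2, ← mul_sub, norm_mul, Complex.norm_cpow_eq_rpow_re_of_pos hα, mul_comm (2 * ‖s‖ / s.re)]
  have e3 : (-(2 * s)).re = -(2 * s.re) := by simp
  rw [e3]
  refine mul_le_mul_of_nonneg_left ?_ (by positivity)
  rw [← int_gc' hs]
  exact h2

theorem rpow_between {x a b c : ℝ} (hx : 0 < x) (h1 : a ≤ b) (h2 : b ≤ c) :
    x ^ (-b) ≤ x ^ (-a) + x ^ (-c) := by
  rcases le_total 1 x with h | h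
  · have h3 : x ^ (-b) ≤ x ^ (-a) := Real.rpow_le_rpow_of_exponent_le h (by linarith)
    have h4 : 0 ≤ x ^ (-c) := Real.rpow_nonneg hx.le _
    linarith
  · have h3 : x ^ (-b) ≤ x ^ (-c) := Real.rpow_le_rpow_of_exponent_ge hx h (by linarith)
    have h4 : 0 ≤ x ^ (-a) := Real.rpow_nonneg hx.le _
    linarith

theorem isOpen_half : IsOpen {s : ℂ | 1 / 2 < s.re} := isOpen_lt continuous_const Complex.continuous_re

theorem diff_BC (h : S_par) : DifferentiableOn ℂ BC {s : ℂ | 1 / 2 < s.re} := by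
  refine h ℝ volume {s : ℂ | 1 / 2 < s.re} gc isOpen_half ?_ ?_ ?_
  · intro t s _
    unfold gc
    have h0 : ((1 + t ^ 2 : ℝ) : ℂ) ≠ 0 := by exact_mod_cast (one_add_sq_pos t).ne'
    exact (DifferentiableAt.const_cpow (by fun_prop) (Or.inl h0)).differentiableWithinAt
  · intro s _
    exact (continuous_gc s).aestronglyMeasurable
  · intro s hs
    have hs' : 1 / 2 < s.re := hs
    refine ⟨(s.re - 1 / 2) / 2, by linarith, fun t => (1 + t ^ 2) ^ (-((s.re + 1 / 2) / 2)),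
      integrable_base (by linarith), ?_⟩
    intro z _ hz t
    rw [norm_gc_eq]
    have h1 : |(z - s).re| ≤ ‖z - s‖ := Complex.abs_re_le_norm _
    rw [dist_eq_norm] at hz
    rw [Complex.sub_re] at h1
    have h2 := (abs_le.1 (h1.trans hz.le)).1
    refine Real.rpow_le_rpow_of_exponent_le (by nlinarith [sq_nonneg t]) ?_
    linarith

theorem diff_sum (N α θ : ℝ) (hN : 0 < N) (hα : 0 < α) : DifferentiableOn ℂ
    (fun s : ℂ => ∑' j : ℤ, (((θ + N * j) ^ 2 + α ^ 2 : ℝ) : ℂ) ^ (-s)) {s : ℂ | 1 / 2 < s.re} := by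
  intro s hs
  have hs' : 1 / 2 < s.re := hs
  have hpos : ∀ j : ℤ, 0 < (θ + N * j) ^ 2 + α ^ 2 := fun j => by positivity
  set a : ℝ := (s.re + 1 / 2) / 2 with ha
  set c : ℝ := s.re + 1 with hc
  have hU : IsOpen {z : ℂ | a < z.re ∧ z.re < c} :=
    (isOpen_lt continuous_const Complex.continuous_re).inter
      (isOpen_lt Complex.continuous_re continuous_const)
  have hsum : ∀ b : ℝ, 1 / 2 < b → Summable (fun j : ℤ => ((θ + N * j) ^ 2 + α ^ 2) ^ (-b)) := by
    intro b hb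
    have h1 := (sum_line (s := (b : ℂ)) (by simpa using hb) hN hα θ).1.norm
    refine h1.congr fun j => ?_
    rw [Complex.norm_cpow_eq_rpow_re_of_pos (hpos j), Complex.neg_re, Complex.ofReal_re]
  have key := Complex.differentiableOn_tsum_of_summable_norm
    (F := fun (j : ℤ) (s : ℂ) => (((θ + N * j) ^ 2 + α ^ 2 : ℝ) : ℂ) ^ (-s))
    (u := fun j : ℤ => ((θ + N * j) ^ 2 + α ^ 2) ^ (-a) + ((θ + N * j) ^ 2 + α ^ 2) ^ (-c))
    ((hsum a (by rw [ha]; linarith)).add (hsum c (by rw [hc]; linarith)))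
    (fun j z _ => by
      have h0 : ((((θ + N * j) ^ 2 + α ^ 2 : ℝ)) : ℂ) ≠ 0 := by exact_mod_cast (hpos j).ne'
      exact (DifferentiableAt.const_cpow (by fun_prop) (Or.inl h0)).differentiableWithinAt) hU
    (fun j z hz => by
      rw [Complex.norm_cpow_eq_rpow_re_of_pos (hpos j), Complex.neg_re]
      exact rpow_between (hpos j) hz.1.le hz.2.le)
  have hmem : s ∈ {z : ℂ | a < z.re ∧ z.re < c} := by
    constructor
    · rw [ha]; linarith
    · rw [hc]; linarith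
  exact ((key s hmem).differentiableAt (hU.mem_nhds hmem)).differentiableWithinAt

end LineAux

theorem t_line (h : S_par) : S_line := by
  refine ⟨LineAux.diff_BC h, ?_, fun N α θ hN hα => LineAux.diff_sum N α θ hN hα⟩
  intro s N α θ hs hN hα
  obtain ⟨h1, h2⟩ := LineAux.sum_line hs hN hα θ
  exact ⟨h1.norm, h2⟩

end Pool.Agent.NH98.RS2
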