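import Pool.Agent.NH98.RS2.StmT
import Pool.Agent.Helper923.PNT

set_option autoImplicit false

/-!
# RS2-12: from the Dirichlet series to the sum over primes (S_mert)
-/

namespace Pool.Agent.NH98.RS2

open MeasureTheory Filter Topology Set

namespace Mert

/-- the sum over the primes -/
noncomputable def W (a : ℕ → ℝ) (x : ℝ) : ℝ :=
  ∑ p ∈ (Finset.range (⌊x⌋₊ + 1)).filter Nat.Prime, a p * Real.log p / p

variable {a : ℕ → ℝ}

lemma W_diff_nonneg (ha : ∀ p, 0 ≤ a p) {x y : ℝ} (hxy : x ≤ y) : W a x ≤ W a y := by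
  unfold W
  refine Finset.sum_le_sum_of_subset_of_nonneg ?_ fun p _ _ => ?_
  · exact Finset.filter_subset_filter _ (Finset.range_mono
      (Nat.add_le_add_right (Nat.floor_mono hxy) 1))
  · exact div_nonneg (mul_nonneg (ha p) (Real.log_natCast_nonneg p)) (Nat.cast_nonneg p)

lemma W_nonneg (ha : ∀ p, 0 ≤ a p) (x : ℝ) : 0 ≤ W a x :=
  Finset.sum_nonneg fun p _ =>
    div_nonneg (mul_nonneg (ha p) (Real.log_natCast_nonneg p)) (Nat.cast_nonneg p)

/-- the increments of `W` -/
lemma W_diff_le (ha4 : ∀ p, a p ≤ 4) {x y : ℝ} (hx : 0 < x) (hxy : x ≤ y) :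
    W a y - W a x ≤ 4 * (Chebyshev.theta y - Chebyshev.theta x) / x := by
  have hsub : (Finset.range (⌊x⌋₊ + 1)).filter Nat.Prime ⊆
      (Finset.range (⌊y⌋₊ + 1)).filter Nat.Prime :=
    Finset.filter_subset_filter _ (Finset.range_mono (Nat.add_le_add_right (Nat.floor_mono hxy) 1))
  have hset : ∀ z : ℝ, Finset.filter Nat.Prime (Finset.Ioc 0 ⌊z⌋₊) =
      (Finset.range (⌊z⌋₊ + 1)).filter Nat.Prime := by
    intro z
    ext n
    simp only [Finset.mem_filter, Finset.mem_Ioc, Finset.mem_range]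
    constructor
    · rintro ⟨⟨h1, h2⟩, h3⟩
      exact ⟨by omega, h3⟩
    · rintro ⟨h1, h3⟩
      exact ⟨⟨h3.pos, by omega⟩, h3⟩
  unfold Chebyshev.theta W
  rw [hset, hset, ← Finset.sum_sdiff hsub, add_sub_cancel_right, ← Finset.sum_sdiff hsub,
    add_sub_cancel_right, mul_div_assoc, Finset.sum_div, Finset.mul_sum]
  refine Finset.sum_le_sum fun p hp => ?_
  rw [Finset.mem_sdiff, Finset.mem_filter, Finset.mem_filter, Finset.mem_range,
    Finset.mem_range] at hp
  have h1 : ⌊x⌋₊ < p := by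
    by_contra h
    exact hp.2 ⟨by omega, hp.1.2⟩
  have h2 : x < p := (Nat.floor_lt hx.le).1 h1
  have hl : 0 ≤ Real.log p := Real.log_natCast_nonneg p
  calc a p * Real.log p / p ≤ 4 * Real.log p / p := by
        gcongr
        exact ha4 p
    _ ≤ 4 * Real.log p / x := by
        gcongr
    _ = 4 * (Real.log p / x) := by ring

/-- slow oscillation of `W (e^t)` -/
lemma W_osc (ha : ∀ p, 0 ≤ a p) (ha4 : ∀ p, a p ≤ 4) {ε : ℝ} (hε : 0 < ε) :
    ∃ δ > 0, ∃ T : ℝ, 0 ≤ T ∧ ∀ t u : ℝ, T ≤ t → 0 ≤ u → u ≤ δ →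
      |(W a (Real.exp (t + u)) - (t + u)) - (W a (Real.exp t) - t)| ≤ ε := by
  -- choose `δ`
  obtain ⟨δ, hδ, hδ1, hδ2⟩ : ∃ δ : ℝ, 0 < δ ∧ δ ≤ ε / 4 ∧ Real.exp δ ≤ 1 + ε / 16 := by
    have h1 : Tendsto Real.exp (𝓝 0) (𝓝 (Real.exp 0)) := Real.continuous_exp.continuousAt
    rw [Real.exp_zero] at h1
    have h2 : ∀ᶠ d in 𝓝 (0:ℝ), Real.exp d < 1 + ε / 16 := h1.eventually (gt_mem_nhds (by linarith))
    have h3 : ∀ᶠ d in 𝓝[>] (0:ℝ), Real.exp d < 1 + ε / 16 := h2.filter_mono nhdsWithin_le_nhds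
    have h4 : ∀ᶠ d in 𝓝[>] (0:ℝ), d ∈ Ioo (0:ℝ) (ε / 4) := Ioo_mem_nhdsGT (by linarith)
    obtain ⟨d, hd1, hd2⟩ := (h3.and h4).exists
    exact ⟨d, hd2.1, hd2.2.le, hd1.le⟩
  have hth := Pool.Agent.Helper923.PNT.theta_div_tendsto
  set η : ℝ := ε / (16 * (1 + Real.exp δ)) with hη
  have hηpos : 0 < η := by positivity
  have h1 : ∀ᶠ x : ℝ in atTop, |Chebyshev.theta x / x - 1| < η := by
    have := (Metric.tendsto_nhds.1 hth) η hηpos
    simpa only [Real.dist_eq] using this
  obtain ⟨X, hX⟩ := eventually_atTop.1 h1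
  refine ⟨δ, hδ, max 0 (Real.log (max X 1)), le_max_left _ _, ?_⟩
  intro t u ht hu hud
  have hx : max X 1 ≤ Real.exp t := by
    have h2 : Real.log (max X 1) ≤ t := (le_max_right _ _).trans ht
    have h3 : 0 < max X 1 := lt_of_lt_of_le one_pos (le_max_right _ _)
    calc max X 1 = Real.exp (Real.log (max X 1)) := (Real.exp_log h3).symm
      _ ≤ Real.exp t := Real.exp_le_exp.2 h2
  have hxX : X ≤ Real.exp t := (le_max_left _ _).trans hx
  have hxp : 0 < Real.exp t := Real.exp_pos t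
  have hyX : X ≤ Real.exp (t + u) := hxX.trans (Real.exp_le_exp.2 (by linarith))
  have hyp : 0 < Real.exp (t + u) := Real.exp_pos _
  have e1 := abs_lt.1 (hX _ hxX)
  have e2 := abs_lt.1 (hX _ hyX)
  have hle : Real.exp t ≤ Real.exp (t + u) := Real.exp_le_exp.2 (by linarith)
  have d1 := W_diff_nonneg ha hle
  have d2 := W_diff_le ha4 hxp hle
  have hsplit : Real.exp (t + u) = Real.exp t * Real.exp u := Real.exp_add t u
  have hu1 : Real.exp u ≤ Real.exp δ := Real.exp_le_exp.2 hud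
  have hu0 : 1 ≤ Real.exp u := Real.one_le_exp hu
  have d3 : 4 * (Chebyshev.theta (Real.exp (t + u)) - Chebyshev.theta (Real.exp t)) / Real.exp t
      ≤ 4 * (Real.exp u * (1 + η) - (1 - η)) := by
    have f1 : Chebyshev.theta (Real.exp (t + u)) ≤ Real.exp (t + u) * (1 + η) := by
      have : Chebyshev.theta (Real.exp (t + u)) / Real.exp (t + u) ≤ 1 + η := by linarith [e2.2]
      rw [div_le_iff₀ hyp] at this
      linarith
    have f2 : Real.exp t * (1 - η) ≤ Chebyshev.theta (Real.exp t) := by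
      have : 1 - η ≤ Chebyshev.theta (Real.exp t) / Real.exp t := by linarith [e1.1]
      rw [le_div_iff₀ hxp] at this
      linarith
    rw [div_le_iff₀ hxp]
    rw [hsplit] at f1 ⊢
    nlinarith
  have d4 : 4 * (Real.exp u * (1 + η) - (1 - η)) ≤ ε / 2 := by
    have g1 : η * (1 + Real.exp δ) = ε / 16 := by
      rw [hη]
      field_simp
    have g2 : η * Real.exp u ≤ η * Real.exp δ := by gcongr
    nlinarith
  rw [abs_le]
  constructor <;> linarith

/-- the bound `|S t| ≤ C (1 + t)` from slow oscillation -/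
lemma S_bound (ha : ∀ p, 0 ≤ a p) (ha4 : ∀ p, a p ≤ 4) (A1 : ℝ) :
    ∃ C : ℝ, 0 ≤ C ∧ ∀ t : ℝ, 0 ≤ t → |W a (Real.exp t) - t - A1| ≤ C * (1 + t) := by
  obtain ⟨δ, hδ, T, hT, hosc⟩ := W_osc ha ha4 one_pos
  have hstep : ∀ n : ℕ, ∀ t : ℝ, T ≤ t → t ≤ T + n * δ →
      |W a (Real.exp t) - t| ≤ |W a (Real.exp T) - T| + n := by
    intro n
    induction n with
    | zero =>
      intro t h1 h2
      have : t = T := by
        simp only [Nat.cast_zero, zero_mul, add_zero] at h2
        linarith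
      rw [this]
      simp
    | succ n ih =>
      intro t h1 h2
      by_cases h3 : t ≤ T + n * δ
      · refine (ih t h1 h3).trans ?_
        push_cast
        linarith
      · push Not at h3
        have h4 := ih (T + n * δ) (by nlinarith [Nat.cast_nonneg (α := ℝ) n]) le_rfl
        have h5 := hosc (T + n * δ) (t - (T + n * δ)) (by nlinarith [Nat.cast_nonneg (α := ℝ) n])
          (by linarith) (by push_cast at h2; linarith)
        rw [add_sub_cancel] at h5
        calc |W a (Real.exp t) - t| =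
              |(W a (Real.exp (T + n * δ)) - (T + n * δ)) + ((W a (Real.exp t) - t) -
                (W a (Real.exp (T + n * δ)) - (T + n * δ)))| := by
                congr 1; ring
          _ ≤ (|W a (Real.exp T) - T| + n) + 1 := (abs_add_le _ _).trans (add_le_add h4 h5)
          _ = _ := by push_cast; ring
  refine ⟨|W a (Real.exp T) - T| + 1 + 1 / δ + |A1| + W a (Real.exp T) + T, ?_, ?_⟩
  · have := W_nonneg ha (Real.exp T)
    positivity
  · intro t ht
    have hW0 := W_nonneg ha (Real.exp T)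
    have hC0 : (0:ℝ) ≤ |W a (Real.exp T) - T| := abs_nonneg _
    have hA0 : (0:ℝ) ≤ |A1| := abs_nonneg _
    have hd0 : (0:ℝ) ≤ 1 / δ := by positivity
    have hmain : |W a (Real.exp t) - t| ≤ |W a (Real.exp T) - T| + 1 + 1 / δ * t +
        W a (Real.exp T) + T := by
      by_cases h1 : T ≤ t
      · have h2 := hstep ⌈(t - T) / δ⌉₊ t h1 (by
          have h3 := Nat.le_ceil ((t - T) / δ)
          rw [div_le_iff₀ hδ] at h3
          linarith)
        have h3 : (⌈(t - T) / δ⌉₊ : ℝ) ≤ (t - T) / δ + 1 :=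
          (Nat.ceil_lt_add_one (div_nonneg (by linarith) hδ.le)).le
        have h4 : (t - T) / δ ≤ 1 / δ * t := by
          rw [div_mul_eq_mul_div, one_mul]
          gcongr
          linarith
        linarith
      · push Not at h1
        have h2 := W_diff_nonneg ha (Real.exp_le_exp.2 h1.le)
        have h3 := W_nonneg ha (Real.exp t)
        have h4 : |W a (Real.exp t) - t| ≤ W a (Real.exp T) + T := by
          rw [abs_le]
          constructor <;> linarith
        have : 0 ≤ 1 / δ * t := by positivity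
        linarith
    calc |W a (Real.exp t) - t - A1| ≤ |W a (Real.exp t) - t| + |A1| := abs_sub _ _
      _ ≤ (|W a (Real.exp T) - T| + 1 + 1 / δ * t + W a (Real.exp T) + T) + |A1| := by gcongr
      _ ≤ _ := by
          have p1 : 0 ≤ |W a (Real.exp T) - T| * t := by positivity
          have p2 : 0 ≤ |A1| * t := by positivity
          have p3 : 0 ≤ W a (Real.exp T) * t := by positivity
          have p4 : 0 ≤ T * t := by positivity
          nlinarith

lemma S_meas (ha : ∀ p, 0 ≤ a p) (A1 : ℝ) :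
    Measurable fun t : ℝ => W a (Real.exp t) - t - A1 := by
  have h1 : Monotone (W a) := fun x y h => W_diff_nonneg ha h
  exact ((h1.measurable.comp Real.measurable_exp).sub measurable_id).sub measurable_const

/-! ### Laplace transforms -/

lemma int_exp {z : ℂ} (hz : 0 < z.re) (c : ℝ) :
    ∫ t in Ioi c, Complex.exp (-(z * t)) = Complex.exp (-(z * c)) / z := by
  have h := integral_exp_mul_complex_Ioi (a := -z) (by simpa using hz) c
  simp only [neg_mul] at h
  rw [h, neg_div_neg_eq]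

lemma intOn_exp {z : ℂ} (hz : 0 < z.re) (c : ℝ) :
    IntegrableOn (fun t : ℝ => Complex.exp (-(z * t))) (Ioi c) := by
  have h := integrableOn_exp_mul_complex_Ioi (a := -z) (by simpa using hz) c
  simpa only [neg_mul] using h

lemma norm_exp_neg (z : ℂ) (t : ℝ) : ‖Complex.exp (-(z * t))‖ = Real.exp (-(z.re * t)) := by
  rw [Complex.norm_exp]
  simp

/-- a bounded multiple of `1 + t` against the exponential -/
lemma intOn_lin {z : ℂ} (hz : 0 < z.re) {f : ℝ → ℝ} (hf : Measurable f) {C : ℝ} (hC : 0 ≤ C)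
    (hfC : ∀ t, 0 ≤ t → |f t| ≤ C * (1 + t)) :
    IntegrableOn (fun t : ℝ => (f t : ℂ) * Complex.exp (-(z * t))) (Ioi 0) := by
  have h1 : IntegrableOn (fun t : ℝ => C * (1 + 2 / z.re) * Real.exp (-(z.re / 2) * t)) (Ioi 0) :=
    (exp_neg_integrableOn_Ioi 0 (by positivity : 0 < z.re / 2)).const_mul _
  refine Integrable.mono' h1 ?_ ?_
  · exact (((Complex.measurable_ofReal.comp hf).mul (by fun_prop))).aestronglyMeasurable
  · refine (ae_restrict_mem measurableSet_Ioi).mono fun t ht => ?_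
    have ht0 : 0 ≤ t := le_of_lt ht
    rw [norm_mul, norm_exp_neg, Complex.norm_real, Real.norm_eq_abs]
    have e1 : 1 + t ≤ (1 + 2 / z.re) * Real.exp (z.re / 2 * t) := by
      have g1 : z.re / 2 * t + 1 ≤ Real.exp (z.re / 2 * t) := Real.add_one_le_exp _
      have g0 : 0 ≤ z.re / 2 * t := by positivity
      have g2 : 1 ≤ Real.exp (z.re / 2 * t) := by linarith
      have g3 : t ≤ 2 / z.re * Real.exp (z.re / 2 * t) := by
        calc t = 2 / z.re * (z.re / 2 * t) := by field_simp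
          _ ≤ _ := by
              gcongr
              linarith
      linarith
    calc |f t| * Real.exp (-(z.re * t)) ≤ (C * (1 + t)) * Real.exp (-(z.re * t)) := by
          gcongr
          exact hfC t ht0
      _ ≤ (C * ((1 + 2 / z.re) * Real.exp (z.re / 2 * t))) * Real.exp (-(z.re * t)) := by
          gcongr
      _ = C * (1 + 2 / z.re) * (Real.exp (z.re / 2 * t) * Real.exp (-(z.re * t))) := by ring
      _ = C * (1 + 2 / z.re) * Real.exp (-(z.re / 2) * t) := by
          rw [← Real.exp_add]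
          congr 2
          ring

/-- the Laplace transform of `t` -/
lemma int_lin {z : ℂ} (hz : 0 < z.re) :
    ∫ t in Ioi (0:ℝ), ((t : ℝ) : ℂ) * Complex.exp (-(z * t)) = 1 / z ^ 2 := by
  have hz0 : z ≠ 0 := by
    intro h
    rw [h] at hz
    simp at hz
  have hd : ∀ t ∈ Ioi (0:ℝ), HasDerivAt (fun t : ℝ => -((t : ℂ) / z + 1 / z ^ 2) *
      Complex.exp (-(z * t))) ((t : ℂ) * Complex.exp (-(z * t))) t := by
    intro t _
    have h1 : HasDerivAt (fun t : ℝ => ((t : ℝ) : ℂ)) 1 t := Complex.ofRealCLM.hasDerivAt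
    have h2 : HasDerivAt (fun t : ℝ => -((t : ℂ) / z + 1 / z ^ 2)) (-(1 / z)) t :=
      ((h1.div_const z).add_const _).neg
    have h3 : HasDerivAt (fun t : ℝ => Complex.exp (-(z * t)))
        (Complex.exp (-(z * t)) * -(z * 1)) t := ((h1.const_mul z).neg).cexp
    have h4 := h2.mul h3
    convert! h4 using 1
    field_simp
    ring
  have hint : IntegrableOn (fun t : ℝ => ((t : ℝ) : ℂ) * Complex.exp (-(z * t))) (Ioi 0) :=
    intOn_lin hz measurable_id (C := 1) zero_le_one (fun t ht => by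
      show |t| ≤ _
      rw [abs_of_nonneg ht]; linarith)
  have hcont : ContinuousWithinAt (fun t : ℝ => -((t : ℂ) / z + 1 / z ^ 2) *
      Complex.exp (-(z * t))) (Ici 0) 0 := by
    apply Continuous.continuousWithinAt
    fun_prop
  have hlim : Tendsto (fun t : ℝ => -((t : ℂ) / z + 1 / z ^ 2) * Complex.exp (-(z * t))) atTop
      (𝓝 0) := by
    rw [tendsto_zero_iff_norm_tendsto_zero]
    have hb : Tendsto (fun t : ℝ => (t * Real.exp (-(z.re * t))) * (1 / ‖z‖) +
        (1 / ‖z‖ ^ 2) * Real.exp (-(z.re * t))) atTop (𝓝 (0 * (1 / ‖z‖) + (1 / ‖z‖ ^ 2) * 0)) := by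
      have k0 : Tendsto (fun t : ℝ => z.re * t) atTop atTop :=
        Tendsto.const_mul_atTop hz tendsto_id
      have k1 : Tendsto (fun t : ℝ => Real.exp (-(z.re * t))) atTop (𝓝 0) :=
        Real.tendsto_exp_neg_atTop_nhds_zero.comp k0
      have k2 : Tendsto (fun t : ℝ => t * Real.exp (-(z.re * t))) atTop (𝓝 0) := by
        have k3 := (Real.tendsto_pow_mul_exp_neg_atTop_nhds_zero 1).comp k0
        have k4 := k3.const_mul (1 / z.re)
        rw [mul_zero] at k4
        refine k4.congr fun t => ?_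
        simp only [Function.comp, pow_one]
        field_simp
      exact (k2.mul_const _).add (k1.const_mul _)
    rw [zero_mul, mul_zero, add_zero] at hb
    refine squeeze_zero' (Eventually.of_forall fun t => norm_nonneg _) ?_ hb
    filter_upwards [eventually_ge_atTop (0:ℝ)] with t ht
    rw [norm_mul, norm_exp_neg, norm_neg]
    have k5 : ‖(t : ℂ) / z + 1 / z ^ 2‖ ≤ t * (1 / ‖z‖) + 1 / ‖z‖ ^ 2 := by
      refine (norm_add_le _ _).trans (le_of_eq ?_)
      rw [norm_div, norm_div, norm_one, norm_pow, Complex.norm_real, Real.norm_eq_abs,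
        abs_of_nonneg ht]
      ring
    calc _ ≤ (t * (1 / ‖z‖) + 1 / ‖z‖ ^ 2) * Real.exp (-(z.re * t)) := by gcongr
      _ = _ := by ring
  rw [integral_Ioi_of_hasDerivAt_of_tendsto hcont hd hint hlim]
  simp

/-- the coefficients -/
noncomputable def bp (a : ℕ → ℝ) (p : ℕ) : ℝ := a p * Real.log p / p

lemma bp_nonneg (ha : ∀ p, 0 ≤ a p) (p : ℕ) : 0 ≤ bp a p :=
  div_nonneg (mul_nonneg (ha p) (Real.log_natCast_nonneg p)) (Nat.cast_nonneg p)

/-- `W (e^t)` as a sum over all primes -/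
lemma W_tsum (t : ℝ) (z : ℂ) (h : ∀ p : ℕ, t ≠ Real.log p) :
    ∑' p : Nat.Primes, (Ioi (Real.log (p : ℕ))).indicator
      (fun t : ℝ => (bp a p : ℂ) * Complex.exp (-(z * t))) t =
      (W a (Real.exp t) : ℂ) * Complex.exp (-(z * t)) := by
  set g : ℕ → ℂ := fun n : ℕ => if n ∈ (Finset.range (⌊Real.exp t⌋₊ + 1)).filter Nat.Prime then
        (bp a n : ℂ) * Complex.exp (-(z * t)) else 0 with hg
  have e1 : ∀ p : Nat.Primes, (Ioi (Real.log (p : ℕ))).indicator
      (fun t : ℝ => (bp a p : ℂ) * Complex.exp (-(z * t))) t = g (p : ℕ) := by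
    intro p
    have hp := p.2
    simp only [hg, Finset.mem_filter, Finset.mem_range, hp, and_true]
    have hp0 : (0:ℝ) < ((p : ℕ) : ℝ) := by exact_mod_cast hp.pos
    have h1 : (p : ℕ) < ⌊Real.exp t⌋₊ + 1 ↔ Real.log (p : ℕ) < t := by
      rw [Nat.lt_succ_iff, Nat.le_floor_iff (Real.exp_pos t).le,
        ← Real.log_le_iff_le_exp hp0]
      constructor
      · intro h2
        exact lt_of_le_of_ne h2 fun h3 => h p h3.symm
      · exact le_of_lt
    by_cases h2 : Real.log (p : ℕ) < t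
    · rw [indicator_of_mem (mem_Ioi.2 h2), if_pos (h1.2 h2)]
    · rw [indicator_of_notMem (fun h3 => h2 (mem_Ioi.1 h3)), if_neg (fun h3 => h2 (h1.1 h3))]
  have e2 : ∑' p : Nat.Primes, g (p : ℕ) = ∑' n : ℕ, Set.indicator {p : ℕ | p.Prime} g n := by
    have e3 := tsum_subtype {p : ℕ | p.Prime} g
    exact e3
  rw [tsum_congr e1, e2, tsum_eq_sum (s := (Finset.range (⌊Real.exp t⌋₊ + 1)).filter Nat.Prime)]
  · unfold W
    push_cast
    rw [Finset.sum_mul]
    refine Finset.sum_congr rfl fun n hn => ?_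
    rw [indicator_of_mem (by exact (Finset.mem_filter.1 hn).2), hg]
    simp only
    rw [if_pos hn]
    unfold bp
    push_cast
    rfl
  · intro n hn
    by_cases h1 : n ∈ {p : ℕ | p.Prime}
    · rw [indicator_of_mem h1, hg]
      simp only
      rw [if_neg hn]
    · rw [indicator_of_notMem h1]

/-- the Laplace transform of one term -/
lemma int_term {z : ℂ} (hz : 0 < z.re) (p : Nat.Primes) :
    IntegrableOn ((Ioi (Real.log (p : ℕ))).indicator
      (fun t : ℝ => (bp a p : ℂ) * Complex.exp (-(z * t)))) (Ioi 0) ∧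
    ∫ t in Ioi (0:ℝ), (Ioi (Real.log (p : ℕ))).indicator
      (fun t : ℝ => (bp a p : ℂ) * Complex.exp (-(z * t))) t =
      (bp a p : ℂ) * ((p : ℂ) ^ (-z) / z) := by
  have hl : 0 ≤ Real.log (p : ℕ) := Real.log_natCast_nonneg _
  have hinter : Ioi (0:ℝ) ∩ Ioi (Real.log (p : ℕ)) = Ioi (Real.log (p : ℕ)) := by
    rw [inter_eq_right]
    exact Ioi_subset_Ioi hl
  constructor
  · have h1 : IntegrableOn (fun t : ℝ => (bp a p : ℂ) * Complex.exp (-(z * t)))
        (Ioi (Real.log (p : ℕ))) := (intOn_exp hz _).const_mul _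
    exact ((integrable_indicator_iff measurableSet_Ioi).2 h1).integrableOn
  · rw [setIntegral_indicator measurableSet_Ioi, hinter, integral_const_mul, int_exp hz]
    congr 2
    have hp0 : ((p : ℕ) : ℂ) ≠ 0 := by
      exact_mod_cast p.2.ne_zero
    rw [Complex.cpow_def_of_ne_zero hp0, Complex.natCast_log]
    congr 1
    ring

/-- the Laplace transform of the norm of one term -/
lemma int_term_norm (ha : ∀ p, 0 ≤ a p) {z : ℂ} (hz : 0 < z.re) (p : Nat.Primes) :
    ∫ t in Ioi (0:ℝ), ‖(Ioi (Real.log (p : ℕ))).indicator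
      (fun t : ℝ => (bp a p : ℂ) * Complex.exp (-(z * t))) t‖ =
      bp a p * ((p : ℝ) ^ (-z.re) / z.re) := by
  have hl : 0 ≤ Real.log (p : ℕ) := Real.log_natCast_nonneg _
  have hinter : Ioi (0:ℝ) ∩ Ioi (Real.log (p : ℕ)) = Ioi (Real.log (p : ℕ)) := by
    rw [inter_eq_right]
    exact Ioi_subset_Ioi hl
  have e1 : ∀ t : ℝ, ‖(Ioi (Real.log (p : ℕ))).indicator
      (fun t : ℝ => (bp a p : ℂ) * Complex.exp (-(z * t))) t‖ =
      (Ioi (Real.log (p : ℕ))).indicator (fun t : ℝ => bp a p * Real.exp (-z.re * t)) t := by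
    intro t
    rw [norm_indicator_eq_indicator_norm]
    congr 1
    funext t
    rw [norm_mul, norm_exp_neg, Complex.norm_real, Real.norm_eq_abs,
      abs_of_nonneg (bp_nonneg ha p), neg_mul]
  simp_rw [e1]
  rw [setIntegral_indicator measurableSet_Ioi, hinter, integral_const_mul,
    integral_exp_mul_Ioi (by linarith : -z.re < 0), neg_div_neg_eq]
  congr 2
  have hp0 : (0:ℝ) < ((p : ℕ) : ℝ) := by exact_mod_cast p.2.pos
  rw [Real.rpow_def_of_pos hp0]
  congr 1
  ring

/-- summability -/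
lemma summable_bp (ha : ∀ p, 0 ≤ a p) (ha4 : ∀ p, a p ≤ 4) {σ : ℝ} (hσ : 0 < σ) :
    Summable fun p : Nat.Primes => bp a p * ((p : ℝ) ^ (-σ) / σ) := by
  have h1 : Summable fun n : ℕ => (8 / σ ^ 2) * (1 / (n : ℝ) ^ (1 + σ / 2)) :=
    (Real.summable_one_div_nat_rpow.2 (by linarith)).mul_left _
  have h2 : Summable fun p : Nat.Primes => (8 / σ ^ 2) * (1 / ((p : ℕ) : ℝ) ^ (1 + σ / 2)) :=
    h1.comp_injective Subtype.val_injective
  refine Summable.of_nonneg_of_le (fun p => ?_) (fun p => ?_) h2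
  · exact mul_nonneg (bp_nonneg ha p) (by positivity)
  · have hp0 : (0:ℝ) < ((p : ℕ) : ℝ) := by exact_mod_cast p.2.pos
    have hlog : Real.log (p : ℕ) ≤ ((p : ℕ) : ℝ) ^ (σ / 2) / (σ / 2) :=
      Real.log_le_rpow_div hp0.le (by positivity)
    unfold bp
    calc a p * Real.log (p : ℕ) / (p : ℕ) * (((p : ℕ) : ℝ) ^ (-σ) / σ)
        ≤ 4 * (((p : ℕ) : ℝ) ^ (σ / 2) / (σ / 2)) / (p : ℕ) * (((p : ℕ) : ℝ) ^ (-σ) / σ) := by
          gcongr
          · exact ha4 p
      _ = (8 / σ ^ 2) * ((((p : ℕ) : ℝ) ^ (σ / 2) * ((p : ℕ) : ℝ) ^ (-σ)) / (p : ℕ)) := by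
          field_simp
          ring
      _ = (8 / σ ^ 2) * (1 / ((p : ℕ) : ℝ) ^ (1 + σ / 2)) := by
          congr 1
          rw [← Real.rpow_add hp0, Real.rpow_add hp0 1 (σ / 2), Real.rpow_one,
            show σ / 2 + -σ = -(σ / 2) by ring, Real.rpow_neg hp0.le]
          field_simp

/-- the Laplace transform of `W (e^t)` -/
lemma int_W (ha : ∀ p, 0 ≤ a p) (ha4 : ∀ p, a p ≤ 4) {z : ℂ} (hz : 0 < z.re) :
    ∫ t in Ioi (0:ℝ), (W a (Real.exp t) : ℂ) * Complex.exp (-(z * t)) =
      (∑' p : Nat.Primes, ((a p * Real.log p : ℝ) : ℂ) * (p : ℂ) ^ (-(1 + z))) / z := by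
  have h1 := hasSum_integral_of_summable_integral_norm
    (μ := volume.restrict (Ioi (0:ℝ)))
    (F := fun (p : Nat.Primes) (t : ℝ) => (Ioi (Real.log (p : ℕ))).indicator
      (fun t : ℝ => (bp a p : ℂ) * Complex.exp (-(z * t))) t)
    (fun p => (int_term hz p).1)
    (by
      refine (summable_bp ha ha4 hz).congr fun p => ?_
      exact (int_term_norm ha hz p).symm)
  have h2 : ∫ t in Ioi (0:ℝ), (W a (Real.exp t) : ℂ) * Complex.exp (-(z * t)) =
      ∫ t in Ioi (0:ℝ), ∑' p : Nat.Primes, (Ioi (Real.log (p : ℕ))).indicator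
        (fun t : ℝ => (bp a p : ℂ) * Complex.exp (-(z * t))) t := by
    refine integral_congr_ae ?_
    have hcount : (range fun p : ℕ => Real.log p).Countable := countable_range _
    have h3 : ∀ᵐ t : ℝ, t ∉ range fun p : ℕ => Real.log p :=
      measure_eq_zero_iff_ae_notMem.1 (hcount.measure_zero volume)
    refine ae_restrict_of_ae (h3.mono fun t ht => ?_)
    exact (W_tsum t z fun p hp => ht ⟨p, hp.symm⟩).symm
  rw [h2, ← h1.tsum_eq, tsum_div_const.symm]
  refine tsum_congr fun p => ?_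
  rw [(int_term hz p).2]
  have hp0 : ((p : ℕ) : ℂ) ≠ 0 := by exact_mod_cast p.2.ne_zero
  unfold bp
  rw [neg_add, Complex.cpow_add _ _ hp0, Complex.cpow_neg_one]
  push_cast
  field_simp

end Mert

/-- **RS2-12** -/
theorem t_mert (h : S_taub) : S_mert := by
  intro a A ha ha4 hA hsum
  set A1 : ℝ := (A 1).re with hA1
  obtain ⟨C, hC0, hC⟩ := Mert.S_bound ha ha4 A1
  have hA1im : (A 1).im = 0 := by
    have h1 : ∀ s : ℝ, 1 < s → (A s).im = 0 := by
      intro s hs
      have h2 := hsum (s : ℂ) (by simpa using hs)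
      have h3 : ∑' p : Nat.Primes, ((a p * Real.log p : ℝ) : ℂ) * (p : ℂ) ^ (-(s : ℂ)) =
          ((∑' p : Nat.Primes, (a p * Real.log p) * (p : ℝ) ^ (-s) : ℝ) : ℂ) := by
        rw [Complex.ofReal_tsum]
        refine tsum_congr fun p => ?_
        have e5 : ((((p : ℕ) : ℝ) ^ (-s) : ℝ) : ℂ) = ((p : ℕ) : ℂ) ^ (-(s : ℂ)) := by
          rw [Complex.ofReal_cpow (Nat.cast_nonneg _)]
          push_cast
          rfl
        rw [Complex.ofReal_mul (a p * Real.log p) (((p : ℕ) : ℝ) ^ (-s)), e5]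
      rw [h3] at h2
      have h4 : A s = ((∑' p : Nat.Primes, (a p * Real.log p) * (p : ℝ) ^ (-s)) -
          1 / (s - 1) : ℝ) := by
        push_cast at h2 ⊢
        rw [h2]
        ring
      rw [h4]
      exact Complex.ofReal_im _
    have h5 : Tendsto (fun n : ℕ => (A ((1 + 1 / ((n : ℝ) + 1) : ℝ) : ℂ)).im) atTop
        (𝓝 (A 1).im) := by
      have h6 : Tendsto (fun n : ℕ => ((1 + 1 / ((n : ℝ) + 1) : ℝ) : ℂ)) atTop (𝓝 1) := by
        have h7 : Tendsto (fun n : ℕ => (1 + 1 / ((n : ℝ) + 1) : ℝ)) atTop (𝓝 (1 + 0)) :=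
          tendsto_const_nhds.add tendsto_one_div_add_atTop_nhds_zero_nat
        rw [add_zero] at h7
        have h8 := (Complex.continuous_ofReal.tendsto 1).comp h7
        rw [Complex.ofReal_one] at h8
        exact h8
      exact (Complex.continuous_im.tendsto _).comp
        (((hA 1 (by simp)).continuousAt.tendsto).comp h6)
    refine tendsto_nhds_unique h5 ?_
    refine tendsto_const_nhds.congr fun n => ?_
    rw [h1 _ (by
      have : (0:ℝ) < 1 / ((n : ℝ) + 1) := by positivity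
      linarith)]
  have hA1' : ((A1 : ℝ) : ℂ) = A 1 := by
    apply Complex.ext
    · simp [hA1]
    · simp [hA1im]
  set f : ℂ → ℂ := fun z => A (1 + z) with hf
  have hfd : ∀ z : ℂ, 0 ≤ z.re → AnalyticAt ℂ f z := by
    intro z hz
    have h1 : AnalyticAt ℂ A (1 + z) := hA _ (by simpa using hz)
    exact h1.comp (f := fun z : ℂ => 1 + z) (by fun_prop)
  have hG : ContinuousOn (dslope f 0) {z : ℂ | 0 ≤ z.re} := by
    intro z hz
    apply ContinuousAt.continuousWithinAt
    rcases eq_or_ne z 0 with h0 | h0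
    · rw [h0]
      exact continuousAt_dslope_same.2 (hfd 0 (by simp)).differentiableAt
    · exact (continuousAt_dslope_of_ne h0).2 (hfd z hz).continuousAt
  have hlap : ∀ z : ℂ, 0 < z.re → ∫ t in Ioi (0 : ℝ),
      ((Mert.W a (Real.exp t) - t - A1 : ℝ) : ℂ) * Complex.exp (-(z * t)) = dslope f 0 z := by
    intro z hz
    have hz0 : z ≠ 0 := by
      intro h0
      rw [h0] at hz
      simp at hz
    rw [dslope_of_ne _ hz0, slope_def_field]
    obtain ⟨C', hC'0, hC'⟩ := Mert.S_bound ha ha4 0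
    have i1 : IntegrableOn (fun t : ℝ => (t : ℂ) * Complex.exp (-(z * t))) (Ioi 0) :=
      Mert.intOn_lin hz measurable_id (C := 1) zero_le_one (fun t ht => by
        show |t| ≤ _
        rw [abs_of_nonneg ht]; linarith)
    have i2 : IntegrableOn (fun t : ℝ => ((Mert.W a (Real.exp t) - t - 0 : ℝ) : ℂ) *
        Complex.exp (-(z * t))) (Ioi 0) := Mert.intOn_lin hz (Mert.S_meas ha 0) hC'0 hC'
    have i3 : IntegrableOn (fun t : ℝ => (Mert.W a (Real.exp t) : ℂ) * Complex.exp (-(z * t)))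
        (Ioi 0) := by
      refine (i2.add i1).congr_fun_ae (Eventually.of_forall fun t => ?_)
      simp only [Pi.add_apply]
      push_cast
      ring
    have i4 := Mert.intOn_exp hz 0
    have e1 : ∀ t : ℝ, ((Mert.W a (Real.exp t) - t - A1 : ℝ) : ℂ) * Complex.exp (-(z * t)) =
        (Mert.W a (Real.exp t) : ℂ) * Complex.exp (-(z * t)) - (t : ℂ) * Complex.exp (-(z * t)) -
          (A1 : ℂ) * Complex.exp (-(z * t)) := by
      intro t
      push_cast
      ring
    have i5 : IntegrableOn (fun t : ℝ => (Mert.W a (Real.exp t) : ℂ) * Complex.exp (-(z * t)) -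
        (t : ℂ) * Complex.exp (-(z * t))) (Ioi 0) := i3.sub i1
    simp_rw [e1]
    rw [integral_sub i5 (i4.const_mul _), integral_sub i3 i1, integral_const_mul,
      Mert.int_exp hz, Mert.int_lin hz, Mert.int_W ha ha4 hz, hsum (1 + z) (by simpa using hz),
      hA1']
    simp only [hf]
    rw [add_sub_cancel_left, Complex.ofReal_zero, mul_zero, neg_zero, Complex.exp_zero, add_zero,
      sub_zero]
    field_simp
    ring
  have hosc : ∀ ε > 0, ∃ δ > 0, ∃ T, ∀ t u, T ≤ t → 0 ≤ u → u ≤ δ →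
      |(Mert.W a (Real.exp (t + u)) - (t + u) - A1) - (Mert.W a (Real.exp t) - t - A1)| ≤ ε := by
    intro ε hε
    obtain ⟨δ, hδ, T, _, hT⟩ := Mert.W_osc ha ha4 hε
    refine ⟨δ, hδ, T, fun t u h1 h2 h3 => ?_⟩
    have := hT t u h1 h2 h3
    rwa [sub_sub_sub_cancel_right]
  have hlim := h (fun t => Mert.W a (Real.exp t) - t - A1) C (dslope f 0) (Mert.S_meas ha A1) hC
    hosc hG hlap
  refine ⟨A1, ?_⟩
  have h2 := (hlim.comp Real.tendsto_log_atTop).add_const A1
  rw [zero_add] at h2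
  refine h2.congr' ?_
  filter_upwards [eventually_gt_atTop (0:ℝ)] with x hx
  simp only [Function.comp, Real.exp_log hx]
  unfold Mert.W
  ring

end Pool.Agent.NH98.RS2
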