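import Mathlib
import Pool.Agent.NH98.RS2.StmT

/-! Analytic dependence of integrals on a parameter. -/

set_option autoImplicit false

namespace Pool.Agent.NH98.RS2

open MeasureTheory Filter Topology Metric

theorem t_par : S_par := by
  intro α _ μ U F hU hF hmeas hdom s hs
  obtain ⟨r, hr, g, hg, hle⟩ := hdom s hs
  obtain ⟨ρ', hρ', hball⟩ := Metric.isOpen_iff.1 hU s hs
  -- a radius `ρ` with `ball s (2 * ρ)` in `U` and `2 * ρ ≤ r`
  set ρ : ℝ := min r ρ' / 2 with hρdef
  have hρ : 0 < ρ := by
    have := lt_min hr hρ'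
    positivity
  have h2ρr : 2 * ρ ≤ r := by
    rw [hρdef]; linarith [min_le_left r ρ']
  have h2ρρ : 2 * ρ ≤ ρ' := by
    rw [hρdef]; linarith [min_le_right r ρ']
  -- closed balls of radius `ρ / 2` around points of `ball s ρ`
  have hsub : ∀ z ∈ ball s ρ, ∀ w, dist w z ≤ ρ / 2 → w ∈ U ∧ dist w s < r := by
    intro z hz w hw
    have h1 : dist z s < ρ := mem_ball.1 hz
    have h2 : dist w s < 2 * ρ := by
      have := dist_triangle w z s
      linarith
    exact ⟨hball (mem_ball.2 (by linarith)), by linarith⟩
  have hderiv : ∀ x, ∀ z ∈ ball s ρ, HasDerivAt (fun w => F w x) (deriv (fun w => F w x) z) z := by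
    intro x z hz
    have hzU : z ∈ U := (hsub z hz z (by rw [dist_self]; positivity)).1
    exact ((hF x).differentiableAt (hU.mem_nhds hzU)).hasDerivAt
  have hbound : ∀ x, ∀ z ∈ ball s ρ, ‖deriv (fun w => F w x) z‖ ≤ g x / (ρ / 2) := by
    intro x z hz
    apply Complex.norm_deriv_le_of_forall_mem_sphere_norm_le (by positivity)
    · apply DifferentiableOn.diffContOnCl
      apply (hF x).mono
      intro w hw
      have hw' : w ∈ closedBall z (ρ / 2) := closure_ball_subset_closedBall hw
      exact (hsub z hz w (mem_closedBall.1 hw')).1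
    · intro w hw
      obtain ⟨h1, h2⟩ := hsub z hz w (mem_sphere.1 hw).le
      exact hle w h1 h2 x
  have hint : Integrable (F s) μ := by
    apply hg.mono' (hmeas s hs)
    filter_upwards with x
    exact hle s hs (by rw [dist_self]; exact hr) x
  -- measurability of the derivative
  have hmeas' : AEStronglyMeasurable (fun x => deriv (fun w => F w x) s) μ := by
    -- the difference quotients
    let h : ℕ → ℂ := fun n => ((1 / ((n : ℝ) + 1) : ℝ) : ℂ)
    have hh : Tendsto h atTop (𝓝[≠] 0) := by
      apply tendsto_nhdsWithin_iff.2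
      constructor
      · have := (Complex.continuous_ofReal.tendsto 0).comp
          (tendsto_one_div_add_atTop_nhds_zero_nat (𝕜 := ℝ))
        simpa [h, Function.comp_def] using this
      · filter_upwards with n
        have : (1 / ((n : ℝ) + 1) : ℝ) ≠ 0 := by positivity
        show ((1 / ((n : ℝ) + 1) : ℝ) : ℂ) ∈ ({0}ᶜ : Set ℂ)
        rw [Set.mem_compl_singleton_iff]
        exact_mod_cast this
    have hev : ∀ᶠ n in atTop, s + h n ∈ U := by
      have h0 : Tendsto (fun n => s + h n) atTop (𝓝 (s + 0)) :=
        (tendsto_nhds_of_tendsto_nhdsWithin hh).const_add s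
      rw [add_zero] at h0
      exact h0.eventually (hU.mem_nhds hs)
    obtain ⟨N, hN⟩ := eventually_atTop.1 hev
    have hlim : ∀ x, Tendsto (fun n => (h (n + N))⁻¹ • (F (s + h (n + N)) x - F s x)) atTop
        (𝓝 (deriv (fun w => F w x) s)) := by
      intro x
      have h1 := (hderiv x s (mem_ball_self hρ)).tendsto_slope_zero
      exact h1.comp (hh.comp (tendsto_add_atTop_nat N))
    refine aestronglyMeasurable_of_tendsto_ae atTop
      (f := fun n x => (h (n + N))⁻¹ • (F (s + h (n + N)) x - F s x)) ?_ ?_
    · intro n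
      have h3 : AEStronglyMeasurable (fun x => F (s + h (n + N)) x - F s x) μ :=
        (hmeas _ (hN (n + N) (by omega))).sub (hmeas s hs)
      exact h3.const_smul ((h (n + N))⁻¹)
    · filter_upwards with x
      exact hlim x
  have key := hasDerivAt_integral_of_dominated_loc_of_deriv_le (μ := μ) (F := F)
    (F' := fun z x => deriv (fun w => F w x) z) (x₀ := s) (s := ball s ρ)
    (bound := fun x => g x / (ρ / 2)) (ball_mem_nhds s hρ) ?_ hint hmeas' ?_ ?_ ?_
  · exact key.2.differentiableAt.differentiableWithinAt
  · filter_upwards [hU.mem_nhds hs] with z hz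
    exact hmeas z hz
  · filter_upwards with x
    exact hbound x
  · exact hg.div_const _
  · filter_upwards with x
    exact hderiv x

end Pool.Agent.NH98.RS2
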