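import Pool.Agent.NH98.RS2.Stm
import Pool.Agent.NH98.RS2.StmT
import Pool.Agent.TH270.MS.EQ2

/-! # The theorem of Rankin and Selberg for the primes with the error term `o(1 / log x)` -/

set_option autoImplicit false

open Filter Topology Set
open Pool.Agent.W263.BSD (GoodPrime pointCount bsdProduct bsdStar bsdProduct_pos)
open Pool.Agent.TH941 (gg gg_nonneg Hecke Belongs)
open Pool.Agent.W165.RS (ac)
open Pool.Agent.Y722.RS (S2)

namespace Pool.Agent.NH98.RS2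

open Classical in
/-- `|c(p)|² / p` on the primes -/
noncomputable def aF {N : ℕ} (f : S2 N) (p : ℕ) : ℝ := if p.Prime then gg f p else 0

theorem aF_nonneg {N : ℕ} (f : S2 N) (p : ℕ) : 0 ≤ aF f p := by
  unfold aF
  split_ifs
  · exact gg_nonneg f p
  · exact le_rfl

theorem aF_le {N : ℕ} [NeZero N] {f : S2 N} (hf : Hecke f) (p : ℕ) : aF f p ≤ 4 := by
  unfold aF
  split_ifs with hp
  · have hp0 : (0 : ℝ) < p := by exact_mod_cast hp.pos
    unfold gg
    rw [div_le_iff₀ hp0]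
    by_cases h : p ∣ N
    · have h1 := hf.bad p hp h
      have h2 : ‖ac f p‖ ^ 2 ≤ 1 := pow_le_one₀ (norm_nonneg _) h1
      have h3 : (2 : ℝ) ≤ p := by exact_mod_cast hp.two_le
      linarith
    · have h1 := hf.good p hp h
      calc ‖ac f p‖ ^ 2 ≤ (2 * Real.sqrt p) ^ 2 := pow_le_pow_left₀ (norm_nonneg _) h1 2
        _ = 4 * p := by rw [mul_pow, Real.sq_sqrt hp0.le]; norm_num
  · norm_num

variable {a b : ℤ} {N : ℕ} [NeZero N] {f : S2 N}

theorem half_one (h2 : S_mert) (h3 : S_half) (h4 : S_zeta) :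
    Tendsto (fun x : ℝ => Real.log x * (∑ p ∈ (Finset.range (⌊x⌋₊ + 1)).filter
    (fun p : ℕ => p.Prime ∧ √x < (p : ℝ)), (1 : ℝ) / p - Real.log 2)) atTop (𝓝 0) := by
  obtain ⟨A, k1, k2⟩ := h4
  obtain ⟨c, hc⟩ := h2 (fun _ => 1) A (fun _ => zero_le_one) (fun _ => by norm_num) k1 k2
  exact h3 (fun _ => 1) c hc

theorem half_aF (h1 : S_log) (h2 : S_mert) (h3 : S_half) (hf : Hecke f) :
    Tendsto (fun x : ℝ => Real.log x * (∑ p ∈ (Finset.range (⌊x⌋₊ + 1)).filter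
    (fun p : ℕ => p.Prime ∧ √x < (p : ℝ)), aF f p / p - Real.log 2)) atTop (𝓝 0) := by
  obtain ⟨A, k1, k2⟩ := h1 N f hf
  obtain ⟨c, hc⟩ := h2 (aF f) A (aF_nonneg f) (aF_le hf) k1 (fun s hs => by
    rw [← k2 s hs]
    refine tsum_congr fun p => ?_
    have : aF f (p : ℕ) = gg f p := if_pos p.2
    rw [this])
  exact h3 (aF f) c hc

theorem good_of_large (hΔ : 4 * a ^ 3 + 27 * b ^ 2 ≠ 0) :
    ∀ᶠ x : ℝ in atTop, ∀ p : ℕ, p.Prime → √x < p → GoodPrime a b p := by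
  have h0 : 2 * (-4 * a ^ 3 - 27 * b ^ 2) ≠ 0 := by
    intro h
    apply hΔ
    linarith
  set D : ℤ := 2 * (-4 * a ^ 3 - 27 * b ^ 2) with hD
  filter_upwards [eventually_ge_atTop (((D.natAbs : ℝ)) ^ 2)] with x hx p hp hpx
  refine ⟨hp, fun hdvd => ?_⟩
  have h1 : (D.natAbs : ℝ) ≤ √x := by
    rw [← Real.sqrt_sq (Nat.cast_nonneg D.natAbs)]
    exact Real.sqrt_le_sqrt hx
  have h2 : p ∣ D.natAbs := Int.natCast_dvd.1 hdvd
  have h3 : p ≤ D.natAbs := Nat.le_of_dvd (Int.natAbs_pos.2 h0) h2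
  have h4 : (p : ℝ) ≤ D.natAbs := by exact_mod_cast h3
  linarith

omit [NeZero N] in
theorem term_good (hb : Belongs a b f) {p : ℕ} (hp : GoodPrime a b p) :
    (((p : ℝ) - pointCount a b p) ^ 2 - 2 * p) / (2 * (p : ℝ) ^ 2) = 1 / 2 * (aF f p / p) - 1 / p := by
  have hp0 : (0 : ℝ) < p := by exact_mod_cast hp.1.pos
  have h1 : aF f p = gg f p := if_pos hp.1
  have h2 : ‖ac f p‖ ^ 2 = ((p : ℝ) - pointCount a b p) ^ 2 := by
    rw [hb p hp]
    have e : ((p : ℂ) - (pointCount a b p : ℂ)) = (((p : ℝ) - pointCount a b p : ℝ) : ℂ) := by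
      push_cast; rfl
    rw [e, Complex.norm_real, Real.norm_eq_abs, sq_abs]
  rw [h1]
  unfold gg
  rw [h2]
  field_simp

/-- **The correction between primes and prime powers, with the error term `o(1 / log x)`.** -/
theorem rate (h1 : S_log) (h2 : S_mert) (h3 : S_half) (h4 : S_zeta)
    (hΔ : 4 * a ^ 3 + 27 * b ^ 2 ≠ 0) (hf : Hecke f) (hb : Belongs a b f) :
    Tendsto (fun x : ℝ => Real.log x * (Real.log (bsdStar a b x) - Real.log (bsdProduct a b x) +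
      Real.log 2 / 2)) atTop (𝓝 0) := by
  classical
  have k1 := (half_aF h1 h2 h3 hf).const_mul (1 / 2)
  have k2 := half_one h2 h3 h4
  have k3 := k1.sub k2
  rw [mul_zero, sub_zero] at k3
  refine k3.congr' ?_
  filter_upwards [good_of_large hΔ] with x hx
  have e1 : Real.log (bsdStar a b x) - Real.log (bsdProduct a b x) =
      ∑ p ∈ (Finset.range (⌊x⌋₊ + 1)).filter (fun p => GoodPrime a b p ∧ √x < p),
        (((p : ℝ) - pointCount a b p) ^ 2 - 2 * p) / (2 * (p : ℝ) ^ 2) := by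
    unfold bsdStar
    rw [Real.log_mul (bsdProduct_pos x).ne' (Real.exp_pos _).ne', Real.log_exp, add_sub_cancel_left]
  have e2 : (Finset.range (⌊x⌋₊ + 1)).filter (fun p => GoodPrime a b p ∧ √x < p) =
      (Finset.range (⌊x⌋₊ + 1)).filter (fun p : ℕ => p.Prime ∧ √x < (p : ℝ)) := by
    ext p
    simp only [Finset.mem_filter]
    constructor
    · rintro ⟨q1, q2, q3⟩
      exact ⟨q1, q2.1, q3⟩
    · rintro ⟨q1, q2, q3⟩
      exact ⟨q1, hx p q2 q3, q3⟩
  have e3 : ∑ p ∈ (Finset.range (⌊x⌋₊ + 1)).filter (fun p : ℕ => p.Prime ∧ √x < (p : ℝ)),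
      (((p : ℝ) - pointCount a b p) ^ 2 - 2 * p) / (2 * (p : ℝ) ^ 2) =
      1 / 2 * (∑ p ∈ (Finset.range (⌊x⌋₊ + 1)).filter (fun p : ℕ => p.Prime ∧ √x < (p : ℝ)), aF f p / p) -
      ∑ p ∈ (Finset.range (⌊x⌋₊ + 1)).filter (fun p : ℕ => p.Prime ∧ √x < (p : ℝ)), (1 : ℝ) / p := by
    rw [Finset.mul_sum, ← Finset.sum_sub_distrib]
    refine Finset.sum_congr rfl fun p hp => ?_
    rw [Finset.mem_filter] at hp
    exact term_good hb (hx p hp.2.1 hp.2.2)
  rw [e1, e2, e3]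
  ring

end Pool.Agent.NH98.RS2
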