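import Pool.Agent.NH98.RS2.Stm

/-! Project RS2, job RS2-3 (helper2): the remainder of the lattice sums. -/

set_option autoImplicit false

namespace Pool.Agent.NH98.RS2

open MeasureTheory Filter Topology UpperHalfPlane
open Pool.Agent.Y149.CR (BC kk am norm_cpow_real)

noncomputable section

namespace Rem

variable {N : ℕ} [NeZero N]

/-- the sum over a line minus its main term -/
theorem bound (h : S_line) (a b : ZMod N) (w : ℍ) {s : ℂ} (hs : 1 / 2 < s.re) (m : ℤ) :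
    ‖Rm a b w s m‖ ≤ 2 * ‖s‖ / s.re * w.im ^ (-s.re) * |(m:ℝ)| ^ (-(2 * s.re)) := by
  have hy := w.im_pos
  have hs0 : 0 < s.re := by linarith
  unfold Rm
  split_ifs with hm
  swap
  · rw [norm_zero]; positivity
  obtain ⟨hm0, hma⟩ := hm
  have hm1 : (0:ℝ) < |(m:ℝ)| := by positivity
  have hα : 0 < |(m:ℝ)| * w.im := mul_pos hm1 hy
  have hN : (0:ℝ) < N := by exact_mod_cast Nat.pos_of_ne_zero (NeZero.ne N)
  obtain ⟨h1, h2⟩ := h.2.1 s N (|(m:ℝ)| * w.im) (m * w.re + (b.val : ℝ)) hs hN hα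
  have e1 : kk N w s * am a s m = (w.im : ℂ) ^ s * ((((N : ℝ)⁻¹ : ℝ) : ℂ) *
      ((|(m:ℝ)| * w.im : ℝ) : ℂ) ^ (1 - 2 * s) * BC s) := by
    unfold kk am
    rw [if_pos ⟨hm0, hma⟩, Complex.ofReal_mul, Complex.mul_cpow_ofReal_nonneg hm1.le hy.le]
    ring
  rw [e1, ← mul_sub, norm_mul, norm_cpow_real hy]
  refine (mul_le_mul_of_nonneg_left h2 (by positivity)).trans ?_
  have e2 : w.im ^ s.re * w.im ^ (-(2 * s.re)) = w.im ^ (-s.re) := by
    rw [← Real.rpow_add hy]; congr 1; ring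
  refine le_of_eq ?_
  calc w.im ^ s.re * (2 * ‖s‖ / s.re * (|(m:ℝ)| * w.im) ^ (-(2 * s.re)))
      = 2 * ‖s‖ / s.re * (w.im ^ s.re * w.im ^ (-(2 * s.re))) * |(m:ℝ)| ^ (-(2 * s.re)) := by
        rw [Real.mul_rpow hm1.le hy.le]; ring
    _ = _ := by rw [e2]

theorem rpow_mono {m : ℤ} {σ0 σ : ℝ} (h0 : 0 < σ0) (h : σ0 ≤ σ) :
    |(m:ℝ)| ^ (-(2 * σ)) ≤ |(m:ℝ)| ^ (-(2 * σ0)) := by
  by_cases hm : m = 0
  · subst hm
    rw [Int.cast_zero, abs_zero, Real.zero_rpow (by linarith), Real.zero_rpow (by linarith)]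
  · have h1 : (1:ℝ) ≤ |(m:ℝ)| := by
      have : (1:ℤ) ≤ |m| := Int.one_le_abs hm
      exact_mod_cast this
    exact Real.rpow_le_rpow_of_exponent_le h1 (by linarith)

theorem summable_pow {σ0 : ℝ} (h : 1 / 2 < σ0) : Summable (fun m : ℤ => |(m:ℝ)| ^ (-(2 * σ0))) :=
  Real.summable_abs_int_rpow (by linarith)

theorem summable_Rm (h : S_line) (a b : ZMod N) (w : ℍ) {s : ℂ} (hs : 1 / 2 < s.re) :
    Summable fun m => ‖Rm a b w s m‖ :=
  Summable.of_nonneg_of_le (fun _ => norm_nonneg _) (bound h a b w hs)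
    ((summable_pow hs).mul_left _)

theorem im_pow_le {y σ0 σ B : ℝ} (hy : 0 < y) (h1 : σ0 ≤ σ) (h2 : σ ≤ B) :
    y ^ (-σ) ≤ y ^ (-σ0) + y ^ (-B) := by
  have p1 : 0 < y ^ (-σ0) := by positivity
  have p2 : 0 < y ^ (-B) := by positivity
  rcases le_total 1 y with hy1 | hy1
  · have := Real.rpow_le_rpow_of_exponent_le hy1 (neg_le_neg h1)
    linarith
  · have := Real.rpow_le_rpow_of_exponent_ge hy hy1 (neg_le_neg h2)
    linarith

/-- one term is analytic -/
theorem diff_Rm (h : S_line) (a b : ZMod N) (w : ℍ) (m : ℤ) :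
    DifferentiableOn ℂ (fun s => Rm a b w s m) {s : ℂ | 1 / 2 < s.re} := by
  have hy := w.im_pos
  have hy' : (w.im : ℂ) ≠ 0 := by exact_mod_cast hy.ne'
  unfold Rm
  by_cases hm : m ≠ 0 ∧ (m : ZMod N) = a
  swap
  · simp only [if_neg hm]
    exact differentiableOn_const 0
  simp only [if_pos hm]
  have hm1 : (0:ℝ) < |(m:ℝ)| := by
    have := hm.1
    positivity
  have hm1' : ((|(m:ℝ)| : ℝ) : ℂ) ≠ 0 := by exact_mod_cast hm1.ne'
  have hα : 0 < |(m:ℝ)| * w.im := mul_pos hm1 hy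
  have hN : (0:ℝ) < N := by exact_mod_cast Nat.pos_of_ne_zero (NeZero.ne N)
  have hline := h.2.2 N (|(m:ℝ)| * w.im) (m * w.re + (b.val : ℝ)) hN hα
  have c1 : DifferentiableOn ℂ (fun s : ℂ => (w.im : ℂ) ^ s) {s : ℂ | 1 / 2 < s.re} :=
    fun s _ => (DifferentiableAt.const_cpow differentiableAt_id (Or.inl hy')).differentiableWithinAt
  have c2 : DifferentiableOn ℂ (fun s : ℂ => (w.im : ℂ) ^ (1 - 2 * s)) {s : ℂ | 1 / 2 < s.re} :=
    fun s _ => (DifferentiableAt.const_cpow (by fun_prop) (Or.inl hy')).differentiableWithinAt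
  have c3 : DifferentiableOn ℂ (fun s : ℂ => ((|(m:ℝ)| : ℝ) : ℂ) ^ (1 - 2 * s))
      {s : ℂ | 1 / 2 < s.re} :=
    fun s _ => (DifferentiableAt.const_cpow (by fun_prop) (Or.inl hm1')).differentiableWithinAt
  unfold kk am
  simp only [if_pos hm]
  refine (c1.mul hline).sub (DifferentiableOn.mul ?_ c3)
  exact ((c1.mul_const _).mul c2).mul h.1

theorem diff (h : S_line) (a b : ZMod N) (w : ℍ) :
    DifferentiableOn ℂ (fun s => ∑' m, Rm a b w s m) {s : ℂ | 1 / 2 < s.re} := by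
  intro s₀ hs₀
  have hs₀' : 1 / 2 < s₀.re := hs₀
  have hy := w.im_pos
  obtain ⟨σ0, h1, h2⟩ := exists_between hs₀'
  obtain ⟨B, hB⟩ : ∃ B : ℝ, B = ‖s₀‖ + 1 := ⟨_, rfl⟩
  have hU : IsOpen {s : ℂ | σ0 < s.re ∧ ‖s‖ < B} :=
    (isOpen_lt continuous_const Complex.continuous_re).inter
      (isOpen_lt continuous_norm continuous_const)
  have hsub : {s : ℂ | σ0 < s.re ∧ ‖s‖ < B} ⊆ {s : ℂ | 1 / 2 < s.re} :=
    fun s hs => lt_trans h1 hs.1
  have hmem : s₀ ∈ {s : ℂ | σ0 < s.re ∧ ‖s‖ < B} := ⟨h2, by rw [hB]; linarith⟩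
  have hB0 : 0 < B := by rw [hB]; positivity
  have key : DifferentiableOn ℂ (fun s => ∑' m, Rm a b w s m) {s : ℂ | σ0 < s.re ∧ ‖s‖ < B} := by
    refine Complex.differentiableOn_tsum_of_summable_norm
      (u := fun m : ℤ => 2 * B / σ0 * (w.im ^ (-σ0) + w.im ^ (-B)) * |(m:ℝ)| ^ (-(2 * σ0)))
      ((summable_pow h1).mul_left _) (fun m => (diff_Rm h a b w m).mono hsub) hU ?_
    intro m s hs
    have hsr : 1 / 2 < s.re := hsub hs
    have hle : s.re ≤ B := (Complex.re_le_norm s).trans hs.2.le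
    refine (bound h a b w hsr m).trans ?_
    have i1 : 2 * ‖s‖ / s.re ≤ 2 * B / σ0 := by
      refine div_le_div₀ (by positivity) (by linarith [hs.2]) (by linarith) hs.1.le
    have i2 := im_pow_le hy hs.1.le hle
    have i3 := rpow_mono (m := m) (by linarith : (0:ℝ) < σ0) hs.1.le
    have p1 : 0 < s.re := by linarith
    have p0 : (0:ℝ) < σ0 := by linarith
    have p2 : 0 ≤ w.im ^ (-s.re) := by positivity
    have p3 : 0 ≤ |(m:ℝ)| ^ (-(2 * s.re)) := by positivity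
    exact mul_le_mul (mul_le_mul i1 i2 p2 (by positivity)) i3 p3 (by positivity)
  exact (key.differentiableAt (hU.mem_nhds hmem)).differentiableWithinAt

/-- a sum of measurable functions -/
theorem meas_tsum {f : ℤ → ℍ → ℂ} (hf : ∀ i, Measurable (f i)) (hs : ∀ w, Summable fun i => f i w) :
    Measurable fun w => ∑' i, f i w := by
  refine measurable_of_tendsto_metrizable' (f := fun (t : Finset ℤ) w => ∑ i ∈ t, f i w) atTop
    (fun t => Finset.measurable_sum t fun i _ => hf i) ?_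
  rw [tendsto_pi_nhds]
  intro w
  exact (hs w).hasSum

theorem meas_Rm (h : S_line) (a b : ZMod N) {s : ℂ} (hs : 1 / 2 < s.re) (m : ℤ) :
    Measurable fun w : ℍ => Rm a b w s m := by
  have hN : (0:ℝ) < N := by exact_mod_cast Nat.pos_of_ne_zero (NeZero.ne N)
  have him : Measurable (fun w : ℍ => w.im) := UpperHalfPlane.continuous_im.measurable
  have hre : Measurable (fun w : ℍ => w.re) := UpperHalfPlane.continuous_re.measurable
  have c1 : ∀ z : ℂ, Measurable (fun w : ℍ => (w.im : ℂ) ^ z) := fun z =>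
    (Complex.measurable_ofReal.comp him).pow_const z
  unfold Rm
  by_cases hm : m ≠ 0 ∧ (m : ZMod N) = a
  swap
  · simp only [if_neg hm]
    exact measurable_const
  simp only [if_pos hm]
  have hm1 : (0:ℝ) < |(m:ℝ)| := by
    have := hm.1
    positivity
  refine ((c1 s).mul (meas_tsum (fun j => ?_) fun w => ?_)).sub ?_
  · refine (Complex.measurable_ofReal.comp ?_).pow_const _
    exact ((((hre.const_mul _).add_const _).add_const _).pow_const _).add
      ((him.const_mul _).pow_const _)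
  · exact (h.2.1 s N (|(m:ℝ)| * w.im) (m * w.re + (b.val : ℝ)) hs hN
      (mul_pos hm1 w.im_pos)).1.of_norm
  · unfold kk
    exact ((((c1 s).mul_const _).mul (c1 _)).mul_const _).mul_const _

theorem meas (h : S_line) (a b : ZMod N) {s : ℂ} (hs : 1 / 2 < s.re) :
    Measurable fun w : ℍ => ∑' m, Rm a b w s m :=
  meas_tsum (fun m => meas_Rm h a b hs m) fun w => (summable_Rm h a b w hs).of_norm

theorem loc (h : S_line) (a b : ZMod N) {s₀ : ℂ} (hs₀ : 1 / 2 < s₀.re) :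
    ∃ r > 0, ∃ C : ℝ, ∀ (w : ℍ) (s : ℂ), dist s s₀ < r →
      ‖∑' m, Rm a b w s m‖ ≤ C * w.im ^ (-s.re) := by
  obtain ⟨σ0, h1, h2⟩ := exists_between hs₀
  have p0 : (0:ℝ) < σ0 := by linarith
  refine ⟨min (s₀.re - σ0) 1, lt_min (by linarith) one_pos,
    2 * (‖s₀‖ + 1) / σ0 * ∑' m : ℤ, |(m:ℝ)| ^ (-(2 * σ0)), fun w s hs => ?_⟩
  have hy := w.im_pos
  have d1 : dist s s₀ < s₀.re - σ0 := lt_of_lt_of_le hs (min_le_left _ _)
  have d2 : dist s s₀ < 1 := lt_of_lt_of_le hs (min_le_right _ _)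
  rw [dist_eq_norm] at d1 d2
  have hre : σ0 < s.re := by
    have i1 := Complex.abs_re_le_norm (s - s₀)
    rw [Complex.sub_re] at i1
    have i2 := neg_le_abs (s.re - s₀.re)
    linarith
  have hn : ‖s‖ ≤ ‖s₀‖ + 1 := by
    have := norm_le_insert' s s₀
    linarith
  have hsr : 1 / 2 < s.re := lt_trans h1 hre
  have hb : ∀ m : ℤ, ‖Rm a b w s m‖ ≤
      (2 * (‖s₀‖ + 1) / σ0 * w.im ^ (-s.re)) * |(m:ℝ)| ^ (-(2 * σ0)) := by
    intro m
    refine (bound h a b w hsr m).trans ?_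
    have i1 : 2 * ‖s‖ / s.re ≤ 2 * (‖s₀‖ + 1) / σ0 := by
      refine div_le_div₀ (by positivity) (by linarith) (by linarith) hre.le
    have i3 := rpow_mono (m := m) p0 hre.le
    have p3 : 0 ≤ |(m:ℝ)| ^ (-(2 * s.re)) := by positivity
    exact mul_le_mul (mul_le_mul_of_nonneg_right i1 (by positivity)) i3 p3 (by positivity)
  refine (tsum_of_norm_bounded ((summable_pow h1).hasSum.mul_left _) hb).trans (le_of_eq ?_)
  ring

end Rem

theorem t_rem (h : S_line) : S_rem := fun _ _ a b =>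
  ⟨fun w _ hs => Rem.summable_Rm h a b w hs, fun w => Rem.diff h a b w,
    fun _ hs => Rem.meas h a b hs, fun _ hs => Rem.loc h a b hs⟩

end

end Pool.Agent.NH98.RS2
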