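import Pool.Agent.NH98.RS2.Stm

/-! The Rankin-Selberg integral at complex `s`. -/

set_option autoImplicit false

namespace Pool.Agent.NH98.RS2

open MeasureTheory Filter Topology UpperHalfPlane CongruenceSubgroup
open scoped ENNReal MatrixGroups Modular ModularForm
open Pool.Agent.W165.RS (EE SS ac ac_zero FF GG phi FF_meas FF_inv FF_dec GG_dec im_fd measurable_GG
  measurable_phi measurableSet_fd volume_fd_ne_top measurable_qf qf)
open Pool.Agent.Y722.RS (S2 Sm phi_zero phi_le_one rpow_s_le rpow_neg_s_le rpow_up)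
open Pool.Agent.TH941 (gg Hecke)
open Pool.Agent.Y149.CR

noncomputable section

variable {N : ℕ} [NeZero N]

/-- the integral of the positive part -/
def IP (f : S2 N) (ζ s : ℂ) : ℝ≥0∞ :=
  ∑' e : EE N, ∫⁻ z in SS, FF f z * up ζ s (z.im / (e.1 : ℝ) ^ 2)

/-- the positive part of the completed series -/
theorem IP_sub {f : S2 N} (hf : Sm f) {s : ℂ} (hs1 : 1 < s.re) :
    (∀ ζ : ℂ, ‖ζ‖ ≤ 1 → IP f ζ s ≠ ∞) ∧ ∀ ζ : ℂ, ‖ζ‖ ≤ 1 →
      (ζ * (LC N s * (Ga s * SC f s))).re = (IP f ζ s).toReal - (IP f (-ζ) s).toReal := by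
  have hs0 : 0 < s.re := by linarith
  have hstrip : ∀ ξ : ℂ, IP f ξ s =
      ∑' x : EE N × ℕ, ∫⁻ y in Set.Ioi (0 : ℝ), ENNReal.ofReal (ξ * ps f s x.1.1 x.2 y).re := by
    intro ξ
    unfold IP
    rw [ENNReal.tsum_prod']
    refine tsum_congr fun e => ?_
    have hm : Measurable fun y : ℝ => up ξ s (y / (e.1 : ℝ) ^ 2) :=
      (measurable_up ξ s).comp (measurable_id.div_const _)
    have h4 := strip_gen f hm (fun y => up_ne_top _ _ _)
    rw [h4]
    refine tsum_congr fun n => ?_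
    refine lintegral_congr fun y => ?_
    unfold up
    rw [← ENNReal.ofReal_mul (dn_nonneg f n y)]
    congr 1
    unfold ps
    rw [← Complex.re_ofReal_mul]
    congr 1
    ring
  have hint : ∀ x : EE N × ℕ, IntegrableOn (ps f s x.1.1 x.2) (Set.Ioi 0) := fun x =>
    (ps_integral f hs0 x.1.2.1 x.2).1
  have hb : ∀ (ξ : ℂ), ‖ξ‖ ≤ 1 → ∀ x : EE N × ℕ,
      ∫⁻ y in Set.Ioi (0 : ℝ), ENNReal.ofReal (ξ * ps f s x.1.1 x.2 y).re ≤
        ENNReal.ofReal ‖vv f (s.re : ℂ) x.1.1 x.2‖ := by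
    intro ξ hξ x
    have h4 : ∫⁻ y in Set.Ioi (0 : ℝ), ENNReal.ofReal (ξ * ps f s x.1.1 x.2 y).re ≤
        ∫⁻ y in Set.Ioi (0 : ℝ), ENNReal.ofReal ‖ps f s x.1.1 x.2 y‖ := by
      refine lintegral_mono fun y => ENNReal.ofReal_le_ofReal ?_
      refine (Complex.re_le_norm _).trans ?_
      rw [norm_mul]
      exact mul_le_of_le_one_left (norm_nonneg _) hξ
    refine h4.trans (le_of_eq ?_)
    rw [← ofReal_integral_eq_lintegral_ofReal (hint x).norm (Eventually.of_forall fun y =>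
      norm_nonneg _)]
    have h5 := integral_norm_ps f hs0 x.1.2.1 x.2
    rw [← h5, Complex.norm_real, Real.norm_of_nonneg (integral_nonneg fun y => norm_nonneg _)]
  have hfin : ∀ (ξ : ℂ), ‖ξ‖ ≤ 1 → (∑' x : EE N × ℕ, ∫⁻ y in Set.Ioi (0 : ℝ),
      ENNReal.ofReal (ξ * ps f s x.1.1 x.2 y).re) ≠ ∞ := by
    intro ξ hξ
    refine ne_top_of_le_ne_top ?_ (ENNReal.tsum_le_tsum (hb ξ hξ))
    exact (summable_vv hf (s := (s.re : ℂ)) (by simpa using hs1)).tsum_ofReal_ne_top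
  refine ⟨fun ζ hζ => by rw [hstrip]; exact hfin ζ hζ, fun ζ hζ => ?_⟩
  have hζ' : ‖-ζ‖ ≤ 1 := by rwa [norm_neg]
  have hval : ∀ x : EE N × ℕ, (ζ * vv f s x.1.1 x.2).re =
      (∫⁻ y in Set.Ioi (0 : ℝ), ENNReal.ofReal (ζ * ps f s x.1.1 x.2 y).re).toReal -
      (∫⁻ y in Set.Ioi (0 : ℝ), ENNReal.ofReal (-ζ * ps f s x.1.1 x.2 y).re).toReal := by
    intro x
    have hi1 : IntegrableOn (fun y => ζ * ps f s x.1.1 x.2 y) (Set.Ioi 0) := (hint x).const_mul ζ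
    have hi2 : IntegrableOn (fun y => (ζ * ps f s x.1.1 x.2 y).re) (Set.Ioi 0) := hi1.re
    have h4 := integral_eq_lintegral_pos_part_sub_lintegral_neg_part hi2
    have e : ∀ y, -(ζ * ps f s x.1.1 x.2 y).re = (-ζ * ps f s x.1.1 x.2 y).re := fun y => by
      rw [neg_mul, Complex.neg_re]
    simp_rw [e] at h4
    rw [← h4, ← (ps_integral f hs0 x.1.2.1 x.2).2, ← integral_const_mul]
    exact (integral_re hi1).symm
  have hX : Summable fun x : EE N × ℕ => ζ * vv f s x.1.1 x.2 :=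
    (summable_vv hf hs1).of_norm.mul_left ζ
  rw [← tsum_vv hf hs1, ← tsum_mul_left, Complex.re_tsum hX, tsum_congr hval,
    (ENNReal.summable_toReal (hfin ζ hζ)).tsum_sub (ENNReal.summable_toReal (hfin (-ζ) hζ')),
    ← ENNReal.tsum_toReal_eq (fun x => ENNReal.ne_top_of_tsum_ne_top (hfin ζ hζ) x),
    ← ENNReal.tsum_toReal_eq (fun x => ENNReal.ne_top_of_tsum_ne_top (hfin (-ζ) hζ') x),
    hstrip, hstrip]

/-- the lattice sum -/
def ZZ (a b : ZMod N) (s : ℂ) (z : ℍ) : ℂ := ∑' p, zc a b z s p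

theorem Lw_ne_top (a b : ZMod N) (z : ℍ) {s : ℂ} (h1 : 1 < s.re) (h2 : s.re ≤ 2) (ζ : ℂ) :
    Lw a b z (up ζ s) ≠ ∞ := by
  rw [Lw_eq]
  have hsum := summable_zc a b z h1 h2
  have h3 : Summable fun p => ‖ζ * zc a b z s p‖ :=
    (hsum.mul_left ‖ζ‖).congr fun p => (norm_mul _ _).symm
  refine ne_top_of_le_ne_top h3.tsum_ofReal_ne_top (ENNReal.tsum_le_tsum fun p => ?_)
  exact ENNReal.ofReal_le_ofReal (Complex.re_le_norm _)

omit [NeZero N] in
theorem measurable_Lw (a b : ZMod N) (s ζ : ℂ) : Measurable fun z : ℍ => Lw a b z (up ζ s) := by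
  have him : Measurable (fun z : ℍ => z.im) := continuous_im.measurable
  unfold Lw
  refine Measurable.tsum fun p => ?_
  split_ifs
  · exact (measurable_up ζ s).comp (him.div (measurable_qf p.1 p.2))
  · exact measurable_const

theorem ZZ_re (a b : ZMod N) (z : ℍ) {s : ℂ} (h1 : 1 < s.re) (h2 : s.re ≤ 2) (ζ : ℂ) :
    (ζ * ZZ a b s z).re = (Lw a b z (up ζ s)).toReal - (Lw a b z (up (-ζ) s)).toReal := by
  have hsum := (summable_zc a b z h1 h2).of_norm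
  have h3 : Summable fun p => ζ * zc a b z s p := hsum.mul_left ζ
  have t1 := Lw_ne_top a b z h1 h2 ζ
  have t2 := Lw_ne_top a b z h1 h2 (-ζ)
  rw [Lw_eq] at t1 t2 ⊢
  rw [Lw_eq]
  unfold ZZ
  rw [← tsum_mul_left, Complex.re_tsum h3,
    ENNReal.tsum_toReal_eq (fun p => ENNReal.ofReal_ne_top),
    ENNReal.tsum_toReal_eq (fun p => ENNReal.ofReal_ne_top),
    ← (ENNReal.summable_toReal t1).tsum_sub (ENNReal.summable_toReal t2)]
  refine tsum_congr fun p => ?_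
  rw [neg_mul, Complex.neg_re, ENNReal.toReal_ofReal', ENNReal.toReal_ofReal']
  rcases le_total (ζ * zc a b z s p).re 0 with h | h
  · rw [max_eq_right h, max_eq_left (by linarith)]; ring
  · rw [max_eq_left h, max_eq_right (by linarith)]; ring

theorem measurable_ZZ (a b : ZMod N) {s : ℂ} (h1 : 1 < s.re) (h2 : s.re ≤ 2) :
    Measurable (ZZ a b s) := by
  have e : ZZ a b s = fun z => (((Lw a b z (up 1 s)).toReal - (Lw a b z (up (-1) s)).toReal : ℝ) : ℂ) +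
      (((Lw a b z (up (-Complex.I) s)).toReal - (Lw a b z (up (-(-Complex.I)) s)).toReal : ℝ) : ℂ) *
        Complex.I := by
    funext z
    rw [← ZZ_re a b z h1 h2 1, ← ZZ_re a b z h1 h2 (-Complex.I)]
    apply Complex.ext <;> simp
  rw [e]
  have m := fun ζ => (measurable_Lw a b s ζ).ennreal_toReal
  exact (Complex.measurable_ofReal.comp ((m 1).sub (m (-1)))).add
    ((Complex.measurable_ofReal.comp ((m _).sub (m _))).mul_const _)

theorem norm_ZZ_le (a b : ZMod N) {s : ℂ} (h1 : 1 < s.re) (h2 : s.re ≤ 2) :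
    ∃ C : ℝ, 0 ≤ C ∧ ∀ z : ℍ, 1 / 2 ≤ z.im → ‖ZZ a b s z‖ ≤ C * z.im ^ 2 := by
  have hc := c2_nonneg
  have hπ := Real.pi_pos
  refine ⟨4 * c2 + 2 * ‖s‖ * Real.pi * 16 * c2 + Real.pi * 8 * ‖∑' m, am a s m‖, by positivity,
    fun w hw => ?_⟩
  have hb := lat_le a b w h1 h2
  have p1 := rpow_s_le hw h1 h2
  have p2 := rpow_neg_s_le hw h1 h2
  have p3 := rpow_up hw h1 h2
  have p4 : w.im ^ (1 - s.re) ≤ 8 * w.im ^ 2 := by nlinarith
  have hy := w.im_pos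
  refine hb.trans ?_
  calc w.im ^ s.re * c2 + 2 * ‖s‖ * Real.pi * w.im ^ (-s.re) * c2 +
      Real.pi * w.im ^ (1 - s.re) * ‖∑' m, am a s m‖
      ≤ (4 * w.im ^ 2) * c2 + 2 * ‖s‖ * Real.pi * (16 * w.im ^ 2) * c2 +
        Real.pi * (8 * w.im ^ 2) * ‖∑' m, am a s m‖ := by
        gcongr
    _ = _ := by ring

/-- **The Rankin-Selberg integral.** -/
theorem t_unf (h : S_wt) : S_unf := by
  intro N _ f hf s h1 h2
  obtain ⟨hfin, hval⟩ := IP_sub hf h1
  have h2' : s.re ≤ 2 := h2.le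
  -- integrability
  have hI : ∀ ab : ZMod N × ZMod N, Integrable fun z : ℍ => ((wt f ab z : ℝ) : ℂ) * ZZ ab.1 ab.2 s z := by
    intro ab
    obtain ⟨hm, hi, hz, -⟩ := h N f ab
    obtain ⟨C, hC, hb⟩ := norm_ZZ_le ab.1 ab.2 h1 h2'
    refine (hi.const_mul C).mono' ((Complex.measurable_ofReal.comp hm).mul
      (measurable_ZZ _ _ h1 h2')).aestronglyMeasurable (Eventually.of_forall fun z => ?_)
    have h0 : 0 ≤ wt f ab z := ENNReal.toReal_nonneg
    rcases lt_or_ge z.im (1 / 2) with h3 | h3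
    · rw [hz z h3]; simp
    · rw [norm_mul, Complex.norm_real, Real.norm_of_nonneg h0]
      have := mul_le_mul_of_nonneg_left (hb z h3) h0
      linarith
  -- the integrands
  have hJ : ∀ ζ : ℂ, ‖ζ‖ ≤ 1 → IP f ζ s = ∫⁻ z, ∑ ab : ZMod N × ZMod N,
      (phi z * GG (FF f) ab z) * Lw ab.1 ab.2 z (up ζ s) := by
    intro ζ _
    unfold IP
    rw [unfold_gen (FF_meas f) (FF_inv f) (measurable_up _ _)]
    refine lintegral_congr fun z => ?_
    rw [Finset.mul_sum]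
    exact Finset.sum_congr rfl fun ab _ => by ring
  have hJm : ∀ ζ : ℂ, Measurable fun z : ℍ => ∑ ab : ZMod N × ZMod N,
      (phi z * GG (FF f) ab z) * Lw ab.1 ab.2 z (up ζ s) := by
    intro ζ
    refine Finset.measurable_sum _ fun ab _ => ?_
    exact (measurable_phi.mul (measurable_GG (FF_meas f) ab)).mul (measurable_Lw _ _ _ _)
  have hJt : ∀ (ζ : ℂ) (z : ℍ), ∀ ab : ZMod N × ZMod N,
      (phi z * GG (FF f) ab z) * Lw ab.1 ab.2 z (up ζ s) ≠ ∞ := fun ζ z ab =>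
    ENNReal.mul_ne_top ((h N f ab).2.2.2 z) (Lw_ne_top _ _ z h1 h2' ζ)
  have key : ∀ ζ : ℂ, ‖ζ‖ ≤ 1 → (ζ * (LC N s * (Ga s * SC f s))).re =
      (ζ * ∑ ab : ZMod N × ZMod N, ∫ z : ℍ, ((wt f ab z : ℝ) : ℂ) * ZZ ab.1 ab.2 s z).re := by
    intro ζ hζ
    have hζ' : ‖-ζ‖ ≤ 1 := by rwa [norm_neg]
    rw [hval ζ hζ]
    have hR : ∀ ξ : ℂ, ‖ξ‖ ≤ 1 → (IP f ξ s).toReal = ∫ z, (∑ ab : ZMod N × ZMod N,
        (phi z * GG (FF f) ab z) * Lw ab.1 ab.2 z (up ξ s)).toReal := by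
      intro ξ hξ
      rw [hJ ξ hξ, integral_toReal (hJm ξ).aemeasurable (Eventually.of_forall fun z =>
        (ENNReal.sum_lt_top.2 fun ab _ => (hJt ξ z ab).lt_top))]
    have hRi : ∀ ξ : ℂ, ‖ξ‖ ≤ 1 → Integrable fun z => (∑ ab : ZMod N × ZMod N,
        (phi z * GG (FF f) ab z) * Lw ab.1 ab.2 z (up ξ s)).toReal := by
      intro ξ hξ
      refine integrable_toReal_of_lintegral_ne_top (hJm ξ).aemeasurable ?_
      rw [← hJ ξ hξ]
      exact hfin ξ hξ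
    rw [hR ζ hζ, hR (-ζ) hζ', ← integral_sub (hRi ζ hζ) (hRi (-ζ) hζ')]
    have e1 : ∀ z : ℍ, (∑ ab : ZMod N × ZMod N, (phi z * GG (FF f) ab z) *
        Lw ab.1 ab.2 z (up ζ s)).toReal - (∑ ab : ZMod N × ZMod N, (phi z * GG (FF f) ab z) *
        Lw ab.1 ab.2 z (up (-ζ) s)).toReal =
        (∑ ab : ZMod N × ZMod N, ζ * (((wt f ab z : ℝ) : ℂ) * ZZ ab.1 ab.2 s z)).re := by
      intro z
      rw [ENNReal.toReal_sum (fun ab _ => hJt ζ z ab), ENNReal.toReal_sum (fun ab _ => hJt (-ζ) z ab),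
        ← Finset.sum_sub_distrib, Complex.re_sum]
      refine Finset.sum_congr rfl fun ab _ => ?_
      rw [ENNReal.toReal_mul (a := phi z * GG (FF f) ab z) (b := Lw ab.1 ab.2 z (up ζ s)),
        ENNReal.toReal_mul (a := phi z * GG (FF f) ab z) (b := Lw ab.1 ab.2 z (up (-ζ) s)),
        ← mul_sub, ← ZZ_re ab.1 ab.2 z h1 h2' ζ, mul_left_comm, Complex.re_ofReal_mul]
      rfl
    simp_rw [e1]
    have e2 := integral_re (μ := (volume : Measure ℍ)) (f := fun z : ℍ =>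
      ∑ ab : ZMod N × ZMod N, ζ * (((wt f ab z : ℝ) : ℂ) * ZZ ab.1 ab.2 s z))
      (integrable_finsetSum _ fun ab _ => (hI ab).const_mul ζ)
    have e3 : ∫ z : ℍ, (∑ ab : ZMod N × ZMod N, ζ * (((wt f ab z : ℝ) : ℂ) * ZZ ab.1 ab.2 s z)).re =
        (∫ z : ℍ, ∑ ab : ZMod N × ZMod N, ζ * (((wt f ab z : ℝ) : ℂ) * ZZ ab.1 ab.2 s z)).re := e2
    rw [e3, integral_finsetSum _ fun ab _ => (hI ab).const_mul ζ, Finset.mul_sum]
    congr 1
    refine Finset.sum_congr rfl fun ab _ => ?_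
    rw [integral_const_mul]
  have k1 := key 1 (by simp)
  have k2 := key (-Complex.I) (by simp)
  apply Complex.ext
  · simpa [ZZ] using k1
  · simpa [ZZ] using k2

end

end Pool.Agent.NH98.RS2
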