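import Pool.Agent.NH98.RS2.Stm

/-! The weights on the fundamental domain. -/

set_option autoImplicit false

namespace Pool.Agent.NH98.RS2

open MeasureTheory Filter Topology UpperHalfPlane CongruenceSubgroup
open scoped ENNReal MatrixGroups Modular ModularForm
open Pool.Agent.W165.RS (EE ac ac_zero FF GG phi FF_meas FF_dec GG_dec im_fd measurable_GG
  measurable_phi measurableSet_fd volume_fd_ne_top)
open Pool.Agent.Y722.RS (S2 Sm phi_zero phi_le_one)

theorem GG_ne_top {N : ℕ} [NeZero N] (f : S2 N) (ab : ZMod N × ZMod N) (z : ℍ) :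
    GG (FF f) ab z ≠ ∞ := by
  unfold GG
  split_ifs
  · unfold FF; exact ENNReal.ofReal_ne_top
  · simp

theorem t_wt : S_wt := by
  intro N _ f ab
  obtain ⟨K, hK, hKb⟩ := GG_dec (N := N) (FF_dec f)
  have hm : Measurable (wt f ab) :=
    (measurable_phi.mul (measurable_GG (FF_meas f) ab)).ennreal_toReal
  have hfin : ∀ z, phi z * GG (FF f) ab z ≠ ∞ := fun z =>
    ENNReal.mul_ne_top (ne_top_of_le_ne_top ENNReal.one_ne_top (phi_le_one z)) (GG_ne_top f ab z)
  have h0 : ∀ z : ℍ, z ∉ (𝒟 : Set ℍ) → wt f ab z = 0 := by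
    intro z hz
    unfold wt
    rw [phi_zero hz, zero_mul, ENNReal.toReal_zero]
  refine ⟨hm, ?_, ?_, hfin⟩
  · have hint : Integrable (Set.indicator (𝒟 : Set ℍ) (fun _ => K.toReal)) := by
      rw [integrable_indicator_iff measurableSet_fd]
      exact integrableOn_const volume_fd_ne_top
    refine hint.mono' (hm.mul (continuous_im.measurable.pow_const 2)).aestronglyMeasurable ?_
    refine Eventually.of_forall fun z => ?_
    by_cases hz : z ∈ (𝒟 : Set ℍ)
    · rw [Set.indicator_of_mem hz]
      have h1 := hKb ab z (im_fd hz)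
      have h2 : 0 ≤ wt f ab z := ENNReal.toReal_nonneg
      rw [Real.norm_of_nonneg (mul_nonneg h2 (by positivity))]
      have h3 : wt f ab z * z.im ^ 2 = (phi z * (GG (FF f) ab z * ENNReal.ofReal (z.im ^ 2))).toReal := by
        rw [← mul_assoc, ENNReal.toReal_mul, ENNReal.toReal_ofReal (by positivity)]
        rfl
      rw [h3]
      refine ENNReal.toReal_mono hK ?_
      calc phi z * (GG (FF f) ab z * ENNReal.ofReal (z.im ^ 2)) ≤ 1 * K :=
            mul_le_mul' (phi_le_one z) h1
        _ = K := one_mul K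
    · rw [Set.indicator_of_notMem hz, h0 z hz, zero_mul, norm_zero]
  · intro z hz
    refine h0 z fun hz' => ?_
    have := im_fd hz'
    linarith

end Pool.Agent.NH98.RS2
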