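import Mathlib
import Pool.Agent.NH98.RS2.StmT

/-! The logarithmic derivative of the zeta function over the primes. -/

set_option autoImplicit false

namespace Pool.Agent.NH98.RS2.Zt

open Filter Topology Complex

/-- the entire function `(s - 1) ζ(s)` -/
noncomputable def z1 : ℂ → ℂ := Function.update (fun s => (s - 1) * riemannZeta s) 1 1

theorem z1_ne {s : ℂ} (hs : s ≠ 1) : z1 s = (s - 1) * riemannZeta s := by
  rw [z1, Function.update_of_ne hs]

theorem z1_one : z1 1 = 1 := by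
  rw [z1, Function.update_self]

theorem differentiable_z1 : Differentiable ℂ z1 := by
  rw [← differentiableOn_univ,
    ← differentiableOn_compl_singleton_and_continuousAt_iff (c := 1) Filter.univ_mem]
  refine ⟨DifferentiableOn.congr (f := fun s ↦ (s - 1) * riemannZeta s)
    (fun s hs ↦ DifferentiableAt.differentiableWithinAt ?_)
    fun _ hs ↦ Function.update_of_ne (Set.mem_sdiff_singleton.mp hs).2 ..,
    continuousWithinAt_compl_self.mp ?_⟩
  · have hs1 : s ≠ 1 := (Set.mem_sdiff_singleton.mp hs).2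
    exact (differentiableAt_id.sub_const 1).mul (differentiableAt_riemannZeta hs1)
  · have h := riemannZeta_residue_one
    unfold z1
    rw [continuousWithinAt_update_same]
    have hd : ({1}ᶜ : Set ℂ) \ {1} = {1}ᶜ := by
      ext x; simp
    rw [hd]
    exact h

theorem z1_ne_zero {s : ℂ} (hs : 1 ≤ s.re) : z1 s ≠ 0 := by
  by_cases h : s = 1
  · rw [h, z1_one]; exact one_ne_zero
  · rw [z1_ne h]
    exact mul_ne_zero (sub_ne_zero.2 h) (riemannZeta_ne_zero_of_one_le_re hs)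

theorem deriv_z1 {s : ℂ} (hs : s ≠ 1) :
    deriv z1 s = riemannZeta s + (s - 1) * deriv riemannZeta s := by
  have H : deriv z1 s = deriv (fun w ↦ (w - 1) * riemannZeta w) s := by
    refine eventuallyEq_iff_exists_mem.mpr ?_ |>.deriv_eq
    exact ⟨_, isOpen_ne.mem_nhds hs, fun _ hw ↦ Function.update_of_ne hw ..⟩
  rw [H]
  have h1 : HasDerivAt (fun w : ℂ => w - 1) 1 s := (hasDerivAt_id s).sub_const 1
  have h2 : HasDerivAt riemannZeta (deriv riemannZeta s) s :=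
    (differentiableAt_riemannZeta hs).hasDerivAt
  have h3 := (h1.mul h2).deriv
  have h4 : deriv (fun w ↦ (w - 1) * riemannZeta w) s =
    1 * riemannZeta s + (s - 1) * deriv riemannZeta s := h3
  rw [h4, one_mul]

theorem prime_ne_zero (p : Nat.Primes) : ((p : ℕ) : ℂ) ≠ 0 := by
  exact_mod_cast p.prop.ne_zero

theorem norm_cpow (p : Nat.Primes) (s : ℂ) : ‖((p : ℕ) : ℂ) ^ (-s)‖ = ((p : ℕ) : ℝ) ^ (-s.re) := by
  have := Complex.norm_natCast_cpow_of_pos (n := (p : ℕ)) p.prop.pos (-s)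
  rw [this, Complex.neg_re]

theorem one_lt_prime (p : Nat.Primes) : (1 : ℝ) < ((p : ℕ) : ℝ) := by
  exact_mod_cast p.prop.one_lt

theorem two_le_prime (p : Nat.Primes) : (2 : ℝ) ≤ ((p : ℕ) : ℝ) := by
  exact_mod_cast p.prop.two_le

theorem norm_cpow_le (p : Nat.Primes) {s : ℂ} {a : ℝ} (h : a ≤ s.re) :
    ‖((p : ℕ) : ℂ) ^ (-s)‖ ≤ ((p : ℕ) : ℝ) ^ (-a) := by
  rw [norm_cpow]
  exact Real.rpow_le_rpow_of_exponent_le (one_lt_prime p).le (by linarith)

theorem norm_cpow_le_half (p : Nat.Primes) {s : ℂ} (h : 1 ≤ s.re) :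
    ‖((p : ℕ) : ℂ) ^ (-s)‖ ≤ 1 / 2 := by
  refine (norm_cpow_le p h).trans ?_
  rw [Real.rpow_neg_one, one_div]
  exact inv_anti₀ (by norm_num) (two_le_prime p)

theorem norm_cpow_lt_one (p : Nat.Primes) {s : ℂ} (h : 0 < s.re) :
    ‖((p : ℕ) : ℂ) ^ (-s)‖ < 1 := by
  rw [norm_cpow]
  exact Real.rpow_lt_one_of_one_lt_of_neg (one_lt_prime p) (by linarith)

theorem one_sub_ne (p : Nat.Primes) {s : ℂ} (h : 0 < s.re) : 1 - ((p : ℕ) : ℂ) ^ (-s) ≠ 0 := by
  intro h0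
  have h1 : ((p : ℕ) : ℂ) ^ (-s) = 1 := (sub_eq_zero.1 h0).symm
  have h2 := norm_cpow_lt_one p h
  rw [h1, norm_one] at h2
  exact lt_irrefl _ h2

theorem hasDerivAt_cpow (p : Nat.Primes) (s : ℂ) :
    HasDerivAt (fun w : ℂ => ((p : ℕ) : ℂ) ^ (-w))
      (-(Complex.log ((p : ℕ) : ℂ)) * ((p : ℕ) : ℂ) ^ (-s)) s := by
  have h := (hasDerivAt_neg s).const_cpow (c := ((p : ℕ) : ℂ)) (Or.inl (prime_ne_zero p))
  refine h.congr_deriv ?_
  ring

theorem log_cast (p : Nat.Primes) : Complex.log ((p : ℕ) : ℂ) = ((Real.log p : ℝ) : ℂ) := by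
  rw [Complex.natCast_log]

/-- the derivative of `- log (1 - p^(-s))` -/
theorem hasDerivAt_log (p : Nat.Primes) {s : ℂ} (h : 1 ≤ s.re) :
    HasDerivAt (fun w : ℂ => -Complex.log (1 - ((p : ℕ) : ℂ) ^ (-w)))
      (-(((Real.log p : ℝ) : ℂ) * ((p : ℕ) : ℂ) ^ (-s) / (1 - ((p : ℕ) : ℂ) ^ (-s)))) s := by
  have h1 := (hasDerivAt_cpow p s).const_sub 1
  have hm : 1 - ((p : ℕ) : ℂ) ^ (-s) ∈ slitPlane := by
    rw [sub_eq_add_neg]
    apply Complex.mem_slitPlane_of_norm_lt_one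
    rw [norm_neg]
    exact norm_cpow_lt_one p (by linarith)
  have h2 := (h1.clog hm).neg
  refine h2.congr_deriv ?_
  rw [log_cast]
  ring

theorem summable_primes {a : ℝ} (h : 1 < a) :
    Summable (fun p : Nat.Primes => ((p : ℕ) : ℝ) ^ (-a)) :=
  Nat.Primes.summable_rpow.2 (by linarith)

/-- the logarithmic derivative of `ζ` as a sum over the primes -/
theorem hasSum_logDeriv {s : ℂ} (hs : 1 < s.re) :
    HasSum (fun p : Nat.Primes =>
      ((Real.log p : ℝ) : ℂ) * ((p : ℕ) : ℂ) ^ (-s) / (1 - ((p : ℕ) : ℂ) ^ (-s)))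
      (-(deriv riemannZeta s / riemannZeta s)) := by
  obtain ⟨a, ha1, ha2⟩ := exists_between hs
  set U : Set ℂ := {z : ℂ | a < z.re} with hU
  have hUo : IsOpen U := isOpen_lt continuous_const Complex.continuous_re
  have hsU : s ∈ U := ha2
  have hu : Summable (fun p : Nat.Primes => 3 / 2 * ((p : ℕ) : ℝ) ^ (-a)) :=
    (summable_primes ha1).mul_left _
  have hd : ∀ p : Nat.Primes,
      DifferentiableOn ℂ (fun w : ℂ => -Complex.log (1 - ((p : ℕ) : ℂ) ^ (-w))) U := by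
    intro p w hw
    have hw' : a < w.re := hw
    exact (hasDerivAt_log p (by linarith)).differentiableAt.differentiableWithinAt
  have hle : ∀ (p : Nat.Primes) (w : ℂ), w ∈ U →
      ‖-Complex.log (1 - ((p : ℕ) : ℂ) ^ (-w))‖ ≤ 3 / 2 * ((p : ℕ) : ℝ) ^ (-a) := by
    intro p w hw
    have hw' : a < w.re := hw
    rw [norm_neg, sub_eq_add_neg]
    have h1 := Complex.norm_log_one_add_half_le_self (z := -((p : ℕ) : ℂ) ^ (-w)) (by
      rw [norm_neg]; exact norm_cpow_le_half p (by linarith))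
    refine h1.trans ?_
    rw [norm_neg]
    exact mul_le_mul_of_nonneg_left (norm_cpow_le p hw'.le) (by norm_num)
  have hsum := Complex.hasSum_deriv_of_summable_norm hu hd hUo hle hsU
  have hdiff := Complex.differentiableOn_tsum_of_summable_norm hu hd hUo hle
  set F : ℂ → ℂ := fun w => ∑' p : Nat.Primes, -Complex.log (1 - ((p : ℕ) : ℂ) ^ (-w)) with hF
  have hFd : HasDerivAt F (deriv F s) s := (hdiff.differentiableAt (hUo.mem_nhds hsU)).hasDerivAt
  have he : riemannZeta =ᶠ[𝓝 s] fun w => Complex.exp (F w) := by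
    filter_upwards [hUo.mem_nhds hsU] with w hw
    have hw' : a < w.re := hw
    exact (riemannZeta_eulerProduct_exp_log (by linarith)).symm
  have hz : HasDerivAt riemannZeta (Complex.exp (F s) * deriv F s) s :=
    hFd.cexp.congr_of_eventuallyEq he
  have h1 : deriv riemannZeta s = Complex.exp (F s) * deriv F s := hz.deriv
  have h2 : riemannZeta s = Complex.exp (F s) := he.eq_of_nhds
  have h3 : deriv riemannZeta s / riemannZeta s = deriv F s := by
    rw [h1, h2, mul_div_cancel_left₀ _ (Complex.exp_ne_zero _)]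
  rw [h3]
  have h4 := hsum.neg
  have h5 : (fun p : Nat.Primes =>
      -deriv (fun w : ℂ => -Complex.log (1 - ((p : ℕ) : ℂ) ^ (-w))) s) =
      fun p : Nat.Primes =>
      ((Real.log p : ℝ) : ℂ) * ((p : ℕ) : ℂ) ^ (-s) / (1 - ((p : ℕ) : ℂ) ^ (-s)) := by
    funext p
    rw [(hasDerivAt_log p hs.le).deriv, neg_neg]
  rw [← h5]
  exact h4

/-- the part with the higher powers of the primes -/
noncomputable def Rt (s : ℂ) : ℂ := ∑' p : Nat.Primes,
  ((Real.log p : ℝ) : ℂ) * ((p : ℕ) : ℂ) ^ (-s) * ((p : ℕ) : ℂ) ^ (-s) /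
    (1 - ((p : ℕ) : ℂ) ^ (-s))

theorem log_le (p : Nat.Primes) : Real.log p ≤ 4 * ((p : ℕ) : ℝ) ^ ((1 : ℝ) / 4) := by
  have h := Real.log_le_rpow_div (x := ((p : ℕ) : ℝ)) (Nat.cast_nonneg _)
    (ε := (1 : ℝ) / 4) (by norm_num)
  refine h.trans (le_of_eq ?_)
  ring

theorem log_nonneg (p : Nat.Primes) : 0 ≤ Real.log p :=
  Real.log_nonneg (one_lt_prime p).le

/-- bound for the terms of `Rt` -/
theorem term_le (p : Nat.Primes) {s : ℂ} (hs : 3 / 4 < s.re) :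
    ‖((Real.log p : ℝ) : ℂ) * ((p : ℕ) : ℂ) ^ (-s) * ((p : ℕ) : ℂ) ^ (-s) /
      (1 - ((p : ℕ) : ℂ) ^ (-s))‖ ≤ 16 * ((p : ℕ) : ℝ) ^ (-((5 : ℝ) / 4)) := by
  have hp0 : (0 : ℝ) < ((p : ℕ) : ℝ) := by linarith [one_lt_prime p]
  have hx : ‖((p : ℕ) : ℂ) ^ (-s)‖ ≤ ((p : ℕ) : ℝ) ^ (-((3 : ℝ) / 4)) := norm_cpow_le p hs.le
  have hx34 : ((p : ℕ) : ℝ) ^ (-((3 : ℝ) / 4)) ≤ 3 / 4 := by
    have h1 : ((p : ℕ) : ℝ) ^ (-((3 : ℝ) / 4)) ≤ ((p : ℕ) : ℝ) ^ (-((1 : ℝ) / 2)) :=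
      Real.rpow_le_rpow_of_exponent_le (one_lt_prime p).le (by norm_num)
    have h2 : ((p : ℕ) : ℝ) ^ (-((1 : ℝ) / 2)) ≤ (2 : ℝ) ^ (-((1 : ℝ) / 2)) :=
      Real.rpow_le_rpow_of_nonpos (by norm_num) (two_le_prime p) (by norm_num)
    have h3 : (2 : ℝ) ^ (-((1 : ℝ) / 2)) ≤ 3 / 4 := by
      rw [Real.rpow_neg (by norm_num), ← Real.sqrt_eq_rpow]
      rw [inv_le_comm₀ (by positivity) (by norm_num)]
      apply Real.le_sqrt_of_sq_le
      norm_num
    linarith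
  have hden : 1 / 4 ≤ ‖1 - ((p : ℕ) : ℂ) ^ (-s)‖ := by
    have h1 : ‖(1 : ℂ)‖ - ‖((p : ℕ) : ℂ) ^ (-s)‖ ≤ ‖1 - ((p : ℕ) : ℂ) ^ (-s)‖ :=
      norm_sub_norm_le _ _
    rw [norm_one] at h1
    linarith
  rw [norm_div, norm_mul, norm_mul, Complex.norm_real, Real.norm_of_nonneg (log_nonneg p)]
  rw [div_le_iff₀ (by linarith)]
  have hb : ((p : ℕ) : ℝ) ^ ((1 : ℝ) / 4) *
      (((p : ℕ) : ℝ) ^ (-((3 : ℝ) / 4)) * ((p : ℕ) : ℝ) ^ (-((3 : ℝ) / 4))) =
      ((p : ℕ) : ℝ) ^ (-((5 : ℝ) / 4)) := by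
    rw [← Real.rpow_add hp0, ← Real.rpow_add hp0]
    norm_num
  have hn0 : 0 ≤ ‖((p : ℕ) : ℂ) ^ (-s)‖ := norm_nonneg _
  have hr0 : 0 ≤ ((p : ℕ) : ℝ) ^ (-((3 : ℝ) / 4)) := Real.rpow_nonneg hp0.le _
  calc Real.log p * ‖((p : ℕ) : ℂ) ^ (-s)‖ * ‖((p : ℕ) : ℂ) ^ (-s)‖
      = Real.log p * (‖((p : ℕ) : ℂ) ^ (-s)‖ * ‖((p : ℕ) : ℂ) ^ (-s)‖) := by ring
    _ ≤ (4 * ((p : ℕ) : ℝ) ^ ((1 : ℝ) / 4)) *
        (((p : ℕ) : ℝ) ^ (-((3 : ℝ) / 4)) * ((p : ℕ) : ℝ) ^ (-((3 : ℝ) / 4))) := by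
        apply mul_le_mul (log_le p) (mul_le_mul hx hx hn0 hr0) (mul_nonneg hn0 hn0)
        positivity
    _ = 16 * ((p : ℕ) : ℝ) ^ (-((5 : ℝ) / 4)) * (1 / 4) := by
        rw [mul_assoc, hb]; ring
    _ ≤ 16 * ((p : ℕ) : ℝ) ^ (-((5 : ℝ) / 4)) * ‖1 - ((p : ℕ) : ℂ) ^ (-s)‖ := by
        apply mul_le_mul_of_nonneg_left hden
        positivity

theorem summable_bound : Summable (fun p : Nat.Primes => 16 * ((p : ℕ) : ℝ) ^ (-((5 : ℝ) / 4))) :=
  (summable_primes (by norm_num)).mul_left _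

theorem Rt_differentiableOn : DifferentiableOn ℂ Rt {s : ℂ | 3 / 4 < s.re} := by
  unfold Rt
  apply Complex.differentiableOn_tsum_of_summable_norm summable_bound
  · intro p s hs
    have hs' : 3 / 4 < s.re := hs
    have h1 := (hasDerivAt_cpow p s).differentiableAt
    apply DifferentiableAt.differentiableWithinAt
    apply DifferentiableAt.div
    · exact ((differentiableAt_const _).mul h1).mul h1
    · exact (differentiableAt_const _).sub h1
    · exact one_sub_ne p (by linarith)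
  · exact isOpen_lt continuous_const Complex.continuous_re
  · intro p s hs
    exact term_le p hs

end Pool.Agent.NH98.RS2.Zt

namespace Pool.Agent.NH98.RS2

open Filter Topology Complex Zt

theorem t_zeta : S_zeta := by
  refine ⟨fun s => -(deriv z1 s / z1 s) - Rt s, ?_, ?_⟩
  · intro z hz
    have h1 : AnalyticAt ℂ z1 z := differentiable_z1.analyticAt z
    have h2 : AnalyticAt ℂ Rt z :=
      Rt_differentiableOn.analyticAt ((isOpen_lt continuous_const Complex.continuous_re).mem_nhds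
        (show (3 / 4 : ℝ) < z.re by linarith))
    exact ((h1.deriv.div h1 (z1_ne_zero hz)).neg).sub h2
  · intro s hs
    have hs1 : s ≠ 1 := by
      rintro rfl
      simp at hs
    have hA := hasSum_logDeriv hs
    have hB : HasSum (fun p : Nat.Primes =>
        ((Real.log p : ℝ) : ℂ) * ((p : ℕ) : ℂ) ^ (-s) * ((p : ℕ) : ℂ) ^ (-s) /
        (1 - ((p : ℕ) : ℂ) ^ (-s))) (Rt s) := by
      apply Summable.hasSum
      apply Summable.of_norm_bounded summable_bound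
      intro p
      exact term_le p (by linarith)
    have hC := hA.sub hB
    have hD : (fun p : Nat.Primes => ((Real.log p : ℝ) : ℂ) * ((p : ℕ) : ℂ) ^ (-s) /
        (1 - ((p : ℕ) : ℂ) ^ (-s)) -
        ((Real.log p : ℝ) : ℂ) * ((p : ℕ) : ℂ) ^ (-s) * ((p : ℕ) : ℂ) ^ (-s) /
        (1 - ((p : ℕ) : ℂ) ^ (-s))) =
        fun p : Nat.Primes => ((1 * Real.log p : ℝ) : ℂ) * ((p : ℕ) : ℂ) ^ (-s) := by
      funext p
      have hne := one_sub_ne p (s := s) (by linarith)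
      rw [one_mul]
      field_simp
    rw [hD] at hC
    rw [hC.tsum_eq]
    show _ = 1 / (s - 1) + (-(deriv z1 s / z1 s) - Rt s)
    rw [deriv_z1 hs1, z1_ne hs1]
    have hz := riemannZeta_ne_zero_of_one_le_re hs.le
    have hs2 : s - 1 ≠ 0 := sub_ne_zero.2 hs1
    field_simp
    ring

end Pool.Agent.NH98.RS2
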