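import Pool.Agent.NH98.RS2.Stm

/-! Non-vanishing on the line `Re s = 1` and the logarithmic derivative over the primes. -/

set_option autoImplicit false

namespace Pool.Agent.NH98.RS2.LogDH

open Filter Topology Complex

/-- the term of the prime sum -/
noncomputable def Fp (a : ℕ → ℝ) (p : Nat.Primes) (s : ℂ) : ℂ := (a p : ℂ) * (p : ℂ) ^ (-s)

/-- the prime sum -/
noncomputable def PP (a : ℕ → ℝ) (s : ℂ) : ℂ := ∑' p : Nat.Primes, Fp a p s

lemma prime_ne_zero (p : Nat.Primes) : ((p : ℕ) : ℂ) ≠ 0 := by exact_mod_cast p.2.ne_zero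

lemma isOpen_gt (σ : ℝ) : IsOpen {s : ℂ | σ < s.re} :=
  isOpen_lt continuous_const Complex.continuous_re

lemma Fp_hasDerivAt (a : ℕ → ℝ) (p : Nat.Primes) (s : ℂ) :
    HasDerivAt (Fp a p) (-(((a p * Real.log p : ℝ) : ℂ) * (p : ℂ) ^ (-s))) s := by
  have h1 : HasDerivAt (fun s : ℂ => (p : ℂ) ^ (-s)) ((p : ℂ) ^ (-s) * Complex.log p * (-1)) s :=
    (hasDerivAt_neg s).const_cpow (Or.inl (prime_ne_zero p))
  have h2 := h1.const_mul ((a p : ℝ) : ℂ)
  refine h2.congr_deriv ?_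
  rw [← Complex.natCast_log]
  push_cast
  ring

lemma Fp_norm (a : ℕ → ℝ) (ha : ∀ p : Nat.Primes, 0 ≤ a p) (p : Nat.Primes) (s : ℂ) :
    ‖Fp a p s‖ = a p * (p : ℝ) ^ (-s.re) := by
  unfold Fp
  rw [norm_mul, Complex.norm_real, Real.norm_of_nonneg (ha p),
    Complex.norm_natCast_cpow_of_pos p.2.pos, Complex.neg_re]

lemma summ_u {σ : ℝ} (hσ : 1 < σ) : Summable (fun p : Nat.Primes => 4 * (p : ℝ) ^ (-σ)) :=
  (Nat.Primes.summable_rpow.mpr (by linarith)).mul_left 4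

lemma Fp_le (a : ℕ → ℝ) (ha : ∀ p : Nat.Primes, 0 ≤ a p) (ha4 : ∀ p : Nat.Primes, a p ≤ 4) {σ : ℝ}
    (p : Nat.Primes) {s : ℂ} (hs : σ < s.re) : ‖Fp a p s‖ ≤ 4 * (p : ℝ) ^ (-σ) := by
  rw [Fp_norm a ha]
  have hp : (1 : ℝ) ≤ p := by exact_mod_cast p.2.one_le
  exact mul_le_mul (ha4 p) (Real.rpow_le_rpow_of_exponent_le hp (by linarith))
    (Real.rpow_nonneg (by linarith) _) (by norm_num)

lemma Fp_summable (a : ℕ → ℝ) (ha : ∀ p : Nat.Primes, 0 ≤ a p) (ha4 : ∀ p : Nat.Primes, a p ≤ 4)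
    {s : ℂ} (hs : 1 < s.re) : Summable (fun p => Fp a p s) := by
  refine Summable.of_norm_bounded (summ_u (σ := (1 + s.re) / 2) (by linarith)) fun p => ?_
  exact Fp_le a ha ha4 p (by linarith)

lemma PP_diff (a : ℕ → ℝ) (ha : ∀ p : Nat.Primes, 0 ≤ a p) (ha4 : ∀ p : Nat.Primes, a p ≤ 4)
    {s : ℂ} (hs : 1 < s.re) : DifferentiableAt ℂ (PP a) s := by
  have hσ : 1 < (1 + s.re) / 2 := by linarith
  have h := differentiableOn_tsum_of_summable_norm (F := Fp a) (summ_u hσ)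
    (fun p => fun w _ => (Fp_hasDerivAt a p w).differentiableAt.differentiableWithinAt)
    (isOpen_gt ((1 + s.re) / 2)) (fun p w hw => Fp_le a ha ha4 p hw)
  exact (h s (by simp only [Set.mem_ofPred_eq]; linarith)).differentiableAt
    ((isOpen_gt _).mem_nhds (by simp only [Set.mem_ofPred_eq]; linarith))

lemma PP_deriv (a : ℕ → ℝ) (ha : ∀ p : Nat.Primes, 0 ≤ a p) (ha4 : ∀ p : Nat.Primes, a p ≤ 4)
    {s : ℂ} (hs : 1 < s.re) :
    ∑' p : Nat.Primes, ((a p * Real.log p : ℝ) : ℂ) * (p : ℂ) ^ (-s) = -deriv (PP a) s := by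
  have hσ : 1 < (1 + s.re) / 2 := by linarith
  have h := hasSum_deriv_of_summable_norm (F := Fp a) (summ_u hσ)
    (fun p => fun w _ => (Fp_hasDerivAt a p w).differentiableAt.differentiableWithinAt)
    (isOpen_gt ((1 + s.re) / 2)) (fun p w hw => Fp_le a ha ha4 p hw) (z := s)
    (by simp only [Set.mem_ofPred_eq]; linarith)
  have h2 : HasSum (fun p : Nat.Primes => -(((a p * Real.log p : ℝ) : ℂ) * (p : ℂ) ^ (-s)))
      (deriv (PP a) s) := by
    have e : (fun p : Nat.Primes => deriv (Fp a p) s) =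
        fun p : Nat.Primes => -(((a p * Real.log p : ℝ) : ℂ) * (p : ℂ) ^ (-s)) :=
      funext fun p => (Fp_hasDerivAt a p s).deriv
    rw [e] at h
    exact h
  have h3 := h2.neg
  simp only [neg_neg] at h3
  exact h3.tsum_eq

/-- the real part of a term -/
lemma Fp_re (a : ℕ → ℝ) (p : Nat.Primes) (σ t : ℝ) :
    (Fp a p ((1 : ℂ) + σ + t * I)).re =
      a p * Real.exp (-((1 + σ) * Real.log p)) * Real.cos (t * Real.log p) := by
  have hp := prime_ne_zero p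
  have h1 : Fp a p ((1 : ℂ) + σ + t * I) = (a p : ℂ) *
      Complex.exp (((-((1 + σ) * Real.log p) : ℝ) : ℂ) + ((-(t * Real.log p) : ℝ) : ℂ) * I) := by
    unfold Fp
    rw [Complex.cpow_def_of_ne_zero hp, ← Complex.natCast_log]
    congr 2
    push_cast
    ring
  rw [h1, Complex.re_ofReal_mul, Complex.exp_re]
  simp only [Complex.add_re, Complex.ofReal_re, Complex.mul_re, Complex.I_re, mul_zero,
    Complex.ofReal_im, Complex.I_im, mul_one, sub_self, add_zero, Complex.add_im, Complex.mul_im,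
    zero_add]
  rw [Real.cos_neg]
  ring

lemma re1 (σ t : ℝ) : ((1 : ℂ) + σ + t * I).re = 1 + σ := by simp

/-- the 3-4-1 inequality -/
lemma three_four_one (a : ℕ → ℝ) (ha : ∀ p : Nat.Primes, 0 ≤ a p)
    (ha4 : ∀ p : Nat.Primes, a p ≤ 4) {σ : ℝ} (hσ : 0 < σ) (t : ℝ) :
    0 ≤ 3 * (PP a ((1 : ℂ) + σ + (0 : ℝ) * I)).re + 4 * (PP a ((1 : ℂ) + σ + t * I)).re +
      (PP a ((1 : ℂ) + σ + (2 * t : ℝ) * I)).re := by
  have h0 := Fp_summable a ha ha4 (s := (1 : ℂ) + σ + (0 : ℝ) * I) (by rw [re1]; linarith)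
  have h1 := Fp_summable a ha ha4 (s := (1 : ℂ) + σ + t * I) (by rw [re1]; linarith)
  have h2 := Fp_summable a ha ha4 (s := (1 : ℂ) + σ + (2 * t : ℝ) * I) (by rw [re1]; linarith)
  have g0 := Complex.reCLM.hasSum h0.hasSum
  have g1 := Complex.reCLM.hasSum h1.hasSum
  have g2 := Complex.reCLM.hasSum h2.hasSum
  have h3 := ((g0.mul_left 3).add (g1.mul_left 4)).add g2
  have h4 := h3.nonneg (fun p => by
    simp only [Complex.reCLM_apply]
    rw [Fp_re, Fp_re, Fp_re]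
    set c := Real.cos (t * Real.log (p : ℕ)) with hc
    have h5 : Real.cos (2 * t * Real.log (p : ℕ)) = 2 * c ^ 2 - 1 := by
      rw [mul_assoc, Real.cos_two_mul]
    rw [h5, zero_mul, Real.cos_zero]
    have h6 : (0 : ℝ) ≤ a p * Real.exp (-((1 + σ) * Real.log (p : ℕ))) :=
      mul_nonneg (ha p) (Real.exp_pos _).le
    nlinarith [mul_nonneg h6 (sq_nonneg (1 + c))])
  exact h4

lemma path_tendsto (t : ℝ) :
    Tendsto (fun σ : ℝ => (1 : ℂ) + σ + t * I) (𝓝[>] 0) (𝓝 (1 + t * I)) := by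
  have h : Continuous fun σ : ℝ => (1 : ℂ) + σ + t * I := by fun_prop
  have := h.tendsto 0
  simp only [ofReal_zero, add_zero] at this
  exact this.mono_left nhdsWithin_le_nhds

lemma slope_tendsto {E : ℂ → ℂ} {z : ℂ} (hE : DifferentiableAt ℂ E z) :
    Tendsto (fun σ : ℝ => (σ : ℂ)⁻¹ * (E (z + σ) - E z)) (𝓝[>] 0) (𝓝 (deriv E z)) := by
  have h := hE.hasDerivAt.tendsto_slope_zero
  have h2 : Tendsto (fun σ : ℝ => (σ : ℂ)) (𝓝[>] 0) (𝓝[≠] 0) := by
    refine tendsto_nhdsWithin_iff.mpr ⟨?_, ?_⟩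
    · have h3 : Continuous fun σ : ℝ => (σ : ℂ) := Complex.continuous_ofReal
      have := h3.tendsto 0
      simp only [ofReal_zero] at this
      exact this.mono_left nhdsWithin_le_nhds
    · filter_upwards [self_mem_nhdsWithin] with σ hσ h
      have h1 : σ = 0 := by simpa using h
      exact absurd (show (0 : ℝ) < σ from hσ) (by rw [h1]; exact lt_irrefl _)
  exact h.comp h2

/-- non-vanishing -/
theorem ne_zero_line (a : ℕ → ℝ) (ha : ∀ p : Nat.Primes, 0 ≤ a p)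
    (ha4 : ∀ p : Nat.Primes, a p ≤ 4) {E Q : ℂ → ℂ}
    (hE : DifferentiableOn ℂ E {s : ℂ | 1 / 2 < s.re})
    (hQ : DifferentiableOn ℂ Q {s : ℂ | 1 / 2 < s.re})
    (h : ∀ s : ℂ, 1 < s.re → E s = (s - 1) * Complex.exp (PP a s + Q s))
    {t : ℝ} (ht : t ≠ 0) : E (1 + t * I) ≠ 0 := by
  intro h0
  have hV : ∀ u : ℝ, {s : ℂ | 1 / 2 < s.re} ∈ 𝓝 ((1 : ℂ) + u * I) := fun u =>
    (isOpen_gt (1 / 2)).mem_nhds (by simp; norm_num)
  have cE : ∀ u : ℝ, ContinuousAt E (1 + u * I) := fun u =>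
    (hE.differentiableAt (hV u)).continuousAt
  have cQ : ∀ u : ℝ, ContinuousAt Q (1 + u * I) := fun u =>
    (hQ.differentiableAt (hV u)).continuousAt
  -- the left side
  have L1 : Tendsto (fun σ : ℝ => ‖E ((1 : ℂ) + σ + (0 : ℝ) * I)‖ ^ 3 *
      (‖(σ : ℂ)⁻¹ * (E ((1 + t * I) + σ) - E (1 + t * I))‖ ^ 4 * σ) *
      ‖E ((1 : ℂ) + σ + (2 * t : ℝ) * I)‖) (𝓝[>] 0) (𝓝 (‖E (1 + (0 : ℝ) * I)‖ ^ 3 *
      (‖deriv E (1 + t * I)‖ ^ 4 * 0) * ‖E (1 + (2 * t : ℝ) * I)‖)) := by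
    refine Tendsto.mul (Tendsto.mul ?_ (Tendsto.mul ?_ ?_)) ?_
    · exact (((cE 0).tendsto.comp (path_tendsto 0)).norm).pow 3
    · exact ((slope_tendsto (hE.differentiableAt (hV t))).norm).pow 4
    · exact tendsto_id.mono_left nhdsWithin_le_nhds
    · exact ((cE (2 * t)).tendsto.comp (path_tendsto (2 * t))).norm
  have L2 : Tendsto (fun σ : ℝ => |t| ^ 4 * |2 * t| * Real.exp
      (3 * (Q ((1 : ℂ) + σ + (0 : ℝ) * I)).re + 4 * (Q ((1 : ℂ) + σ + t * I)).re +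
      (Q ((1 : ℂ) + σ + (2 * t : ℝ) * I)).re)) (𝓝[>] 0) (𝓝 (|t| ^ 4 * |2 * t| * Real.exp
      (3 * (Q ((1 : ℂ) + (0 : ℝ) * I)).re + 4 * (Q ((1 : ℂ) + t * I)).re +
      (Q ((1 : ℂ) + (2 * t : ℝ) * I)).re))) := by
    have q : ∀ u : ℝ, Tendsto (fun σ : ℝ => (Q ((1 : ℂ) + σ + u * I)).re) (𝓝[>] 0)
        (𝓝 (Q ((1 : ℂ) + u * I)).re) := fun u =>
      (Complex.continuous_re.tendsto _).comp ((cQ u).tendsto.comp (path_tendsto u))
    refine Tendsto.mul tendsto_const_nhds ((Real.continuous_exp.tendsto _).comp ?_)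
    exact ((tendsto_const_nhds.mul (q 0)).add (tendsto_const_nhds.mul (q t))).add (q (2 * t))
  have hle := le_of_tendsto_of_tendsto L2 L1 (by
    filter_upwards [self_mem_nhdsWithin] with σ hσ'
    have hσ : (0 : ℝ) < σ := hσ'
    have e1 : (1 + t * I : ℂ) + σ = (1 : ℂ) + σ + t * I := by ring
    rw [e1, h0, sub_zero, norm_mul, norm_inv, Complex.norm_real, Real.norm_of_nonneg hσ.le]
    have hu : ∀ u : ℝ, ‖E ((1 : ℂ) + σ + u * I)‖ = ‖(σ : ℂ) + u * I‖ *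
        Real.exp ((PP a ((1 : ℂ) + σ + u * I)).re + (Q ((1 : ℂ) + σ + u * I)).re) := fun u => by
      rw [h _ (by rw [re1]; linarith), norm_mul, Complex.norm_exp, Complex.add_re]
      congr 2
      ring
    rw [hu, hu, hu]
    have n0 : ‖(σ : ℂ) + (0 : ℝ) * I‖ = σ := by
      simp [abs_of_pos hσ]
    have nt : ∀ u : ℝ, |u| ≤ ‖(σ : ℂ) + u * I‖ := fun u => by
      have := Complex.abs_im_le_norm ((σ : ℂ) + u * I)
      simpa using this
    rw [n0]
    have h341 := three_four_one a ha ha4 hσ t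
    set P0 := (PP a ((1 : ℂ) + σ + (0 : ℝ) * I)).re
    set P1 := (PP a ((1 : ℂ) + σ + t * I)).re
    set P2 := (PP a ((1 : ℂ) + σ + (2 * t : ℝ) * I)).re
    set Q0 := (Q ((1 : ℂ) + σ + (0 : ℝ) * I)).re
    set Q1 := (Q ((1 : ℂ) + σ + t * I)).re
    set Q2 := (Q ((1 : ℂ) + σ + (2 * t : ℝ) * I)).re
    have key : (σ * Real.exp (P0 + Q0)) ^ 3 *
        ((σ⁻¹ * (‖(σ : ℂ) + t * I‖ * Real.exp (P1 + Q1))) ^ 4 * σ) *
        (‖(σ : ℂ) + (2 * t : ℝ) * I‖ * Real.exp (P2 + Q2)) =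
        (‖(σ : ℂ) + t * I‖ ^ 4 * ‖(σ : ℂ) + (2 * t : ℝ) * I‖) *
          (Real.exp (3 * Q0 + 4 * Q1 + Q2) * Real.exp (3 * P0 + 4 * P1 + P2)) := by
      have e3 : Real.exp (3 * Q0 + 4 * Q1 + Q2) * Real.exp (3 * P0 + 4 * P1 + P2) =
          Real.exp (P0 + Q0) ^ 3 * Real.exp (P1 + Q1) ^ 4 * Real.exp (P2 + Q2) := by
        rw [← Real.exp_add, ← Real.exp_nat_mul, ← Real.exp_nat_mul, ← Real.exp_add,
          ← Real.exp_add]
        congr 1
        push_cast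
        ring
      rw [e3]
      field_simp
    rw [key]
    refine mul_le_mul ?_ ?_ (Real.exp_pos _).le (by positivity)
    · exact mul_le_mul (pow_le_pow_left₀ (abs_nonneg _) (nt t) 4) (nt (2 * t)) (abs_nonneg _)
        (by positivity)
    · exact le_mul_of_one_le_right (Real.exp_pos _).le (Real.one_le_exp h341))
  have hpos : 0 < |t| ^ 4 * |2 * t| * Real.exp
      (3 * (Q ((1 : ℂ) + (0 : ℝ) * I)).re + 4 * (Q ((1 : ℂ) + t * I)).re +
      (Q ((1 : ℂ) + (2 * t : ℝ) * I)).re) := by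
    have : 0 < |t| := abs_pos.mpr ht
    have : 0 < |2 * t| := abs_pos.mpr (by positivity)
    positivity
  rw [mul_zero, mul_zero, zero_mul] at hle
  linarith

/-- the main step -/
theorem main (a : ℕ → ℝ) (ha : ∀ p : Nat.Primes, 0 ≤ a p)
    (ha4 : ∀ p : Nat.Primes, a p ≤ 4) {E Q : ℂ → ℂ}
    (hE : DifferentiableOn ℂ E {s : ℂ | 1 / 2 < s.re})
    (hQ : DifferentiableOn ℂ Q {s : ℂ | 1 / 2 < s.re})
    (h : ∀ s : ℂ, 1 < s.re → E s = (s - 1) * Complex.exp (PP a s + Q s)) (h1 : E 1 ≠ 0) :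
    ∃ A : ℂ → ℂ, (∀ z : ℂ, 1 ≤ z.re → AnalyticAt ℂ A z) ∧ ∀ s : ℂ, 1 < s.re →
      ∑' p : Nat.Primes, ((a p * Real.log p : ℝ) : ℂ) * (p : ℂ) ^ (-s) = 1 / (s - 1) + A s := by
  have hV : ∀ z : ℂ, 1 ≤ z.re → {s : ℂ | 1 / 2 < s.re} ∈ 𝓝 z := fun z hz =>
    (isOpen_gt (1 / 2)).mem_nhds (by simp only [Set.mem_ofPred_eq]; linarith)
  have hne : ∀ z : ℂ, 1 ≤ z.re → E z ≠ 0 := by
    intro z hz
    rcases hz.lt_or_eq with hz1 | hz1
    · rw [h z hz1]
      refine mul_ne_zero ?_ (Complex.exp_ne_zero _)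
      intro h2
      rw [sub_eq_zero.mp h2] at hz1
      simp at hz1
    · have e : z = 1 + z.im * I := by
        apply Complex.ext <;> simp [← hz1]
      by_cases him : z.im = 0
      · rw [e, him]
        simpa using h1
      · rw [e]
        exact ne_zero_line a ha ha4 hE hQ h him
  have aE : ∀ z : ℂ, 1 ≤ z.re → AnalyticAt ℂ E z := fun z hz => hE.analyticAt (hV z hz)
  have aQ : ∀ z : ℂ, 1 ≤ z.re → AnalyticAt ℂ Q z := fun z hz => hQ.analyticAt (hV z hz)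
  refine ⟨fun s => deriv Q s - deriv E s / E s, fun z hz => ?_, fun s hs => ?_⟩
  · exact (aQ z hz).deriv.sub ((aE z hz).deriv.div (aE z hz) (hne z hz))
  · rw [PP_deriv a ha ha4 hs]
    have hs1 : s - 1 ≠ 0 := by
      intro h2
      rw [sub_eq_zero.mp h2] at hs
      simp at hs
    have e1 : E =ᶠ[𝓝 s] fun w => (w - 1) * Complex.exp (PP a w + Q w) := by
      filter_upwards [(isOpen_gt 1).mem_nhds hs] with w hw
      exact h w hw
    have dP := (PP_diff a ha ha4 hs).hasDerivAt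
    have dQ := (aQ s hs.le).differentiableAt.hasDerivAt
    have d2 : HasDerivAt (fun w => (w - 1) * Complex.exp (PP a w + Q w))
        (1 * Complex.exp (PP a s + Q s) +
          (s - 1) * (Complex.exp (PP a s + Q s) * (deriv (PP a) s + deriv Q s))) s :=
      ((hasDerivAt_id s).sub_const 1).mul (dP.add dQ).cexp
    have e2 : deriv E s = 1 * Complex.exp (PP a s + Q s) +
          (s - 1) * (Complex.exp (PP a s + Q s) * (deriv (PP a) s + deriv Q s)) := by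
      rw [e1.deriv_eq]
      exact d2.deriv
    beta_reduce
    rw [e2, h s hs]
    have hexp := Complex.exp_ne_zero (PP a s + Q s)
    field_simp
    ring

end Pool.Agent.NH98.RS2.LogDH

namespace Pool.Agent.NH98.RS2

open Pool.Agent.TH941 (gg Hecke gg_nonneg)

theorem t_log (h1 : S_cont) (h2 : S_exp) : S_log := by
  intro N _ f hf
  obtain ⟨E, hE, hES, hE1⟩ := h1 N f hf.one
  obtain ⟨Q, hQ, hQS⟩ := h2 N f hf
  exact LogDH.main (gg f) (fun p => gg_nonneg f p) (fun p => hf.mult.g_le p.2) hE hQ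
    (fun s hs => by rw [hES s hs, hQS s hs]; rfl) hE1

end Pool.Agent.NH98.RS2
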