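import Pool.Agent.Y149.CR.Pol

/-! Statements of project RS2: the analytic continuation of the Rankin-Selberg series to `Re s > 1/2`. -/

set_option autoImplicit false

namespace Pool.Agent.NH98.RS2

open MeasureTheory Filter Topology UpperHalfPlane CongruenceSubgroup
open scoped ENNReal MatrixGroups Modular ModularForm
open Pool.Agent.W165.RS (EE ac ac_zero FF GG phi)
open Pool.Agent.Y722.RS (S2 Sm)
open Pool.Agent.TH941 (gg Hecke)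
open Pool.Agent.Y149.CR (gc BC zc kk am ind LC Ga SC)

noncomputable section

/-- the one-dimensional sums for `Re s > 1/2` -/
def S_line : Prop := DifferentiableOn ℂ BC {s : ℂ | 1 / 2 < s.re} ∧
  (∀ (s : ℂ) (N α θ : ℝ), 1 / 2 < s.re → 0 < N → 0 < α →
    Summable (fun j : ℤ => ‖(((θ + N * j) ^ 2 + α ^ 2 : ℝ) : ℂ) ^ (-s)‖) ∧
    ‖∑' j : ℤ, (((θ + N * j) ^ 2 + α ^ 2 : ℝ) : ℂ) ^ (-s) -
      ((N⁻¹ : ℝ) : ℂ) * (α : ℂ) ^ (1 - 2 * s) * BC s‖ ≤ 2 * ‖s‖ / s.re * α ^ (-(2 * s.re))) ∧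
  (∀ N α θ : ℝ, 0 < N → 0 < α → DifferentiableOn ℂ
    (fun s : ℂ => ∑' j : ℤ, (((θ + N * j) ^ 2 + α ^ 2 : ℝ) : ℂ) ^ (-s)) {s : ℂ | 1 / 2 < s.re})

section
variable {N : ℕ} [NeZero N]

/-- the inner sum minus its main term -/
def Rm (a b : ZMod N) (w : ℍ) (s : ℂ) (m : ℤ) : ℂ :=
  if m ≠ 0 ∧ (m : ZMod N) = a then
    (w.im : ℂ) ^ s * ∑' j : ℤ,
      (((m * w.re + (b.val : ℝ) + N * j) ^ 2 + (|(m:ℝ)| * w.im) ^ 2 : ℝ) : ℂ) ^ (-s) -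
    kk N w s * am a s m else 0

/-- the weight on the fundamental domain -/
def wt (f : S2 N) (ab : ZMod N × ZMod N) (z : ℍ) : ℝ := (phi z * GG (FF f) ab z).toReal

end

/-- the remainder of the lattice sums -/
def S_rem : Prop := ∀ (N : ℕ) [NeZero N] (a b : ZMod N),
  (∀ (w : ℍ) (s : ℂ), 1 / 2 < s.re → Summable fun m => ‖Rm a b w s m‖) ∧
  (∀ w : ℍ, DifferentiableOn ℂ (fun s => ∑' m, Rm a b w s m) {s : ℂ | 1 / 2 < s.re}) ∧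
  (∀ s : ℂ, 1 / 2 < s.re → Measurable fun w : ℍ => ∑' m, Rm a b w s m) ∧
  (∀ s₀ : ℂ, 1 / 2 < s₀.re → ∃ r > 0, ∃ C : ℝ, ∀ (w : ℍ) (s : ℂ), dist s s₀ < r →
    ‖∑' m, Rm a b w s m‖ ≤ C * w.im ^ (-s.re))

/-- the continuation of the lattice sums -/
def S_lat : Prop := ∀ (N : ℕ) [NeZero N], ∃ Zt : ZMod N → ZMod N → ℍ → ℂ → ℂ,
  (∀ (a b : ZMod N) (w : ℍ), DifferentiableOn ℂ (Zt a b w) {s : ℂ | 1 / 2 < s.re ∧ s.re < 2}) ∧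
  (∀ (a b : ZMod N) (s : ℂ), 1 / 2 < s.re → s.re < 2 → Measurable fun w => Zt a b w s) ∧
  (∀ (a b : ZMod N) (w : ℍ) (s : ℂ), 1 < s.re → s.re < 2 →
    Zt a b w s = (s - 1) * ∑' p, zc a b w s p) ∧
  (∀ s₀ : ℂ, 1 / 2 < s₀.re → s₀.re < 2 → ∃ r > 0, ∃ C : ℝ, ∀ (a b : ZMod N) (w : ℍ) (s : ℂ),
    1 / 2 ≤ w.im → 1 / 2 < s.re → s.re < 2 → dist s s₀ < r → ‖Zt a b w s‖ ≤ C * w.im ^ 2)

/-- the weights -/
def S_wt : Prop := ∀ (N : ℕ) [NeZero N] (f : S2 N) (ab : ZMod N × ZMod N),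
  Measurable (wt f ab) ∧ Integrable (fun z : ℍ => wt f ab z * z.im ^ 2) ∧
  (∀ z : ℍ, z.im < 1 / 2 → wt f ab z = 0) ∧ (∀ z : ℍ, phi z * GG (FF f) ab z ≠ ∞)

/-- the Rankin-Selberg integral -/
def S_unf : Prop := ∀ (N : ℕ) [NeZero N] (f : S2 N), Sm f → ∀ s : ℂ, 1 < s.re → s.re < 2 →
  LC N s * (Ga s * SC f s) =
    ∑ ab : ZMod N × ZMod N, ∫ z : ℍ, ((wt f ab z : ℝ) : ℂ) * ∑' p, zc ab.1 ab.2 z s p

/-- the arithmetic and archimedean factors -/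
def S_fac : Prop := ∀ (N : ℕ) [NeZero N],
  DifferentiableOn ℂ (LC N) {s : ℂ | 1 / 2 < s.re} ∧ (∀ s : ℂ, 1 / 2 < s.re → LC N s ≠ 0) ∧
  DifferentiableOn ℂ Ga {s : ℂ | 1 / 2 < s.re} ∧ (∀ s : ℂ, 1 / 2 < s.re → Ga s ≠ 0)

/-- **The continuation of the Rankin-Selberg series.** -/
def S_cont : Prop := ∀ (N : ℕ) [NeZero N] (f : S2 N), ac f 1 = 1 → ∃ E : ℂ → ℂ,
  DifferentiableOn ℂ E {s : ℂ | 1 / 2 < s.re} ∧ (∀ s : ℂ, 1 < s.re → E s = (s - 1) * SC f s) ∧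
  E 1 ≠ 0

/-- the Euler product as an exponential -/
def S_exp : Prop := ∀ (N : ℕ) [NeZero N] (f : S2 N), Hecke f → ∃ Q : ℂ → ℂ,
  DifferentiableOn ℂ Q {s : ℂ | 1 / 2 < s.re} ∧ ∀ s : ℂ, 1 < s.re →
    SC f s = Complex.exp (∑' p : Nat.Primes, (gg f p : ℂ) * (p : ℂ) ^ (-s) + Q s)

/-- **The logarithmic derivative over the primes.** -/
def S_log : Prop := ∀ (N : ℕ) [NeZero N] (f : S2 N), Hecke f → ∃ A : ℂ → ℂ,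
  (∀ z : ℂ, 1 ≤ z.re → AnalyticAt ℂ A z) ∧ ∀ s : ℂ, 1 < s.re →
    ∑' p : Nat.Primes, ((gg f p * Real.log p : ℝ) : ℂ) * (p : ℂ) ^ (-s) = 1 / (s - 1) + A s

end

end Pool.Agent.NH98.RS2
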